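import Mathlib
import Pool.Agent.Helper22.GC.VdC

/-!
# Van der Corput's inequality (after helper71)
-/

set_option autoImplicit false

namespace EG.VdC

open Finset
open Pool.Agent.Helper22.GC (ee ee_add norm_ee conj_ee)

theorem ee_sub (x y : ℝ) : ee (x - y) = ee x * (starRingEnd ℂ) (ee y) := by
  rw [sub_eq_add_neg, ee_add, conj_ee]

/-- Shifting the window of summation. -/
theorem sum_shift (z : ℤ → ℂ) (N H : ℕ) (hz : ∀ n : ℤ, (n < 1 ∨ (N : ℤ) < n) → z n = 0)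
    (j : ℤ) (hj0 : 0 ≤ j) (hjH : j < H) :
    ∑ m ∈ Ico (1 - (H : ℤ)) (N + 1), z (m + j) = ∑ n ∈ Ico (1 : ℤ) (N + 1), z n := by
  rw [Finset.sum_Ico_add']
  symm
  apply Finset.sum_subset
  · intro x hx
    rw [Finset.mem_Ico] at hx ⊢
    constructor <;> omega
  · intro x hx hx'
    rw [Finset.mem_Ico] at hx hx'
    apply hz
    omega

/-- Correlations along a shifted window. -/
theorem sum_corr (z : ℤ → ℂ) (N H : ℕ) (hz : ∀ n : ℤ, (n < 1 ∨ (N : ℤ) < n) → z n = 0)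
    (j j' : ℤ) (hj0 : 0 ≤ j') (hjH : j' < H) :
    ∑ m ∈ Ico (1 - (H : ℤ)) (N + 1), z (m + j) * (starRingEnd ℂ) (z (m + j')) =
      ∑ n ∈ Ico (1 : ℤ) (N + 1), z (n + (j - j')) * (starRingEnd ℂ) (z n) := by
  have h := sum_shift (fun n => z (n + (j - j')) * (starRingEnd ℂ) (z n)) N H
    (by intro n hn; simp [hz n hn]) j' hj0 hjH
  rw [← h]
  refine Finset.sum_congr rfl (fun m _ => ?_)
  have : m + j' + (j - j') = m + j := by ring
  rw [this]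

theorem corr_symm (z : ℤ → ℂ) (N : ℕ) (hz : ∀ n : ℤ, (n < 1 ∨ (N : ℤ) < n) → z n = 0)
    (u : ℤ) :
    ‖∑ n ∈ Ico (1 : ℤ) (N + 1), z (n + (-u)) * (starRingEnd ℂ) (z n)‖ =
      ‖∑ n ∈ Ico (1 : ℤ) (N + 1), z (n + u) * (starRingEnd ℂ) (z n)‖ := by
  have h1 : ∑ n ∈ Ico (1 : ℤ) (N + 1), z (n + (-u)) * (starRingEnd ℂ) (z n) =
      (starRingEnd ℂ) (∑ n ∈ Ico (1 : ℤ) (N + 1), z (n + u) * (starRingEnd ℂ) (z n)) := by
    rw [map_sum]
    have h2 : ∑ n ∈ Ico (1 : ℤ) (N + 1), z (n + (-u)) * (starRingEnd ℂ) (z n) =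
        ∑ n ∈ Ico (1 + -u) ((N : ℤ) + 1 + -u), z n * (starRingEnd ℂ) (z (n + u)) := by
      rw [← Finset.sum_Ico_add' (fun n => z n * (starRingEnd ℂ) (z (n + u)))]
      refine Finset.sum_congr rfl (fun m _ => ?_)
      have : m + -u + u = m := by ring
      rw [this]
    rw [h2]
    have h3 : ∀ n : ℤ, z n * (starRingEnd ℂ) (z (n + u)) ≠ 0 →
        (1 ≤ n ∧ n < N + 1) ∧ (1 + -u ≤ n ∧ n < N + 1 + -u) := by
      intro n hn
      have h4 : z n ≠ 0 := fun h => hn (by rw [h, zero_mul])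
      have h5 : z (n + u) ≠ 0 := fun h => hn (by rw [h, map_zero, mul_zero])
      have h6 : ¬ (n < 1 ∨ (N : ℤ) < n) := fun h => h4 (hz n h)
      have h7 : ¬ (n + u < 1 ∨ (N : ℤ) < n + u) := fun h => h5 (hz (n + u) h)
      omega
    have h8 : ∑ n ∈ Ico (1 + -u) ((N : ℤ) + 1 + -u), z n * (starRingEnd ℂ) (z (n + u)) =
        ∑ n ∈ Ico (1 : ℤ) (N + 1), z n * (starRingEnd ℂ) (z (n + u)) := by
      rw [← Finset.sum_filter_of_ne (s := Ico (1 + -u) ((N : ℤ) + 1 + -u))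
        (p := fun n => 1 ≤ n ∧ n < (N : ℤ) + 1) (fun n _ hn => (h3 n hn).1),
        ← Finset.sum_filter_of_ne (s := Ico (1 : ℤ) (N + 1))
        (p := fun n => 1 + -u ≤ n ∧ n < (N : ℤ) + 1 + -u) (fun n _ hn => (h3 n hn).2)]
      apply Finset.sum_congr _ (fun _ _ => rfl)
      ext n
      simp only [Finset.mem_filter, Finset.mem_Ico]
      tauto
    rw [h8]
    refine Finset.sum_congr rfl (fun n _ => ?_)
    rw [map_mul, Complex.conj_conj, mul_comm]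
  rw [h1, RCLike.norm_conj]

/-- Van der Corput inequality with short shifts. -/
theorem van_der_corput (z : ℤ → ℂ) (N H : ℕ) (hH : 1 ≤ H) (hz1 : ∀ n, ‖z n‖ ≤ 1)
    (hz : ∀ n : ℤ, (n < 1 ∨ (N : ℤ) < n) → z n = 0) :
    H * ‖∑ n ∈ Ico (1 : ℤ) (N + 1), z n‖ ^ 2 ≤ (N + H) * (N + 2 * ∑ u ∈ Ico 1 H,
      ‖∑ n ∈ Ico (1 : ℤ) (N + 1), z (n + u) * (starRingEnd ℂ) (z n)‖) := by
  classical
  set R : ℤ → ℝ := fun u => ‖∑ n ∈ Ico (1 : ℤ) (N + 1), z (n + u) * (starRingEnd ℂ) (z n)‖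
    with hR
  have hRs : ∀ u, R (-u) = R u := fun u => corr_symm z N hz u
  have hR0 : R 0 ≤ N := by
    rw [hR]
    calc ‖∑ n ∈ Ico (1 : ℤ) (N + 1), z (n + 0) * (starRingEnd ℂ) (z n)‖
        ≤ ∑ n ∈ Ico (1 : ℤ) (N + 1), ‖z (n + 0) * (starRingEnd ℂ) (z n)‖ := norm_sum_le _ _
      _ ≤ ∑ n ∈ Ico (1 : ℤ) (N + 1), (1 : ℝ) := by
        apply Finset.sum_le_sum
        intro n _
        rw [norm_mul, RCLike.norm_conj]
        exact mul_le_one₀ (hz1 _) (norm_nonneg _) (hz1 _)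
      _ = N := by simp
  -- the sum over all shifts
  have h1 : (H : ℂ) * ∑ n ∈ Ico (1 : ℤ) (N + 1), z n =
      ∑ m ∈ Ico (1 - (H : ℤ)) (N + 1), ∑ j ∈ range H, z (m + j) := by
    rw [Finset.sum_comm]
    have : ∀ j ∈ range H, ∑ m ∈ Ico (1 - (H : ℤ)) (N + 1), z (m + (j : ℤ)) =
        ∑ n ∈ Ico (1 : ℤ) (N + 1), z n := by
      intro j hj
      rw [Finset.mem_range] at hj
      exact sum_shift z N H hz j (by omega) (by exact_mod_cast hj)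
    rw [Finset.sum_congr rfl this, Finset.sum_const, Finset.card_range, nsmul_eq_mul]
  have hcard : ((Ico (1 - (H : ℤ)) ((N : ℤ) + 1)).card : ℝ) = N + H := by
    rw [Int.card_Ico]
    have : ((N : ℤ) + 1 - (1 - (H : ℤ))).toNat = N + H := by omega
    rw [this]
    push_cast; ring
  have h2 : (H : ℝ) ^ 2 * ‖∑ n ∈ Ico (1 : ℤ) (N + 1), z n‖ ^ 2 ≤
      (N + H) * ∑ m ∈ Ico (1 - (H : ℤ)) (N + 1), ‖∑ j ∈ range H, z (m + j)‖ ^ 2 := by
    have h3 : (H : ℝ) * ‖∑ n ∈ Ico (1 : ℤ) (N + 1), z n‖ ≤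
        ∑ m ∈ Ico (1 - (H : ℤ)) (N + 1), ‖∑ j ∈ range H, z (m + j)‖ := by
      calc (H : ℝ) * ‖∑ n ∈ Ico (1 : ℤ) (N + 1), z n‖ =
          ‖(H : ℂ) * ∑ n ∈ Ico (1 : ℤ) (N + 1), z n‖ := by
            rw [norm_mul, Complex.norm_natCast]
        _ ≤ _ := by rw [h1]; exact norm_sum_le _ _
    have h4 := sq_sum_le_card_mul_sum_sq (s := Ico (1 - (H : ℤ)) ((N : ℤ) + 1))
      (f := fun m => ‖∑ j ∈ range H, z (m + j)‖)
    rw [hcard] at h4
    calc (H : ℝ) ^ 2 * ‖∑ n ∈ Ico (1 : ℤ) (N + 1), z n‖ ^ 2 =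
        ((H : ℝ) * ‖∑ n ∈ Ico (1 : ℤ) (N + 1), z n‖) ^ 2 := by ring
      _ ≤ (∑ m ∈ Ico (1 - (H : ℤ)) (N + 1), ‖∑ j ∈ range H, z (m + j)‖) ^ 2 :=
        pow_le_pow_left₀ (by positivity) h3 2
      _ ≤ _ := h4
  have h5 : ∑ m ∈ Ico (1 - (H : ℤ)) (N + 1), ‖∑ j ∈ range H, z (m + j)‖ ^ 2 ≤
      ∑ j ∈ range H, ∑ j' ∈ range H, R ((j : ℤ) - j') := by
    have h6 : ((∑ m ∈ Ico (1 - (H : ℤ)) (N + 1), ‖∑ j ∈ range H, z (m + j)‖ ^ 2 : ℝ) : ℂ) =
        ∑ j ∈ range H, ∑ j' ∈ range H,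
          ∑ n ∈ Ico (1 : ℤ) (N + 1), z (n + ((j : ℤ) - j')) * (starRingEnd ℂ) (z n) := by
      push_cast
      have h7 : ∀ m ∈ Ico (1 - (H : ℤ)) ((N : ℤ) + 1), ((‖∑ j ∈ range H, z (m + j)‖ : ℂ)) ^ 2 =
          ∑ j ∈ range H, ∑ j' ∈ range H, z (m + j) * (starRingEnd ℂ) (z (m + j')) := by
        intro m _
        rw [← Complex.mul_conj', map_sum, Finset.sum_mul_sum]
      rw [Finset.sum_congr rfl h7, Finset.sum_comm]
      refine Finset.sum_congr rfl (fun j _ => ?_)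
      rw [Finset.sum_comm]
      refine Finset.sum_congr rfl (fun j' hj' => ?_)
      rw [Finset.mem_range] at hj'
      exact sum_corr z N H hz j j' (by omega) (by exact_mod_cast hj')
    have h8 : 0 ≤ ∑ m ∈ Ico (1 - (H : ℤ)) (N + 1), ‖∑ j ∈ range H, z (m + j)‖ ^ 2 :=
      Finset.sum_nonneg (fun _ _ => by positivity)
    calc ∑ m ∈ Ico (1 - (H : ℤ)) (N + 1), ‖∑ j ∈ range H, z (m + j)‖ ^ 2 =
        ‖((∑ m ∈ Ico (1 - (H : ℤ)) (N + 1), ‖∑ j ∈ range H, z (m + j)‖ ^ 2 : ℝ) : ℂ)‖ := by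
          rw [Complex.norm_real, Real.norm_of_nonneg h8]
      _ ≤ _ := by
        rw [h6]
        refine (norm_sum_le _ _).trans (Finset.sum_le_sum (fun j _ => ?_))
        exact norm_sum_le _ _
  have h9 : ∀ j ∈ range H, ∑ j' ∈ range H, R ((j : ℤ) - j') ≤
      N + 2 * ∑ u ∈ Ico 1 H, R u := by
    intro j hj
    rw [Finset.mem_range] at hj
    have hRnn : ∀ u, 0 ≤ R u := fun u => norm_nonneg _
    have h10 : ∑ j' ∈ range H, R ((j : ℤ) - (j' : ℕ)) = ∑ j' ∈ range j, R ((j : ℤ) - (j' : ℕ)) +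
        (R 0 + ∑ i ∈ range (H - (j + 1)), R (((1 + i : ℕ) : ℤ))) := by
      rw [Finset.range_eq_Ico, ← Finset.sum_Ico_consecutive _ (Nat.zero_le j) hj.le,
        ← Finset.range_eq_Ico, Finset.sum_eq_sum_Ico_succ_bot hj]
      congr 2
      · simp
      · rw [Finset.sum_Ico_eq_sum_range]
        refine Finset.sum_congr rfl (fun i _ => ?_)
        rw [← hRs]
        congr 1
        push_cast; ring
    have h11 : ∑ j' ∈ range j, R ((j : ℤ) - (j' : ℕ)) = ∑ i ∈ range j, R (((1 + i : ℕ) : ℤ)) := by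
      rw [← Finset.sum_range_reflect]
      refine Finset.sum_congr rfl (fun i hi => ?_)
      rw [Finset.mem_range] at hi
      congr 1
      omega
    have h12 : ∀ l, l ≤ H - 1 → ∑ i ∈ range l, R (((1 + i : ℕ) : ℤ)) ≤ ∑ u ∈ Ico 1 H, R u := by
      intro l hl
      rw [Finset.sum_Ico_eq_sum_range]
      apply Finset.sum_le_sum_of_subset_of_nonneg
      · exact Finset.range_subset_range.mpr hl
      · intro i _ _
        exact hRnn _
    rw [h10, h11]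
    have h13 := h12 j (by omega)
    have h14 := h12 (H - (j + 1)) (by omega)
    linarith
  have h15 : ∑ j ∈ range H, ∑ j' ∈ range H, R ((j : ℤ) - j') ≤
      H * (N + 2 * ∑ u ∈ Ico 1 H, R u) := by
    calc _ ≤ ∑ j ∈ range H, (N + 2 * ∑ u ∈ Ico 1 H, R u) := Finset.sum_le_sum h9
      _ = H * (N + 2 * ∑ u ∈ Ico 1 H, R u) := by
        rw [Finset.sum_const, Finset.card_range, nsmul_eq_mul]
  have hHpos : (0 : ℝ) < H := by exact_mod_cast hH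
  have h16 : (H : ℝ) * (H * ‖∑ n ∈ Ico (1 : ℤ) (N + 1), z n‖ ^ 2) ≤
      H * ((N + H) * (N + 2 * ∑ u ∈ Ico 1 H, R u)) := by
    calc (H : ℝ) * (H * ‖∑ n ∈ Ico (1 : ℤ) (N + 1), z n‖ ^ 2) =
        (H : ℝ) ^ 2 * ‖∑ n ∈ Ico (1 : ℤ) (N + 1), z n‖ ^ 2 := by ring
      _ ≤ _ := h2
      _ ≤ (N + H) * (H * (N + 2 * ∑ u ∈ Ico 1 H, R u)) :=
        mul_le_mul_of_nonneg_left (h5.trans h15) (by positivity)
      _ = _ := by ring
  exact le_of_mul_le_mul_left h16 hHpos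

theorem sum_int_nat (g : ℤ → ℂ) (N : ℕ) :
    ∑ n ∈ Ico (1 : ℤ) (N + 1), g n = ∑ n ∈ Icc 1 N, g (n : ℤ) := by
  have h : Ico (1 : ℤ) (N + 1) = (Icc 1 N).image (Nat.cast : ℕ → ℤ) := by
    ext x
    simp only [Finset.mem_image, Finset.mem_Icc, Finset.mem_Ico]
    constructor
    · rintro ⟨h1, h2⟩
      exact ⟨x.toNat, by omega, by omega⟩
    · rintro ⟨n, hn, rfl⟩
      omega
  rw [h, Finset.sum_image]
  intro x _ y _ hxy
  exact_mod_cast hxy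

/-- Van der Corput inequality for weighted exponential sums. -/
theorem vdc_nat (a : ℕ → ℂ) (ha : ∀ n, ‖a n‖ ≤ 1) (f : ℕ → ℝ) (N H : ℕ) (hH : 1 ≤ H) :
    H * ‖∑ n ∈ Icc 1 N, a n * ee (f n)‖ ^ 2 ≤ (N + H) * (N + 2 * ∑ u ∈ Ico 1 H,
      ‖∑ n ∈ Icc 1 N, (if n + u ≤ N then a (n + u) * (starRingEnd ℂ) (a n) else 0) *
        ee (f (n + u) - f n)‖) := by
  classical
  set z : ℤ → ℂ := fun n => if 1 ≤ n ∧ n ≤ N then a n.toNat * ee (f n.toNat) else 0 with hzdef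
  have hz1 : ∀ n, ‖z n‖ ≤ 1 := by
    intro n
    rw [hzdef]
    dsimp only
    split_ifs
    · rw [norm_mul, norm_ee, mul_one]
      exact ha _
    · simp
  have hz : ∀ n : ℤ, (n < 1 ∨ (N : ℤ) < n) → z n = 0 := by
    intro n hn
    rw [hzdef]
    dsimp only
    rw [if_neg]
    omega
  have hzn : ∀ n : ℕ, 1 ≤ n → n ≤ N → z (n : ℤ) = a n * ee (f n) := by
    intro n h1 h2
    rw [hzdef]
    dsimp only
    rw [if_pos ⟨by exact_mod_cast h1, by exact_mod_cast h2⟩, Int.toNat_natCast]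
  have hzn' : ∀ n : ℕ, N < n → z (n : ℤ) = 0 := by
    intro n h1
    apply hz
    right
    exact_mod_cast h1
  have h := van_der_corput z N H hH hz1 hz
  rw [sum_int_nat] at h
  have e1 : ∑ n ∈ Icc 1 N, z (n : ℤ) = ∑ n ∈ Icc 1 N, a n * ee (f n) := by
    refine Finset.sum_congr rfl (fun n hn => ?_)
    rw [Finset.mem_Icc] at hn
    exact hzn n hn.1 hn.2
  rw [e1] at h
  have e2 : ∀ u ∈ Ico 1 H, ‖∑ n ∈ Ico (1 : ℤ) (N + 1), z (n + (u : ℕ)) *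
      (starRingEnd ℂ) (z n)‖ = ‖∑ n ∈ Icc 1 N, (if n + u ≤ N then
        a (n + u) * (starRingEnd ℂ) (a n) else 0) * ee (f (n + u) - f n)‖ := by
    intro u _
    rw [sum_int_nat]
    congr 1
    refine Finset.sum_congr rfl (fun n hn => ?_)
    rw [Finset.mem_Icc] at hn
    have e3 : ((n : ℤ) + (u : ℕ)) = ((n + u : ℕ) : ℤ) := by push_cast; ring
    rw [e3]
    split_ifs with h3
    · rw [hzn n hn.1 hn.2, hzn (n + u) (by omega) h3, ee_sub, map_mul]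
      ring
    · rw [hzn' (n + u) (by omega)]
      simp
  rw [Finset.sum_congr rfl e2] at h
  exact h


end EG.VdC
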