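import Mathlib
import Pool.Agent.Helper22.GC.VdC

/-!
# Iterated differences of `1 / q`
-/

set_option autoImplicit false

namespace EG

/-- Iterated (decreasing) differences of `q ↦ q ^ (-i)`. -/
noncomputable def E : List ℕ → ℕ → ℝ → ℝ
  | [], i, q => (q ^ i)⁻¹
  | (h :: l), i, q => E l i q - E l i (q + h)

/-- The leading coefficients. -/
noncomputable def cf : List ℕ → ℕ → ℝ
  | [], _ => 1
  | (h :: l), i => h * i * cf l (i + 1)

lemma cf_nonneg : ∀ (l : List ℕ) (i : ℕ), 0 ≤ cf l i
  | [], _ => by simp [cf]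
  | (h :: l), i => by
    have := cf_nonneg l (i + 1)
    simp only [cf]
    positivity

lemma cf_le : ∀ (l : List ℕ) (i : ℕ),
    cf l i ≤ (l.prod : ℝ) * ((i : ℝ) + l.length) ^ l.length
  | [], i => by simp [cf]
  | (h :: l), i => by
    have h1 := cf_le l (i + 1)
    have h0 := cf_nonneg l (i + 1)
    simp only [cf, List.prod_cons, List.length_cons, Nat.cast_mul, Nat.cast_add, Nat.cast_one]
      at h1 ⊢
    have e1 : ((i : ℝ) + 1 + l.length) = (i : ℝ) + (l.length + 1) := by ring
    rw [e1] at h1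
    calc (h : ℝ) * i * cf l (i + 1)
        ≤ h * ((i : ℝ) + (l.length + 1)) * (l.prod * ((i : ℝ) + (l.length + 1)) ^ l.length) := by
          gcongr
          have : (0 : ℝ) ≤ l.length := Nat.cast_nonneg _
          linarith
      _ = h * l.prod * ((i : ℝ) + (l.length + 1)) ^ (l.length + 1) := by ring

lemma prod_le_cf : ∀ (l : List ℕ) (i : ℕ), 1 ≤ i → (l.prod : ℝ) ≤ cf l i
  | [], i, _ => by simp [cf]
  | (h :: l), i, hi => by
    have h1 := prod_le_cf l (i + 1) (by omega)
    simp only [cf, List.prod_cons, Nat.cast_mul]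
    have hi' : (1 : ℝ) ≤ i := by exact_mod_cast hi
    have h2 : (0 : ℝ) ≤ l.prod := Nat.cast_nonneg _
    calc (h : ℝ) * l.prod ≤ h * cf l (i + 1) := by gcongr
      _ = h * 1 * cf l (i + 1) := by ring
      _ ≤ h * i * cf l (i + 1) := by
        have := cf_nonneg l (i + 1)
        gcongr

lemma hasDerivAt_E : ∀ (l : List ℕ) (i : ℕ) (q : ℝ), 0 < q →
    HasDerivAt (E l i) (-(i * E l (i + 1) q)) q
  | [], i, q, hq => by
    have h1 := (hasDerivAt_pow i q).inv (pow_ne_zero i hq.ne')
    have e : (fun x : ℝ => (x ^ i))⁻¹ = E [] i := by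
      funext x
      simp [E]
    rw [e] at h1
    refine h1.congr_deriv ?_
    simp only [E]
    rcases Nat.eq_zero_or_pos i with rfl | hi
    · simp
    · have : q ^ (i + 1) = q ^ (i - 1) * q ^ 2 := by
        rw [← pow_add]; congr 1; omega
      rw [this]
      have e2 : (q ^ i) = q ^ (i - 1) * q := by
        rw [← pow_succ]; congr 1; omega
      rw [e2]
      field_simp
  | (h :: l), i, q, hq => by
    have h1 := hasDerivAt_E l i q hq
    have h2 := hasDerivAt_E l i (q + h) (by positivity)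
    have h3 : HasDerivAt (fun x => E l i (x + h)) (-(i * E l (i + 1) (q + h))) q :=
      h2.comp_add_const q (h : ℝ)
    have h4 := h1.sub h3
    have e : (fun x => E l i x) - (fun x => E l i (x + h)) = E (h :: l) i := by
      funext x
      simp [E]
    rw [e] at h4
    refine h4.congr_deriv ?_
    simp only [E]
    ring

lemma E_sub (l : List ℕ) (i h : ℕ) (q : ℝ) (hq : 0 < q) : ∃ ξ, q ≤ ξ ∧ ξ ≤ q + h ∧
    E (h :: l) i q = h * i * E l (i + 1) ξ := by
  rcases Nat.eq_zero_or_pos h with rfl | hh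
  · refine ⟨q, le_rfl, by simp, ?_⟩
    simp [E]
  · have hh' : (0 : ℝ) < h := by exact_mod_cast hh
    obtain ⟨ξ, hξ, hs⟩ := exists_hasDerivAt_eq_slope (E l i) (fun x => -(i * E l (i + 1) x))
      (a := q) (b := q + h) (by linarith)
      (fun x hx => (hasDerivAt_E l i x (by linarith [hx.1])).continuousAt.continuousWithinAt)
      (fun x hx => hasDerivAt_E l i x (by linarith [hx.1]))
    refine ⟨ξ, hξ.1.le, hξ.2.le, ?_⟩
    simp only [E]
    rw [eq_div_iff (by linarith)] at hs
    have e : q + h - q = (h : ℝ) := by ring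
    rw [e] at hs
    linarith

/-- Two-sided bounds for the iterated differences. -/
theorem E_bounds : ∀ (l : List ℕ) (i : ℕ) (q : ℝ), 0 < q →
    cf l i / (q + l.sum) ^ (i + l.length) ≤ E l i q ∧ E l i q ≤ cf l i / q ^ (i + l.length)
  | [], i, q, hq => by simp [E, cf]
  | (h :: l), i, q, hq => by
    obtain ⟨ξ, h1, h2, h3⟩ := E_sub l i h q hq
    have hξ : 0 < ξ := by linarith
    have h4 := E_bounds l (i + 1) ξ hξ
    rw [h3]
    simp only [cf, List.sum_cons, List.length_cons, Nat.cast_add]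
    have e : i + (l.length + 1) = i + 1 + l.length := by ring
    rw [e, mul_div_assoc, mul_div_assoc]
    have h0 := cf_nonneg l (i + 1)
    have hs : (0 : ℝ) ≤ l.sum := Nat.cast_nonneg _
    constructor
    · refine mul_le_mul_of_nonneg_left (le_trans ?_ h4.1) (by positivity)
      have h5 : ξ + (l.sum : ℝ) ≤ q + (h + l.sum) := by linarith
      gcongr
    · refine mul_le_mul_of_nonneg_left (h4.2.trans ?_) (by positivity)
      gcongr

lemma E_nonneg (l : List ℕ) (i : ℕ) (q : ℝ) (hq : 0 < q) : 0 ≤ E l i q := by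
  refine le_trans ?_ (E_bounds l i q hq).1
  have := cf_nonneg l i
  have hs : (0 : ℝ) ≤ l.sum := Nat.cast_nonneg _
  positivity

end EG
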