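import Mathlib
import Pool.Agent.Helper79.EG.Diff
import Pool.Agent.Helper79.EG.VdC

/-!
# Exponential sums with phase `y / q`: Weyl - van der Corput differencing
-/

set_option autoImplicit false

namespace EG

open Finset
open Pool.Agent.Helper22.GC (ee ee_add norm_ee conj_ee kusmin_landau)

/-- the weight of a list of shifts -/
noncomputable def wt (H : ℕ) (l : List ℕ) : ℝ := (l.map (fun u => (H : ℝ) / u)).prod

lemma wt_cons (H u : ℕ) (l : List ℕ) : wt H (u :: l) = (H / u : ℝ) * wt H l := by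
  simp [wt]

lemma one_le_wt {H : ℕ} : ∀ {l : List ℕ}, (∀ u ∈ l, 1 ≤ u ∧ u < H) → 1 ≤ wt H l
  | [], _ => by simp [wt]
  | (u :: l), h => by
    rw [wt_cons]
    have h1 := one_le_wt (fun v hv => h v (List.mem_cons_of_mem _ hv))
    have h2 := h u (List.mem_cons_self ..)
    have h3 : (1 : ℝ) ≤ H / u := by
      rw [le_div_iff₀ (by exact_mod_cast h2.1), one_mul]
      exact_mod_cast h2.2.le
    exact one_le_mul_of_one_le_of_one_le h3 h1

lemma wt_eq {H : ℕ} : ∀ {l : List ℕ}, (∀ u ∈ l, 1 ≤ u ∧ u < H) →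
    wt H l * l.prod = (H : ℝ) ^ l.length
  | [], _ => by simp [wt]
  | (u :: l), h => by
    rw [wt_cons, List.prod_cons, List.length_cons, pow_succ,
      ← wt_eq (fun v hv => h v (List.mem_cons_of_mem _ hv))]
    have h2 := h u (List.mem_cons_self ..)
    have h3 : (u : ℝ) ≠ 0 := by
      have := h2.1
      positivity
    push_cast
    field_simp

lemma prod_pos' {H : ℕ} : ∀ {l : List ℕ}, (∀ u ∈ l, 1 ≤ u ∧ u < H) → 1 ≤ l.prod
  | [], _ => by simp
  | (u :: l), h => by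
    rw [List.prod_cons]
    have h1 := prod_pos' (fun v hv => h v (List.mem_cons_of_mem _ hv))
    have h2 := (h u (List.mem_cons_self ..)).1
    exact Nat.mul_pos h2 h1

lemma sum_le' {H : ℕ} : ∀ {l : List ℕ}, (∀ u ∈ l, 1 ≤ u ∧ u < H) → l.sum ≤ l.length * H
  | [], _ => by simp
  | (u :: l), h => by
    rw [List.sum_cons, List.length_cons]
    have h1 := sum_le' (fun v hv => h v (List.mem_cons_of_mem _ hv))
    have h2 := (h u (List.mem_cons_self ..)).2
    nlinarith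

/-- The base case: all differences have been taken. -/
theorem base_case {K Q H : ℕ} {y : ℝ} (hHQ : H ≤ Q) (hy : 0 < y)
    (h1 : y * (K + 2) ^ K * H ^ K ≤ Q ^ (K + 2) / 2) {l : List ℕ} (hl : l.length = K)
    (hu : ∀ u ∈ l, 1 ≤ u ∧ u < H) {N a : ℕ} (ha : Q ≤ a) (haN : a + N ≤ 4 * Q) (hQ : 1 ≤ Q) :
    ‖∑ n ∈ Icc 1 N, ee (y * E l 1 (a + n))‖ ≤
      ((K : ℝ) + 5) ^ (K + 2) * Q ^ (K + 2) / (y * l.prod) := by
  have hQ0 : (0 : ℝ) < Q := by exact_mod_cast hQ
  have hp : (1 : ℝ) ≤ l.prod := by exact_mod_cast prod_pos' hu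
  have hp0 : (0 : ℝ) < l.prod := by linarith
  set θ : ℝ := y * l.prod / ((K + 5) ^ (K + 2) * Q ^ (K + 2)) with hθ
  have hθ0 : 0 < θ := by rw [hθ]; positivity
  have hdiff : ∀ n : ℕ, y * E l 1 (a + ((n + 1 : ℕ) : ℝ)) - y * E l 1 (a + n) =
      - (y * E (1 :: l) 1 (a + n)) := by
    intro n
    simp only [E]
    push_cast
    rw [← add_assoc]
    ring
  have hbound : ∀ n : ℕ, 1 ≤ n → n ≤ N → θ ≤ y * E (1 :: l) 1 (a + n) ∧
      y * E (1 :: l) 1 (a + n) ≤ 1 / 2 := by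
    intro n hn hnN
    have hq0 : (0 : ℝ) < (a : ℝ) + n := by positivity
    have hb := E_bounds (1 :: l) 1 (a + n) hq0
    have hqQ : (Q : ℝ) ≤ (a : ℝ) + n := by
      have : Q ≤ a + n := by omega
      exact_mod_cast this
    have hqQ' : (a : ℝ) + n ≤ 4 * Q := by
      have : a + n ≤ 4 * Q := by omega
      exact_mod_cast this
    have hlen : 1 + (1 :: l).length = K + 2 := by simp [hl]; ring
    rw [hlen] at hb
    have hcf : cf (1 :: l) 1 = cf l 2 := by simp [cf]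
    rw [hcf] at hb
    have hc0 := cf_nonneg l 2
    have hc1 := prod_le_cf l 2 (by norm_num)
    have hc2 := cf_le l 2
    rw [hl] at hc2
    constructor
    · have hs : (a : ℝ) + n + ((1 :: l).sum : ℕ) ≤ (K + 5) * Q := by
        have hs1 := sum_le' hu
        rw [hl] at hs1
        have hs2 : K * H ≤ K * Q := Nat.mul_le_mul_left _ hHQ
        have hs3 : a + n + (1 :: l).sum ≤ (K + 5) * Q := by
          rw [List.sum_cons]
          nlinarith
        exact_mod_cast hs3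
      calc θ = y * (l.prod / ((K + 5) * Q) ^ (K + 2)) := by
            rw [hθ, mul_pow]; ring
        _ ≤ y * (cf l 2 / ((a : ℝ) + n + ((1 :: l).sum : ℕ)) ^ (K + 2)) := by
            gcongr
        _ ≤ y * E (1 :: l) 1 (a + n) := by
            gcongr
            exact hb.1
    · calc y * E (1 :: l) 1 (a + n) ≤ y * (cf l 2 / ((a : ℝ) + n) ^ (K + 2)) := by
            gcongr
            exact hb.2
        _ ≤ y * ((l.prod * (K + 2) ^ K) / (Q : ℝ) ^ (K + 2)) := by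
            have e : (((2 : ℕ) : ℝ) + K) = K + 2 := by push_cast; ring
            rw [e] at hc2
            gcongr
        _ ≤ y * ((H ^ K * (K + 2) ^ K) / (Q : ℝ) ^ (K + 2)) := by
            have h3 := wt_eq hu
            rw [hl] at h3
            have h4 := one_le_wt hu
            have h5 : (l.prod : ℝ) ≤ H ^ K := by
              rw [← h3]
              nlinarith
            gcongr
        _ = (y * (K + 2) ^ K * H ^ K) / (Q : ℝ) ^ (K + 2) := by ring
        _ ≤ (Q ^ (K + 2) / 2) / (Q : ℝ) ^ (K + 2) := by gcongr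
        _ = 1 / 2 := by field_simp
  have hmain := kusmin_landau (f := fun n : ℕ => y * E l 1 (a + n)) (a := 1) (b := N + 1) (θ := θ)
    (m := -1) hθ0 (by
      intro n hn hnN
      have e1 := hdiff n
      have e2 := hdiff (n + 1)
      have e3 : ((n + 1 + 1 : ℕ) : ℝ) = ((n + 2 : ℕ) : ℝ) := rfl
      rw [e3] at e2
      rw [e1, e2]
      have h6 := E_nonneg (1 :: 1 :: l) 1 ((a : ℝ) + n) (by positivity)
      have h7 : E (1 :: 1 :: l) 1 ((a : ℝ) + n) =
          E (1 :: l) 1 ((a : ℝ) + n) - E (1 :: l) 1 ((a : ℝ) + ((n + 1 : ℕ) : ℝ)) := by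
        conv_lhs => rw [E]
        push_cast
        rw [← add_assoc]
      rw [h7] at h6
      nlinarith)
    (by
      intro n hn hnN
      rw [hdiff n]
      have := hbound n hn (by omega)
      push_cast
      linarith)
    (by
      intro n hn hnN
      rw [hdiff n]
      have := hbound n hn (by omega)
      push_cast
      linarith)
  have hIco : Ico 1 (N + 1) = Icc 1 N := by
    ext x
    simp only [mem_Ico, mem_Icc]
    omega
  rw [hIco] at hmain
  refine hmain.trans (le_of_eq ?_)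
  rw [hθ, one_div_div]

lemma sum_inv_sqrt (H : ℕ) : ∑ u ∈ Ico 1 H, √((H : ℝ) / u) ≤ 2 * H := by
  have h1 : ∀ M : ℕ, ∑ u ∈ Ico 1 (M + 1), 1 / √(u : ℝ) ≤ 2 * √(M : ℝ) := by
    intro M
    induction M with
    | zero => simp
    | succ M ih =>
      rw [Finset.sum_Ico_succ_top (by omega)]
      refine (add_le_add_left ih _).trans ?_
      push_cast
      have h2 : 0 < √((M : ℝ) + 1) := Real.sqrt_pos.mpr (by positivity)
      have h3 : √(M : ℝ) ^ 2 = M := Real.sq_sqrt (by positivity)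
      have h4 : √((M : ℝ) + 1) ^ 2 = M + 1 := Real.sq_sqrt (by positivity)
      have h5 : 0 ≤ √(M : ℝ) := Real.sqrt_nonneg _
      have h6 : √(M : ℝ) ≤ √((M : ℝ) + 1) := Real.sqrt_le_sqrt (by linarith)
      rw [← sub_nonneg]
      have : 2 * √((M : ℝ) + 1) - (2 * √(M : ℝ) + 1 / √((M : ℝ) + 1)) =
          (2 * √((M : ℝ) + 1) ^ 2 - 2 * √(M : ℝ) * √((M : ℝ) + 1) - 1) / √((M : ℝ) + 1) := by
        field_simp
        ring
      rw [this]
      apply div_nonneg _ h2.le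
      nlinarith [sq_nonneg (√((M : ℝ) + 1) - √(M : ℝ))]
  rcases Nat.eq_zero_or_pos H with rfl | hH
  · simp
  · obtain ⟨M, rfl⟩ : ∃ M, H = M + 1 := ⟨H - 1, by omega⟩
    have h2 : ∑ u ∈ Ico 1 (M + 1), √(((M + 1 : ℕ) : ℝ) / u) =
        √((M + 1 : ℕ) : ℝ) * ∑ u ∈ Ico 1 (M + 1), 1 / √(u : ℝ) := by
      rw [Finset.mul_sum]
      apply Finset.sum_congr rfl
      intro u _
      rw [Real.sqrt_div (by positivity)]
      ring
    rw [h2]
    calc √((M + 1 : ℕ) : ℝ) * ∑ u ∈ Ico 1 (M + 1), 1 / √(u : ℝ)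
        ≤ √((M + 1 : ℕ) : ℝ) * (2 * √((M + 1 : ℕ) : ℝ)) := by
          gcongr
          refine (h1 M).trans ?_
          gcongr
          simp
      _ = 2 * (√((M + 1 : ℕ) : ℝ) ^ 2) := by ring
      _ = 2 * ((M + 1 : ℕ) : ℝ) := by rw [Real.sq_sqrt (by positivity)]

/-- One step of the induction. -/
theorem step_case {Q H : ℕ} {y g : ℝ} (hH : 1 ≤ H) (hHQ : H ≤ Q) (hg : 1 ≤ H * g)
    {k : ℕ} (ih : ∀ l : List ℕ, l.length = k + 1 → (∀ u ∈ l, 1 ≤ u ∧ u < H) → ∀ N a : ℕ,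
      Q ≤ a → a + N ≤ 4 * Q →
      ‖∑ n ∈ Icc 1 N, ee (y * E l 1 (a + n))‖ ≤ 17 * Q * g * √(wt H l))
    (l : List ℕ) (hl : l.length = k) (hu : ∀ u ∈ l, 1 ≤ u ∧ u < H) (N a : ℕ)
    (ha : Q ≤ a) (haN : a + N ≤ 4 * Q) :
    ‖∑ n ∈ Icc 1 N, ee (y * E l 1 (a + n))‖ ≤ 17 * Q * √g * √(wt H l) := by
  have hH0 : (0 : ℝ) < H := by exact_mod_cast hH
  have hQ0 : (0 : ℝ) < Q := by
    have : 1 ≤ Q := hH.trans hHQ
    exact_mod_cast this
  have hg0 : 0 < g := by
    by_contra h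
    push Not at h
    have : (H : ℝ) * g ≤ 0 := mul_nonpos_of_nonneg_of_nonpos hH0.le h
    linarith
  set w := wt H l with hw
  have hw1 : 1 ≤ w := one_le_wt hu
  have h1 := VdC.vdc_nat (fun _ => 1) (fun _ => by simp) (fun n : ℕ => y * E l 1 (a + n)) N H hH
  have h2 : ∀ u ∈ Ico 1 H, ‖∑ n ∈ Icc 1 N, (if n + u ≤ N then (1 : ℂ) * (starRingEnd ℂ) 1 else 0) *
      ee (y * E l 1 (a + ((n + u : ℕ) : ℝ)) - y * E l 1 (a + n))‖ ≤
        17 * Q * g * √w * √((H : ℝ) / u) := by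
    intro u hu'
    rw [Finset.mem_Ico] at hu'
    have e1 : ∑ n ∈ Icc 1 N, (if n + u ≤ N then (1 : ℂ) * (starRingEnd ℂ) 1 else 0) *
        ee (y * E l 1 (a + ((n + u : ℕ) : ℝ)) - y * E l 1 (a + n)) =
        (starRingEnd ℂ) (∑ n ∈ Icc 1 (N - u), ee (y * E (u :: l) 1 (a + n))) := by
      rw [map_sum]
      have e2 : Icc 1 (N - u) = (Icc 1 N).filter (fun n => n + u ≤ N) := by
        ext x
        simp only [Finset.mem_filter, mem_Icc]
        omega
      rw [e2, Finset.sum_filter]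
      apply Finset.sum_congr rfl
      intro n _
      split_ifs
      · rw [conj_ee, map_one, one_mul, one_mul]
        congr 1
        simp only [E]
        push_cast
        rw [← add_assoc]
        ring
      · rw [zero_mul]
    rw [e1, RCLike.norm_conj]
    refine (ih (u :: l) (by simp [hl]) ?_ (N - u) a ha (by omega)).trans ?_
    · intro v hv
      rcases List.mem_cons.mp hv with rfl | hv
      · exact hu'
      · exact hu v hv
    · rw [wt_cons, ← hw, Real.sqrt_mul (by positivity)]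
      apply le_of_eq
      ring
  have h3 : ∑ u ∈ Ico 1 H, ‖∑ n ∈ Icc 1 N, (if n + u ≤ N then (1 : ℂ) * (starRingEnd ℂ) 1 else 0) *
      ee (y * E l 1 (a + ((n + u : ℕ) : ℝ)) - y * E l 1 (a + n))‖ ≤
        34 * Q * g * √w * H := by
    refine (Finset.sum_le_sum h2).trans ?_
    rw [← Finset.mul_sum]
    have := sum_inv_sqrt H
    calc 17 * Q * g * √w * ∑ u ∈ Ico 1 H, √((H : ℝ) / u) ≤ 17 * Q * g * √w * (2 * H) := by
          gcongr
      _ = 34 * Q * g * √w * H := by ring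
  set S := ‖∑ n ∈ Icc 1 N, ee (y * E l 1 (a + n))‖ with hS
  have h4 : ‖∑ n ∈ Icc 1 N, (1 : ℂ) * ee (y * E l 1 (a + n))‖ = S := by
    simp only [one_mul, hS]
  have hN : (N : ℝ) ≤ 3 * Q := by
    have : N ≤ 3 * Q := by omega
    exact_mod_cast this
  have hHQ' : (H : ℝ) ≤ Q := by exact_mod_cast hHQ
  have hsw : 1 ≤ √w := by
    rw [Real.one_le_sqrt]
    exact hw1
  have h5 : (H : ℝ) * S ^ 2 ≤ (4 * Q) * (3 * Q + 2 * (34 * Q * g * √w * H)) := by
    have h6 : (0 : ℝ) ≤ ∑ u ∈ Ico 1 H, ‖∑ n ∈ Icc 1 N,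
        (if n + u ≤ N then (1 : ℂ) * (starRingEnd ℂ) 1 else 0) *
      ee (y * E l 1 (a + ((n + u : ℕ) : ℝ)) - y * E l 1 (a + n))‖ :=
      Finset.sum_nonneg (fun _ _ => norm_nonneg _)
    have h7 : (N : ℝ) + H ≤ 4 * Q := by linarith
    obtain ⟨R, hR⟩ : ∃ R : ℝ, R = ∑ u ∈ Ico 1 H, ‖∑ n ∈ Icc 1 N,
        (if n + u ≤ N then (1 : ℂ) * (starRingEnd ℂ) 1 else 0) *
      ee (y * E l 1 (a + ((n + u : ℕ) : ℝ)) - y * E l 1 (a + n))‖ := ⟨_, rfl⟩
    rw [← hR] at h6 h3
    have h1' : (H : ℝ) * S ^ 2 ≤ (N + H) * (N + 2 * R) := by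
      rw [hR, ← h4]
      exact h1
    refine h1'.trans (mul_le_mul h7 (by linarith) (by positivity) (by positivity))
  have h8 : S ^ 2 ≤ (17 * Q * √g * √w) ^ 2 := by
    have h9 : (17 * Q * √g * √w) ^ 2 = 289 * Q ^ 2 * g * w := by
      rw [mul_pow, mul_pow, mul_pow, Real.sq_sqrt hg0.le, Real.sq_sqrt (by linarith)]
      norm_num
    rw [h9]
    have h10 : √w ≤ w := by
      have : √w ^ 2 = w := Real.sq_sqrt (by linarith)
      nlinarith
    have h11 : (H : ℝ) * S ^ 2 ≤ H * (289 * Q ^ 2 * g * w) := by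
      refine h5.trans ?_
      have h12 : (1 : ℝ) ≤ H * g * w := by
        calc (1 : ℝ) ≤ H * g := hg
          _ = H * g * 1 := by ring
          _ ≤ H * g * w := by gcongr
      calc 4 * Q * (3 * Q + 2 * (34 * Q * g * √w * H))
          = 12 * Q ^ 2 * 1 + 272 * Q ^ 2 * (H * g) * √w := by ring
        _ ≤ 12 * Q ^ 2 * (H * g * w) + 272 * Q ^ 2 * (H * g) * w := by gcongr
        _ = 284 * Q ^ 2 * (H * g * w) := by ring
        _ ≤ 289 * Q ^ 2 * (H * g * w) := by gcongr; norm_num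
        _ = H * (289 * Q ^ 2 * g * w) := by ring
    exact le_of_mul_le_mul_left h11 hH0
  exact (pow_le_pow_iff_left₀ (norm_nonneg _) (by positivity) (by norm_num)).mp h8

/-- The exponential sum with phase `y / q`. -/
theorem weyl {K Q H : ℕ} {y G : ℝ} (hH : 1 ≤ H) (hHQ : H ≤ Q) (hy : 0 < y)
    (h1 : y * (K + 2) ^ K * H ^ K ≤ Q ^ (K + 2) / 2)
    (h2 : ((K : ℝ) + 5) ^ (K + 2) * Q ^ (K + 1) / (y * H ^ K) ≤ G ^ 2) (hG0 : 0 < G)
    (hG1 : G ≤ 1) (hG2 : 1 ≤ H * G) :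
    ‖∑ n ∈ Icc 1 (3 * Q), ee (y / (Q + n))‖ ≤ 17 * Q * G ^ ((1 / 2 : ℝ) ^ K) := by
  have hH0 : (0 : ℝ) < H := by exact_mod_cast hH
  have hQ1 : 1 ≤ Q := hH.trans hHQ
  have hQ0 : (0 : ℝ) < Q := by exact_mod_cast hQ1
  have key : ∀ j : ℕ, ∀ k : ℕ, k + j = K → ∀ l : List ℕ, l.length = k →
      (∀ u ∈ l, 1 ≤ u ∧ u < H) → ∀ N a : ℕ, Q ≤ a → a + N ≤ 4 * Q →
      ‖∑ n ∈ Icc 1 N, ee (y * E l 1 (a + n))‖ ≤
        17 * Q * G ^ ((1 / 2 : ℝ) ^ j) * √(wt H l) := by
    intro j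
    induction j with
    | zero =>
      intro k hk l hl hu N a ha haN
      have hk' : k = K := by omega
      subst hk'
      have hb := base_case hHQ hy h1 hl hu ha haN hQ1
      have hw := wt_eq hu
      rw [hl] at hw
      have hw1 := one_le_wt hu
      have hp : (0 : ℝ) < l.prod := by
        have := prod_pos' hu
        exact_mod_cast this
      have ht : ‖∑ n ∈ Icc 1 N, ee (y * E l 1 (a + n))‖ ≤ 3 * Q := by
        refine (norm_sum_le _ _).trans ?_
        simp only [norm_ee, Finset.sum_const, Nat.card_Icc, nsmul_eq_mul, mul_one]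
        have : N + 1 - 1 ≤ 3 * Q := by omega
        exact_mod_cast this
      have hb2 : ‖∑ n ∈ Icc 1 N, ee (y * E l 1 (a + n))‖ ≤ Q * G ^ 2 * wt H l := by
        refine hb.trans ?_
        calc ((k : ℝ) + 5) ^ (k + 2) * Q ^ (k + 2) / (y * l.prod)
            = Q * (((k : ℝ) + 5) ^ (k + 2) * Q ^ (k + 1) / (y * H ^ k)) * wt H l := by
              rw [← hw]
              have : wt H l ≠ 0 := by positivity
              field_simp
              ring
          _ ≤ Q * G ^ 2 * wt H l := by gcongr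
      have h3 : ‖∑ n ∈ Icc 1 N, ee (y * E l 1 (a + n))‖ ^ 2 ≤
          (17 * Q * G * √(wt H l)) ^ 2 := by
        calc ‖∑ n ∈ Icc 1 N, ee (y * E l 1 (a + n))‖ ^ 2
            = ‖∑ n ∈ Icc 1 N, ee (y * E l 1 (a + n))‖ *
              ‖∑ n ∈ Icc 1 N, ee (y * E l 1 (a + n))‖ := by ring
          _ ≤ (3 * Q) * (Q * G ^ 2 * wt H l) := by gcongr
          _ = 3 * (Q ^ 2 * G ^ 2 * wt H l) := by ring
          _ ≤ 289 * (Q ^ 2 * G ^ 2 * wt H l) := by gcongr; norm_num
          _ = (17 * Q * G) ^ 2 * √(wt H l) ^ 2 := by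
              rw [Real.sq_sqrt (by positivity)]; ring
          _ = (17 * Q * G * √(wt H l)) ^ 2 := by ring
      have h4 := (pow_le_pow_iff_left₀ (norm_nonneg _) (by positivity) (by norm_num)).mp h3
      simpa using h4
    | succ j ih =>
      intro k hk l hl hu N a ha haN
      have hgj : G ≤ G ^ ((1 / 2 : ℝ) ^ j) := by
        calc G = G ^ (1 : ℝ) := (Real.rpow_one G).symm
          _ ≤ G ^ ((1 / 2 : ℝ) ^ j) :=
            Real.rpow_le_rpow_of_exponent_ge hG0 hG1 (pow_le_one₀ (by norm_num) (by norm_num))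
      have h3 := step_case (g := G ^ ((1 / 2 : ℝ) ^ j)) hH hHQ
        (hG2.trans (by gcongr)) (k := k) (fun l' hl' hu' N' a' ha' haN' =>
          ih (k + 1) (by omega) l' hl' hu' N' a' ha' haN') l hl hu N a ha haN
      refine h3.trans (le_of_eq ?_)
      rw [Real.sqrt_eq_rpow, ← Real.rpow_mul hG0.le, pow_succ]
  have h3 := key K 0 (by omega) [] rfl (by simp) (3 * Q) Q le_rfl (by omega)
  have e1 : √(wt H []) = 1 := by simp [wt]
  rw [e1, mul_one] at h3
  refine le_trans (le_of_eq ?_) h3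
  congr 1
  apply Finset.sum_congr rfl
  intro n _
  congr 1
  simp only [E, pow_one]
  rfl

end EG
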