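import Mathlib
import Pool.Agent.Helper79.EG.Sum

/-!
# Exponential sums with phase `y / q`: the final bound
-/

set_option autoImplicit false

namespace EG

open Finset
open Pool.Agent.Helper22.GC (ee)

lemma exists_large {e : ℝ} (he : 0 < e) (c : ℝ) : ∃ Q₀ : ℕ, ∀ Q : ℕ, Q₀ ≤ Q → c ≤ (Q : ℝ) ^ e := by
  have h1 := (tendsto_rpow_atTop he).comp tendsto_natCast_atTop_atTop
  have h2 := h1.eventually_ge_atTop c
  obtain ⟨Q₀, h⟩ := Filter.eventually_atTop.mp h2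
  exact ⟨Q₀, fun Q hQ => h Q hQ⟩

theorem T_bound (K : ℕ) (hK : 1 ≤ K) : ∃ Q₀ : ℕ, 1 ≤ Q₀ ∧ ∀ Q : ℕ, Q₀ ≤ Q → ∀ y : ℝ,
    (Q : ℝ) ^ (7 / 4 : ℝ) ≤ y → y ≤ (Q : ℝ) ^ ((K : ℝ) / 2 + 7 / 4) →
    ‖∑ n ∈ Icc 1 (3 * Q), ee (y / (Q + n))‖ ≤ (Q : ℝ) ^ (1 - 1 / 4 * (1 / 2 : ℝ) ^ K) := by
  have hKK : (0 : ℝ) < (1 / 2 : ℝ) ^ K := by positivity
  obtain ⟨Q1, hQ1⟩ := exists_large (e := 1 / 4) (by norm_num) (2 * ((K : ℝ) + 2) ^ K)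
  obtain ⟨Q2, hQ2⟩ := exists_large (e := 1 / 12) (by norm_num) (((K : ℝ) + 5) ^ (K + 2) * 2 ^ K)
  obtain ⟨Q3, hQ3⟩ := exists_large (e := 1 / 6) (by norm_num) 2
  obtain ⟨Q4, hQ4⟩ := exists_large (e := 1 / 12 * (1 / 2 : ℝ) ^ K) (by positivity) 17
  refine ⟨max (max Q1 Q2) (max (max Q3 Q4) 1), by simp, ?_⟩
  intro Q hQ y hy1 hy2
  have g1 := hQ1 Q (by omega)
  have g2 := hQ2 Q (by omega)
  have g3 := hQ3 Q (by omega)
  have g4 := hQ4 Q (by omega)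
  have hQ1' : 1 ≤ Q := by omega
  have hQr : (1 : ℝ) ≤ Q := by exact_mod_cast hQ1'
  have hQ0 : (0 : ℝ) < Q := by linarith
  have hy : 0 < y := lt_of_lt_of_le (by positivity) hy1
  have hK0 : (0 : ℝ) < K := by exact_mod_cast hK
  set r : ℝ := ((Q : ℝ) ^ (7 / 4 : ℝ) / y) ^ (1 / (K : ℝ)) with hr
  have hr0 : 0 < r := by rw [hr]; positivity
  have hrK : r ^ K = (Q : ℝ) ^ (7 / 4 : ℝ) / y := by
    rw [hr, ← Real.rpow_natCast, ← Real.rpow_mul (by positivity), one_div,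
      inv_mul_cancel₀ hK0.ne', Real.rpow_one]
  have hr1 : r ≤ 1 := by
    rw [hr]
    apply Real.rpow_le_one (by positivity) _ (by positivity)
    rw [div_le_one hy]
    exact hy1
  have hr2 : (Q : ℝ) ^ (-(1 / 2) : ℝ) ≤ r := by
    have e1 : (Q : ℝ) ^ (-(1 / 2) : ℝ) = ((Q : ℝ) ^ (-((K : ℝ) / 2))) ^ (1 / (K : ℝ)) := by
      rw [← Real.rpow_mul hQ0.le]
      congr 1
      field_simp
    rw [e1, hr]
    apply Real.rpow_le_rpow (by positivity) _ (by positivity)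
    rw [le_div_iff₀ hy]
    calc (Q : ℝ) ^ (-((K : ℝ) / 2)) * y ≤ (Q : ℝ) ^ (-((K : ℝ) / 2)) * (Q : ℝ) ^ ((K : ℝ) / 2 + 7 / 4) := by
          gcongr
      _ = (Q : ℝ) ^ (7 / 4 : ℝ) := by
          rw [← Real.rpow_add hQ0]
          congr 1
          ring
  set Z : ℝ := Q * r with hZ
  have hZ0 : 0 < Z := by positivity
  have hZQ : Z ≤ Q := by rw [hZ]; nlinarith
  have hZ1 : (Q : ℝ) ^ (1 / 2 : ℝ) ≤ Z := by
    calc (Q : ℝ) ^ (1 / 2 : ℝ) = Q * (Q : ℝ) ^ (-(1 / 2) : ℝ) := by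
          rw [← Real.rpow_one_add' hQ0.le (by norm_num)]
          norm_num
      _ ≤ Q * r := by gcongr
  have hZone : 1 ≤ Z := le_trans (Real.one_le_rpow hQr (by norm_num)) hZ1
  set H : ℕ := ⌊Z⌋₊ with hH
  have hH1 : 1 ≤ H := by
    rw [hH]
    exact (Nat.one_le_floor_iff Z).mpr hZone
  have hHZ : (H : ℝ) ≤ Z := Nat.floor_le hZ0.le
  have hHZ2 : Z / 2 ≤ H := by
    have h1 := Nat.lt_floor_add_one Z
    rw [← hH] at h1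
    have h2 : (1 : ℝ) ≤ H := by exact_mod_cast hH1
    linarith
  have hHQ : H ≤ Q := by
    have : (H : ℝ) ≤ Q := hHZ.trans hZQ
    exact_mod_cast this
  have hZK : y * Z ^ K = (Q : ℝ) ^ ((K : ℝ) + 7 / 4) := by
    rw [hZ, mul_pow, hrK, Real.rpow_add hQ0, Real.rpow_natCast]
    field_simp
  have hsplit : (Q : ℝ) ^ ((K : ℝ) + 7 / 4) * (Q : ℝ) ^ (1 / 4 : ℝ) = (Q : ℝ) ^ (K + 2) := by
    rw [← Real.rpow_add hQ0, ← Real.rpow_natCast]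
    congr 1
    push_cast
    ring
  set G : ℝ := (Q : ℝ) ^ (-(1 / 3) : ℝ) with hG
  have hG0 : 0 < G := by positivity
  have hG1 : G ≤ 1 := by
    rw [hG]
    exact Real.rpow_le_one_of_one_le_of_nonpos hQr (by norm_num)
  have c1 : y * (K + 2) ^ K * H ^ K ≤ (Q : ℝ) ^ (K + 2) / 2 := by
    calc y * (K + 2) ^ K * H ^ K ≤ y * (K + 2) ^ K * Z ^ K := by gcongr
      _ = (y * Z ^ K) * (K + 2) ^ K := by ring
      _ = (Q : ℝ) ^ ((K : ℝ) + 7 / 4) * (2 * (K + 2) ^ K) / 2 := by rw [hZK]; ring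
      _ ≤ (Q : ℝ) ^ ((K : ℝ) + 7 / 4) * (Q : ℝ) ^ (1 / 4 : ℝ) / 2 := by gcongr
      _ = (Q : ℝ) ^ (K + 2) / 2 := by rw [hsplit]
  have c2 : ((K : ℝ) + 5) ^ (K + 2) * Q ^ (K + 1) / (y * H ^ K) ≤ G ^ 2 := by
    have h1 : (Q : ℝ) ^ ((K : ℝ) + 7 / 4) / 2 ^ K ≤ y * H ^ K := by
      calc (Q : ℝ) ^ ((K : ℝ) + 7 / 4) / 2 ^ K = y * (Z / 2) ^ K := by
            rw [← hZK, div_pow]; ring
        _ ≤ y * H ^ K := by gcongr
    rw [div_le_iff₀ (by positivity)]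
    calc ((K : ℝ) + 5) ^ (K + 2) * Q ^ (K + 1)
        = (((K : ℝ) + 5) ^ (K + 2) * 2 ^ K) * Q ^ (K + 1) / 2 ^ K := by field_simp
      _ ≤ (Q : ℝ) ^ (1 / 12 : ℝ) * Q ^ (K + 1) / 2 ^ K := by gcongr
      _ = G ^ 2 * ((Q : ℝ) ^ ((K : ℝ) + 7 / 4) / 2 ^ K) := by
          have : (Q : ℝ) ^ (1 / 12 : ℝ) * Q ^ (K + 1) = G ^ 2 * (Q : ℝ) ^ ((K : ℝ) + 7 / 4) := by
            rw [hG, ← Real.rpow_natCast ((Q : ℝ) ^ (-(1 / 3) : ℝ)) 2, ← Real.rpow_natCast (Q : ℝ) (K + 1),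
              ← Real.rpow_mul hQ0.le, ← Real.rpow_add hQ0, ← Real.rpow_add hQ0]
            congr 1
            push_cast
            ring
          rw [this]
          ring
      _ ≤ G ^ 2 * (y * H ^ K) := by gcongr
  have c3 : 1 ≤ (H : ℝ) * G := by
    calc (1 : ℝ) ≤ (Q : ℝ) ^ (1 / 6 : ℝ) / 2 := by linarith
      _ = ((Q : ℝ) ^ (1 / 2 : ℝ) / 2) * G := by
          have : (Q : ℝ) ^ (1 / 6 : ℝ) = (Q : ℝ) ^ (1 / 2 : ℝ) * G := by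
            rw [hG, ← Real.rpow_add hQ0]
            norm_num
          rw [this]
          ring
      _ ≤ (Z / 2) * G := by gcongr
      _ ≤ H * G := by gcongr
  refine (weyl hH1 hHQ hy c1 c2 hG0 hG1 c3).trans ?_
  calc 17 * (Q : ℝ) * G ^ ((1 / 2 : ℝ) ^ K)
      ≤ (Q : ℝ) ^ (1 / 12 * (1 / 2 : ℝ) ^ K) * Q * G ^ ((1 / 2 : ℝ) ^ K) := by gcongr
    _ = (Q : ℝ) ^ (1 - 1 / 4 * (1 / 2 : ℝ) ^ K) := by
        rw [hG, ← Real.rpow_mul hQ0.le]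
        nth_rewrite 2 [← Real.rpow_one (Q : ℝ)]
        rw [← Real.rpow_add hQ0, ← Real.rpow_add hQ0]
        congr 1
        ring

end EG
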