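import Mathlib
import Pool.Agent.Helper79.EG.Weyl

/-!
# Bilinear exponential sums with phase `z / (p q)`
-/

set_option autoImplicit false

namespace EG

open Finset
open Pool.Agent.Helper22.GC (ee ee_add norm_ee conj_ee)

lemma norm_sum_neg (s : Finset ℕ) (f : ℕ → ℝ) :
    ‖∑ n ∈ s, ee (-(f n))‖ = ‖∑ n ∈ s, ee (f n)‖ := by
  have : ∑ n ∈ s, ee (-(f n)) = (starRingEnd ℂ) (∑ n ∈ s, ee (f n)) := by
    rw [map_sum]
    exact Finset.sum_congr rfl (fun n _ => (conj_ee _).symm)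
  rw [this, RCLike.norm_conj]

lemma norm_sum_abs (Q : ℕ) (y : ℝ) :
    ‖∑ n ∈ Icc 1 (3 * Q), ee (y / (Q + n))‖ = ‖∑ n ∈ Icc 1 (3 * Q), ee (|y| / (Q + n))‖ := by
  rcases le_total 0 y with h | h
  · rw [abs_of_nonneg h]
  · rw [abs_of_nonpos h]
    have := norm_sum_neg (Icc 1 (3 * Q)) (fun n => y / (Q + n))
    rw [← this]
    congr 1
    apply Finset.sum_congr rfl
    intro n _
    congr 1
    ring

lemma sum_Ioc_shift (Q : ℕ) (f : ℝ → ℂ) :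
    ∑ q ∈ Ioc Q (4 * Q), f q = ∑ n ∈ Icc 1 (3 * Q), f (Q + n) := by
  symm
  refine Finset.sum_bij (fun n _ => Q + n) ?_ ?_ ?_ ?_
  · intro n hn
    rw [mem_Icc] at hn
    rw [mem_Ioc]
    omega
  · intro a _ b _ h
    omega
  · intro q hq
    rw [mem_Ioc] at hq
    exact ⟨q - Q, by rw [mem_Icc]; omega, by omega⟩
  · intro n _
    push_cast
    rfl

/-- The number of pairs of elements at distance at most `D`. -/
lemma near_pairs (P : ℕ) (D : ℝ) (hD : 0 ≤ D) (A : Finset ℕ) (hA : A ⊆ Ioc P (4 * P)) :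
    (((A ×ˢ A).filter (fun u => |(u.1 : ℝ) - u.2| ≤ D)).card : ℝ) ≤ 3 * P * (2 * D + 1) := by
  have h1 : ((A ×ˢ A).filter (fun u => |(u.1 : ℝ) - u.2| ≤ D)) ⊆
      (Ioc P (4 * P)).biUnion (fun p => ((Icc (Int.ceil ((p : ℝ) - D)) (Int.floor ((p : ℝ) + D))).image
        (fun z : ℤ => (p, z.toNat)))) := by
    rintro ⟨p, p'⟩ h
    simp only [Finset.mem_filter, Finset.mem_product] at h
    rw [Finset.mem_biUnion]
    refine ⟨p, hA h.1.1, ?_⟩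
    rw [Finset.mem_image]
    refine ⟨(p' : ℤ), ?_, by simp⟩
    rw [Finset.mem_Icc, Int.ceil_le, Int.le_floor]
    have := abs_le.mp h.2
    push_cast
    constructor <;> linarith
  have h2 : ∀ p ∈ Ioc P (4 * P), ((((Icc (Int.ceil ((p : ℝ) - D)) (Int.floor ((p : ℝ) + D))).image
        (fun z : ℤ => (p, z.toNat)))).card : ℝ) ≤ 2 * D + 1 := by
    intro p _
    have h3 : (((Icc (Int.ceil ((p : ℝ) - D)) (Int.floor ((p : ℝ) + D))).image
        (fun z : ℤ => (p, z.toNat))).card : ℝ) ≤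
        ((Icc (Int.ceil ((p : ℝ) - D)) (Int.floor ((p : ℝ) + D))).card : ℝ) := by
      exact_mod_cast Finset.card_image_le
    refine h3.trans ?_
    rw [Int.card_Icc]
    have h4 := Int.le_ceil ((p : ℝ) - D)
    have h5 := Int.floor_le ((p : ℝ) + D)
    have h6 : (Int.ceil ((p : ℝ) - D)) ≤ (Int.floor ((p : ℝ) + D)) + 1 := by
      have e1 : Int.ceil ((p : ℝ) - D) ≤ p := by
        rw [Int.ceil_le]; push_cast; linarith
      have e2 : (p : ℤ) ≤ Int.floor ((p : ℝ) + D) := by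
        rw [Int.le_floor]; push_cast; linarith
      omega
    have h7 : (((Int.floor ((p : ℝ) + D) + 1 - Int.ceil ((p : ℝ) - D)).toNat : ℤ) : ℝ) ≤ 2 * D + 1 := by
      rw [Int.toNat_of_nonneg (by omega)]
      push_cast
      linarith
    exact_mod_cast h7
  calc (((A ×ˢ A).filter (fun u => |(u.1 : ℝ) - u.2| ≤ D)).card : ℝ)
      ≤ (((Ioc P (4 * P)).biUnion (fun p => ((Icc (Int.ceil ((p : ℝ) - D))
        (Int.floor ((p : ℝ) + D))).image (fun z : ℤ => (p, z.toNat))))).card : ℝ) := by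
        exact_mod_cast Finset.card_le_card h1
    _ ≤ ∑ p ∈ Ioc P (4 * P), (((Icc (Int.ceil ((p : ℝ) - D))
        (Int.floor ((p : ℝ) + D))).image (fun z : ℤ => (p, z.toNat))).card : ℝ) := by
        exact_mod_cast Finset.card_biUnion_le
    _ ≤ ∑ p ∈ Ioc P (4 * P), (2 * D + 1) := Finset.sum_le_sum h2
    _ = 3 * P * (2 * D + 1) := by
        rw [Finset.sum_const, Nat.card_Ioc, nsmul_eq_mul]
        have : ((4 * P - P : ℕ) : ℝ) = 3 * P := by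
          have : 4 * P - P = 3 * P := by omega
          rw [this]; push_cast; ring
        rw [this]

/-- The bilinear sum. -/
theorem bilinear (P Q : ℕ) (hP : 1 ≤ P) (hQ : 1 ≤ Q) (A B : Finset ℕ) (hA : A ⊆ Ioc P (4 * P))
    (hB : B ⊆ Ioc Q (4 * Q)) (z D M : ℝ) (hD : 0 ≤ D) (hM : 0 ≤ M)
    (h : ∀ p ∈ Ioc P (4 * P), ∀ p' ∈ Ioc P (4 * P), D < |(p : ℝ) - p'| →
      ‖∑ n ∈ Icc 1 (3 * Q), ee (|z / p - z / p'| / (Q + n))‖ ≤ M) :
    ‖∑ u ∈ A ×ˢ B, ee (z / ((u.1 : ℝ) * u.2))‖ ^ 2 ≤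
      27 * P * Q * (Q * (2 * D + 1) + P * M) := by
  have hP0 : (0 : ℝ) < P := by exact_mod_cast hP
  have hQ0 : (0 : ℝ) < Q := by exact_mod_cast hQ
  have hcardA : (A.card : ℝ) ≤ 3 * P := by
    have := Finset.card_le_card hA
    rw [Nat.card_Ioc] at this
    have h2 : A.card ≤ 3 * P := by omega
    exact_mod_cast h2
  have hcardB : (B.card : ℝ) ≤ 3 * Q := by
    have := Finset.card_le_card hB
    rw [Nat.card_Ioc] at this
    have h2 : B.card ≤ 3 * Q := by omega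
    exact_mod_cast h2
  have e1 : ∑ u ∈ A ×ˢ B, ee (z / ((u.1 : ℝ) * u.2)) =
      ∑ q ∈ B, ∑ p ∈ A, ee (z / ((p : ℝ) * q)) := by
    rw [Finset.sum_product_right]
  rw [e1]
  have h1 : ‖∑ q ∈ B, ∑ p ∈ A, ee (z / ((p : ℝ) * q))‖ ^ 2 ≤
      (3 * Q) * ∑ q ∈ Ioc Q (4 * Q), ‖∑ p ∈ A, ee (z / ((p : ℝ) * q))‖ ^ 2 := by
    calc ‖∑ q ∈ B, ∑ p ∈ A, ee (z / ((p : ℝ) * q))‖ ^ 2
        ≤ (∑ q ∈ B, ‖∑ p ∈ A, ee (z / ((p : ℝ) * q))‖) ^ 2 :=
          pow_le_pow_left₀ (norm_nonneg _) (norm_sum_le _ _) 2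
      _ ≤ B.card * ∑ q ∈ B, ‖∑ p ∈ A, ee (z / ((p : ℝ) * q))‖ ^ 2 := sq_sum_le_card_mul_sum_sq
      _ ≤ (3 * Q) * ∑ q ∈ Ioc Q (4 * Q), ‖∑ p ∈ A, ee (z / ((p : ℝ) * q))‖ ^ 2 := by
          apply mul_le_mul hcardB _ (Finset.sum_nonneg (fun _ _ => by positivity)) (by positivity)
          exact Finset.sum_le_sum_of_subset_of_nonneg hB (fun _ _ _ => by positivity)
  have h2 : ∑ q ∈ Ioc Q (4 * Q), ‖∑ p ∈ A, ee (z / ((p : ℝ) * q))‖ ^ 2 ≤
      ∑ u ∈ A ×ˢ A, ‖∑ q ∈ Ioc Q (4 * Q), ee ((z / (u.1 : ℝ) - z / u.2) / q)‖ := by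
    have h3 : ((∑ q ∈ Ioc Q (4 * Q), ‖∑ p ∈ A, ee (z / ((p : ℝ) * q))‖ ^ 2 : ℝ) : ℂ) =
        ∑ u ∈ A ×ˢ A, ∑ q ∈ Ioc Q (4 * Q), ee ((z / (u.1 : ℝ) - z / u.2) / q) := by
      push_cast
      rw [Finset.sum_comm]
      apply Finset.sum_congr rfl
      intro q _
      rw [← Complex.mul_conj', map_sum, Finset.sum_mul_sum, Finset.sum_product]
      apply Finset.sum_congr rfl
      intro p _
      apply Finset.sum_congr rfl
      intro p' _
      rw [← VdC.ee_sub]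
      congr 1
      rw [sub_div, div_div, div_div]
    have h4 : 0 ≤ ∑ q ∈ Ioc Q (4 * Q), ‖∑ p ∈ A, ee (z / ((p : ℝ) * q))‖ ^ 2 :=
      Finset.sum_nonneg (fun _ _ => by positivity)
    calc ∑ q ∈ Ioc Q (4 * Q), ‖∑ p ∈ A, ee (z / ((p : ℝ) * q))‖ ^ 2
        = ‖((∑ q ∈ Ioc Q (4 * Q), ‖∑ p ∈ A, ee (z / ((p : ℝ) * q))‖ ^ 2 : ℝ) : ℂ)‖ := by
          rw [Complex.norm_real, Real.norm_of_nonneg h4]
      _ ≤ _ := by
          rw [h3]
          exact norm_sum_le _ _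
  have h5 : ∀ u ∈ A ×ˢ A, ‖∑ q ∈ Ioc Q (4 * Q), ee ((z / (u.1 : ℝ) - z / u.2) / q)‖ ≤
      (if |(u.1 : ℝ) - u.2| ≤ D then 3 * (Q : ℝ) else 0) + M := by
    intro u hu
    rw [Finset.mem_product] at hu
    split_ifs with hc
    · have : ‖∑ q ∈ Ioc Q (4 * Q), ee ((z / (u.1 : ℝ) - z / u.2) / q)‖ ≤ 3 * Q := by
        refine (norm_sum_le _ _).trans ?_
        simp only [norm_ee, Finset.sum_const, Nat.card_Ioc, nsmul_eq_mul, mul_one]
        have : 4 * Q - Q ≤ 3 * Q := by omega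
        exact_mod_cast this
      linarith
    · rw [zero_add, sum_Ioc_shift Q (fun q => ee ((z / (u.1 : ℝ) - z / u.2) / q)),
        norm_sum_abs]
      exact h u.1 (hA hu.1) u.2 (hA hu.2) (not_le.mp hc)
  have h6 : ∑ u ∈ A ×ˢ A, ‖∑ q ∈ Ioc Q (4 * Q), ee ((z / (u.1 : ℝ) - z / u.2) / q)‖ ≤
      3 * P * (2 * D + 1) * (3 * Q) + (3 * P) ^ 2 * M := by
    refine (Finset.sum_le_sum h5).trans ?_
    rw [Finset.sum_add_distrib, ← Finset.sum_filter, Finset.sum_const, Finset.sum_const,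
      nsmul_eq_mul, nsmul_eq_mul, Finset.card_product]
    have h7 := near_pairs P D hD A hA
    have h8 : ((A.card * A.card : ℕ) : ℝ) ≤ (3 * P) ^ 2 := by
      push_cast
      rw [sq]
      exact mul_le_mul hcardA hcardA (by positivity) (by positivity)
    apply add_le_add
    · exact mul_le_mul_of_nonneg_right h7 (by positivity)
    · exact mul_le_mul_of_nonneg_right h8 hM
  calc ‖∑ q ∈ B, ∑ p ∈ A, ee (z / ((p : ℝ) * q))‖ ^ 2
      ≤ (3 * Q) * ∑ q ∈ Ioc Q (4 * Q), ‖∑ p ∈ A, ee (z / ((p : ℝ) * q))‖ ^ 2 := h1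
    _ ≤ (3 * Q) * (3 * P * (2 * D + 1) * (3 * Q) + (3 * P) ^ 2 * M) := by
        apply mul_le_mul_of_nonneg_left (h2.trans h6) (by positivity)
    _ = 27 * P * Q * (Q * (2 * D + 1) + P * M) := by ring

end EG
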