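import Mathlib
import Pool.Agent.Helper79.EG.Bil
import Pool.Agent.Helper61.EG.M

/-!
# Pairs of primes from two blocks whose product divides an element of the interval
-/

set_option autoImplicit false

namespace EG

open Finset
open Pool.Agent.Helper22.GC (ee)

lemma log_sq_le {η C : ℝ} (hη : 0 < η) : ∃ T : ℕ, 1 ≤ T ∧ ∀ t : ℕ, T ≤ t →
    C * (Real.log t) ^ 2 ≤ (t : ℝ) ^ η := by
  obtain ⟨T, hT⟩ := exists_large (e := η / 2) (by positivity) (|C| * (4 / η) ^ 2)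
  refine ⟨max T 1, by simp, fun t ht => ?_⟩
  have ht1 : 1 ≤ t := by omega
  have ht0 : (0 : ℝ) < t := by exact_mod_cast ht1
  have h1 := hT t (by omega)
  have h2 : Real.log t ≤ (t : ℝ) ^ (η / 4) / (η / 4) := Real.log_le_rpow_div ht0.le (by positivity)
  have h3 : 0 ≤ Real.log t := Real.log_nonneg (by exact_mod_cast ht1)
  calc C * (Real.log t) ^ 2 ≤ |C| * (Real.log t) ^ 2 := by
        gcongr
        exact le_abs_self C
    _ ≤ |C| * ((t : ℝ) ^ (η / 4) / (η / 4)) ^ 2 := by gcongr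
    _ = |C| * (4 / η) ^ 2 * (t : ℝ) ^ (η / 2) := by
        have : (t : ℝ) ^ (η / 2) = ((t : ℝ) ^ (η / 4)) ^ 2 := by
          rw [← Real.rpow_natCast, ← Real.rpow_mul ht0.le]
          congr 1
          push_cast
          ring
        rw [this]
        field_simp
    _ ≤ (t : ℝ) ^ (η / 2) * (t : ℝ) ^ (η / 2) := by gcongr
    _ = (t : ℝ) ^ η := by
        rw [← Real.rpow_add ht0]
        congr 1
        ring

/-- The bound for the frequencies. -/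
lemma freq_range {A : ℕ} (hA : 1 ≤ A) {δ : ℝ} (hδ0 : 0 < δ) (hδ : δ ≤ 1 / 1000) :
    ∃ T : ℕ, 1 ≤ T ∧ ∀ t : ℕ, T ≤ t → ∀ n : ℕ, t ^ 3 < n ^ 2 → n ≤ t ^ A →
      ∀ P Q p p' h : ℕ, (t : ℝ) ^ (1 / 2 : ℝ) ≤ P → (P : ℝ) ≤ (t : ℝ) ^ (1 / 2 + δ) →
      (t : ℝ) ^ (1 / 2 : ℝ) ≤ Q → (Q : ℝ) ≤ (t : ℝ) ^ (1 / 2 + δ) →
      p ∈ Ioc P (4 * P) → p' ∈ Ioc P (4 * P) → (P : ℝ) * (t : ℝ) ^ (-(1 / 32) : ℝ) < |(p : ℝ) - p'| →
      1 ≤ h → (h : ℝ) ≤ 10 * (t : ℝ) ^ (2 * δ) →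
      (Q : ℝ) ^ (7 / 4 : ℝ) ≤ |h * ((n : ℝ) + t / 2) / p - h * ((n : ℝ) + t / 2) / p'| ∧
      |h * ((n : ℝ) + t / 2) / p - h * ((n : ℝ) + t / 2) / p'| ≤
        (Q : ℝ) ^ (((4 * A + 4 : ℕ) : ℝ) / 2 + 7 / 4) := by
  obtain ⟨T1, hT1⟩ := exists_large (e := 1 / 16) (by norm_num) 16
  refine ⟨max T1 60, by omega, ?_⟩
  intro t ht n hn hnA P Q p p' h hP1 hP2 hQ1 hQ2 hp hp' hD hh1 hh2
  have g1 := hT1 t (by omega)
  have ht60 : 60 ≤ t := by omega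
  have ht60' : (60 : ℝ) ≤ t := by exact_mod_cast ht60
  have ht0 : (0 : ℝ) < t := by linarith
  have ht1 : (1 : ℝ) ≤ t := by linarith
  have hP0 : (0 : ℝ) < P := lt_of_lt_of_le (by positivity) hP1
  have hQ0 : (0 : ℝ) < Q := lt_of_lt_of_le (by positivity) hQ1
  have hQ1' : (1 : ℝ) ≤ Q := le_trans (Real.one_le_rpow ht1 (by norm_num)) hQ1
  rw [mem_Ioc] at hp hp'
  have hpP : (P : ℝ) < p := by exact_mod_cast hp.1
  have hpP4 : (p : ℝ) ≤ 4 * P := by exact_mod_cast hp.2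
  have hpP' : (P : ℝ) < p' := by exact_mod_cast hp'.1
  have hpP4' : (p' : ℝ) ≤ 4 * P := by exact_mod_cast hp'.2
  have hp0 : (0 : ℝ) < p := by linarith
  have hp0' : (0 : ℝ) < p' := by linarith
  have hh1' : (1 : ℝ) ≤ h := by exact_mod_cast hh1
  set x : ℝ := (n : ℝ) + t / 2 with hx
  have hnt : (t : ℝ) ^ (3 / 2 : ℝ) ≤ n := by
    have h1 : ((t : ℝ) ^ (3 / 2 : ℝ)) ^ 2 ≤ (n : ℝ) ^ 2 := by
      have e : ((t : ℝ) ^ (3 / 2 : ℝ)) ^ 2 = (t : ℝ) ^ 3 := by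
        rw [← Real.rpow_natCast, ← Real.rpow_mul ht0.le, ← Real.rpow_natCast]
        congr 1
        norm_num
      rw [e]
      exact_mod_cast hn.le
    exact (pow_le_pow_iff_left₀ (by positivity) (by positivity) (by norm_num)).mp h1
  have hxt : (t : ℝ) ^ (3 / 2 : ℝ) ≤ x := by rw [hx]; linarith
  have hx0 : 0 < x := lt_of_lt_of_le (by positivity) hxt
  have hxA : x ≤ 2 * (t : ℝ) ^ A := by
    have h1 : (n : ℝ) ≤ (t : ℝ) ^ A := by exact_mod_cast hnA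
    have h2 : (t : ℝ) ≤ (t : ℝ) ^ A := by
      calc (t : ℝ) = (t : ℝ) ^ 1 := (pow_one _).symm
        _ ≤ (t : ℝ) ^ A := pow_le_pow_right₀ ht1 hA
    rw [hx]
    linarith
  have hy : |h * x / p - h * x / p'| = h * x * |(p : ℝ) - p'| / (p * p') := by
    have e : h * x / p - h * x / p' = h * x * (p' - p) / (p * p') := by field_simp
    rw [e, abs_div, abs_mul, abs_of_pos (show 0 < h * x by positivity),
      abs_of_pos (show 0 < (p : ℝ) * p' by positivity), abs_sub_comm]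
  rw [hy]
  constructor
  · calc (Q : ℝ) ^ (7 / 4 : ℝ) ≤ ((t : ℝ) ^ (1 / 2 + δ)) ^ (7 / 4 : ℝ) := by gcongr
      _ = (t : ℝ) ^ (7 / 8 + 7 / 4 * δ) := by
          rw [← Real.rpow_mul ht0.le]
          congr 1
          ring
      _ ≤ (t : ℝ) ^ (1 - 1 / 32 - δ - 1 / 16 : ℝ) := by
          apply Real.rpow_le_rpow_of_exponent_le ht1
          linarith
      _ = (t : ℝ) ^ (3 / 2 : ℝ) * (t : ℝ) ^ (-(1 / 32) : ℝ) / ((t : ℝ) ^ (1 / 16 : ℝ) * (t : ℝ) ^ (1 / 2 + δ)) := by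
          rw [← Real.rpow_add ht0, ← Real.rpow_add ht0, ← Real.rpow_sub ht0]
          congr 1
          ring
      _ ≤ (t : ℝ) ^ (3 / 2 : ℝ) * (t : ℝ) ^ (-(1 / 32) : ℝ) / (16 * P) := by gcongr
      _ = 1 * (t : ℝ) ^ (3 / 2 : ℝ) * (P * (t : ℝ) ^ (-(1 / 32) : ℝ)) / ((4 * P) * (4 * P)) := by
          field_simp
          norm_num
      _ ≤ h * x * |(p : ℝ) - p'| / (p * p') := by gcongr
  · have hd3 : |(p : ℝ) - p'| ≤ 3 * P := by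
      rw [abs_le]
      constructor <;> linarith
    have h5 : (t : ℝ) ^ (2 * δ) ≤ (t : ℝ) ^ (1 / 4 : ℝ) :=
      Real.rpow_le_rpow_of_exponent_le ht1 (by linarith)
    calc h * x * |(p : ℝ) - p'| / (p * p')
        ≤ (10 * (t : ℝ) ^ (2 * δ)) * (2 * (t : ℝ) ^ A) * (3 * P) / (P * P) := by
          gcongr
      _ = 60 * (t : ℝ) ^ (2 * δ) * (t : ℝ) ^ A / P := by
          field_simp
          norm_num
      _ ≤ t * (t : ℝ) ^ (1 / 4 : ℝ) * (t : ℝ) ^ A / (t : ℝ) ^ (1 / 2 : ℝ) := by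
          gcongr
      _ ≤ (t : ℝ) ^ ((A : ℝ) + 1) := by
          rw [div_le_iff₀ (by positivity)]
          nth_rewrite 1 [← Real.rpow_one (t : ℝ)]
          rw [← Real.rpow_natCast (t : ℝ) A, ← Real.rpow_add ht0, ← Real.rpow_add ht0,
            ← Real.rpow_add ht0]
          apply Real.rpow_le_rpow_of_exponent_le ht1
          linarith
      _ = ((t : ℝ) ^ (1 / 2 : ℝ)) ^ (((4 * A + 4 : ℕ) : ℝ) / 2) := by
          rw [← Real.rpow_mul ht0.le]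
          congr 1
          push_cast
          ring
      _ ≤ (Q : ℝ) ^ (((4 * A + 4 : ℕ) : ℝ) / 2) := by gcongr
      _ ≤ (Q : ℝ) ^ (((4 * A + 4 : ℕ) : ℝ) / 2 + 7 / 4) :=
          Real.rpow_le_rpow_of_exponent_le hQ1' (by linarith)

/-- The exponential sums over a pair of blocks. -/
lemma sum_block {A : ℕ} (hA : 1 ≤ A) {η δ : ℝ} (hη : η = 1 / 4 * (1 / 2 : ℝ) ^ (4 * A + 4))
    (hδ : δ = η / 48) :
    ∃ T : ℕ, 1 ≤ T ∧ ∀ t : ℕ, T ≤ t → ∀ n : ℕ, t ^ 3 < n ^ 2 → n ≤ t ^ A →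
      ∀ P Q h : ℕ, (t : ℝ) ^ (1 / 2 : ℝ) ≤ P → (P : ℝ) ≤ (t : ℝ) ^ (1 / 2 + δ) →
      (t : ℝ) ^ (1 / 2 : ℝ) ≤ Q → (Q : ℝ) ≤ (t : ℝ) ^ (1 / 2 + δ) →
      1 ≤ h → (h : ℝ) ≤ 10 * (t : ℝ) ^ (2 * δ) → ∀ B C : Finset ℕ, B ⊆ Ioc P (4 * P) →
      C ⊆ Ioc Q (4 * Q) →
      ‖∑ u ∈ B ×ˢ C, ee (h * (((n : ℝ) + t / 2) / ((u.1 : ℝ) * u.2)))‖ ≤
        11 * P * Q * (t : ℝ) ^ (-(η / 4)) := by
  have hη0 : 0 < η := by rw [hη]; positivity
  have hη1 : η ≤ 1 / 64 := by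
    rw [hη]
    have : (1 / 2 : ℝ) ^ (4 * A + 4) ≤ (1 / 2 : ℝ) ^ 4 :=
      pow_le_pow_of_le_one (by norm_num) (by norm_num) (by omega)
    norm_num at this ⊢
    linarith
  have hδ0 : 0 < δ := by rw [hδ]; positivity
  have hδ1 : δ ≤ 1 / 1000 := by rw [hδ]; linarith
  obtain ⟨T1, _, hT1⟩ := freq_range hA hδ0 hδ1
  obtain ⟨Q₀, _, hQ₀⟩ := T_bound (4 * A + 4) (by omega)
  obtain ⟨T2, hT2⟩ := exists_large (e := 1 / 2) (by norm_num) (Q₀ : ℝ)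
  refine ⟨max (max T1 T2) 1, by omega, ?_⟩
  intro t ht n hn hnA P Q h hP1 hP2 hQ1 hQ2 hh1 hh2 B C hB hC
  have ht1' : 1 ≤ t := by omega
  have ht1 : (1 : ℝ) ≤ t := by exact_mod_cast ht1'
  have ht0 : (0 : ℝ) < t := by linarith
  have hone : (1 : ℝ) ≤ (t : ℝ) ^ (1 / 2 : ℝ) := Real.one_le_rpow ht1 (by norm_num)
  have hP1' : 1 ≤ P := by
    have : (1 : ℝ) ≤ P := hone.trans hP1
    exact_mod_cast this
  have hQ1' : 1 ≤ Q := by
    have : (1 : ℝ) ≤ Q := hone.trans hQ1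
    exact_mod_cast this
  have hP0 : (0 : ℝ) < P := by exact_mod_cast hP1'
  have hQ0 : (0 : ℝ) < Q := by exact_mod_cast hQ1'
  have hQQ₀ : Q₀ ≤ Q := by
    have : (Q₀ : ℝ) ≤ Q := (hT2 t (by omega)).trans hQ1
    exact_mod_cast this
  have h1 := bilinear P Q hP1' hQ1' B C hB hC (h * ((n : ℝ) + t / 2))
    (P * (t : ℝ) ^ (-(1 / 32) : ℝ)) ((Q : ℝ) ^ (1 - η)) (by positivity) (by positivity) (by
      intro p hp p' hp' hD
      have hf := hT1 t (by omega) n hn hnA P Q p p' h hP1 hP2 hQ1 hQ2 hp hp' hD hh1 hh2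
      have := hQ₀ Q hQQ₀ _ hf.1 hf.2
      rw [← hη] at this
      exact this)
  have e1 : ∑ u ∈ B ×ˢ C, ee (h * (((n : ℝ) + t / 2) / ((u.1 : ℝ) * u.2))) =
      ∑ u ∈ B ×ˢ C, ee (h * ((n : ℝ) + t / 2) / ((u.1 : ℝ) * u.2)) := by
    apply Finset.sum_congr rfl
    intro u _
    rw [mul_div_assoc]
  rw [e1]
  refine (pow_le_pow_iff_left₀ (norm_nonneg _) (by positivity) (two_ne_zero)).mp ?_
  refine h1.trans ?_
  have h2 : 2 * (P * (t : ℝ) ^ (-(1 / 32) : ℝ)) + 1 ≤ 3 * P * (t : ℝ) ^ (-(η / 2)) := by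
    have h3 : (1 : ℝ) ≤ P * (t : ℝ) ^ (-(1 / 32) : ℝ) := by
      calc (1 : ℝ) ≤ (t : ℝ) ^ (1 / 2 - 1 / 32 : ℝ) := Real.one_le_rpow ht1 (by norm_num)
        _ = (t : ℝ) ^ (1 / 2 : ℝ) * (t : ℝ) ^ (-(1 / 32) : ℝ) := by
            rw [← Real.rpow_add ht0]
            congr 1
        _ ≤ P * (t : ℝ) ^ (-(1 / 32) : ℝ) := by gcongr
    have h4 : (t : ℝ) ^ (-(1 / 32) : ℝ) ≤ (t : ℝ) ^ (-(η / 2)) :=
      Real.rpow_le_rpow_of_exponent_le ht1 (by linarith)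
    calc 2 * (P * (t : ℝ) ^ (-(1 / 32) : ℝ)) + 1 ≤ 3 * P * (t : ℝ) ^ (-(1 / 32) : ℝ) := by linarith
      _ ≤ 3 * P * (t : ℝ) ^ (-(η / 2)) := by gcongr
  have h5 : (Q : ℝ) ^ (1 - η) ≤ Q * (t : ℝ) ^ (-(η / 2)) := by
    rw [sub_eq_add_neg, Real.rpow_add hQ0, Real.rpow_one]
    gcongr
    calc (Q : ℝ) ^ (-η) ≤ ((t : ℝ) ^ (1 / 2 : ℝ)) ^ (-η) :=
          Real.rpow_le_rpow_of_nonpos (by positivity) hQ1 (by linarith)
      _ = (t : ℝ) ^ (-(η / 2)) := by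
          rw [← Real.rpow_mul ht0.le]
          congr 1
          ring
  calc 27 * (P : ℝ) * Q * (Q * (2 * (P * (t : ℝ) ^ (-(1 / 32) : ℝ)) + 1) + P * (Q : ℝ) ^ (1 - η))
      ≤ 27 * (P : ℝ) * Q * (Q * (3 * P * (t : ℝ) ^ (-(η / 2))) + P * (Q * (t : ℝ) ^ (-(η / 2)))) := by
        gcongr
    _ = 108 * (P ^ 2 * Q ^ 2 * (t : ℝ) ^ (-(η / 2))) := by ring
    _ ≤ 121 * (P ^ 2 * Q ^ 2 * (t : ℝ) ^ (-(η / 2))) := by gcongr; norm_num
    _ = (11 * P * Q * (t : ℝ) ^ (-(η / 4))) ^ 2 := by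
        have : (t : ℝ) ^ (-(η / 2)) = ((t : ℝ) ^ (-(η / 4))) ^ 2 := by
          rw [← Real.rpow_natCast, ← Real.rpow_mul ht0.le]
          congr 1
          push_cast
          ring
        rw [this]
        ring

/-- The number of good pairs of two blocks. -/
theorem block_count {A : ℕ} (hA : 1 ≤ A) {η δ c : ℝ} (hη : η = 1 / 4 * (1 / 2 : ℝ) ^ (4 * A + 4))
    (hδ : δ = η / 48) (hc : 0 < c) :
    ∃ T : ℕ, 1 ≤ T ∧ ∀ t : ℕ, T ≤ t → ∀ n : ℕ, t ^ 3 < n ^ 2 → n ≤ t ^ A →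
      ∀ P Q : ℕ, (t : ℝ) ^ (1 / 2 : ℝ) ≤ P → 4 * (P : ℝ) ≤ (t : ℝ) ^ (1 / 2 + δ) →
      (t : ℝ) ^ (1 / 2 : ℝ) ≤ Q → 4 * (Q : ℝ) ≤ (t : ℝ) ^ (1 / 2 + δ) →
      ∀ B C : Finset ℕ, B ⊆ Ioc P (4 * P) → C ⊆ Ioc Q (4 * Q) →
      c * P / Real.log t ≤ B.card → c * Q / Real.log t ≤ C.card →
      c ^ 2 * t / (10240 * (Real.log t) ^ 2) ≤
        (((B ×ˢ C).filter (fun u => |((n : ℝ) + t / 2) / ((u.1 : ℝ) * u.2) -
          round (((n : ℝ) + t / 2) / ((u.1 : ℝ) * u.2))| ≤ t / (64 * P * Q))).card : ℝ) := by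
  have hη0 : 0 < η := by rw [hη]; positivity
  have hδ0 : 0 < δ := by rw [hδ]; positivity
  obtain ⟨T1, _, hT1⟩ := sum_block hA hη hδ
  obtain ⟨T2, _, hT2⟩ := log_sq_le (η := η / 8) (C := 11264 / c ^ 2) (by positivity)
  refine ⟨max (max T1 T2) 3, by omega, ?_⟩
  intro t ht n hn hnA P Q hP1 hP2 hQ1 hQ2 B C hB hC hBc hCc
  have ht3 : 3 ≤ t := by omega
  have ht1 : (1 : ℝ) < t := by
    have : (3 : ℝ) ≤ t := by exact_mod_cast ht3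
    linarith
  have ht0 : (0 : ℝ) < t := by linarith
  have hlog : 0 < Real.log t := Real.log_pos ht1
  have hone : (1 : ℝ) ≤ (t : ℝ) ^ (1 / 2 : ℝ) := Real.one_le_rpow ht1.le (by norm_num)
  have hP0 : (0 : ℝ) < P := by linarith
  have hQ0 : (0 : ℝ) < Q := by linarith
  have hPQ : (t : ℝ) ≤ P * Q := by
    calc (t : ℝ) = (t : ℝ) ^ (1 / 2 : ℝ) * (t : ℝ) ^ (1 / 2 : ℝ) := by
          rw [← Real.rpow_add ht0]; norm_num
      _ ≤ P * Q := by gcongr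
  have hPQ2 : 16 * (P * Q : ℝ) ≤ (t : ℝ) * (t : ℝ) ^ (2 * δ) := by
    calc 16 * (P * Q : ℝ) = (4 * P) * (4 * Q) := by ring
      _ ≤ (t : ℝ) ^ (1 / 2 + δ) * (t : ℝ) ^ (1 / 2 + δ) := by gcongr
      _ = (t : ℝ) * (t : ℝ) ^ (2 * δ) := by
          nth_rewrite 3 [← Real.rpow_one (t : ℝ)]
          rw [← Real.rpow_add ht0, ← Real.rpow_add ht0]
          congr 1
          ring
  set β : ℝ := t / (64 * P * Q) with hβ
  have hβ0 : 0 < β := by positivity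
  have hβ1 : β ≤ 1 / 4 := by
    rw [hβ, div_le_iff₀ (by positivity)]
    nlinarith
  have hβ2 : 1 / β ≤ 4 * (t : ℝ) ^ (2 * δ) := by
    rw [hβ, one_div_div, div_le_iff₀ ht0]
    nlinarith
  have ht2δ : (1 : ℝ) ≤ (t : ℝ) ^ (2 * δ) := Real.one_le_rpow ht1.le (by positivity)
  have hM := minorant (B ×ˢ C) (fun u => ((n : ℝ) + t / 2) / ((u.1 : ℝ) * u.2)) β
    (11 * P * Q * (t : ℝ) ^ (-(η / 4))) hβ0 hβ1 (by
      intro h hh1 hh2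
      refine hT1 t (by omega) n hn hnA P Q h hP1 (by linarith) hQ1 (by linarith) hh1 ?_ B C hB hC
      have : 2 / β = 2 * (1 / β) := by ring
      rw [this] at hh2
      linarith)
  refine le_trans ?_ hM
  have hN : c ^ 2 * (P * Q) / (Real.log t) ^ 2 ≤ ((B ×ˢ C).card : ℝ) := by
    rw [Finset.card_product]
    push_cast
    calc c ^ 2 * (P * Q) / (Real.log t) ^ 2 = (c * P / Real.log t) * (c * Q / Real.log t) := by
          field_simp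
      _ ≤ B.card * C.card := by gcongr
  have herr : 8 * (11 * P * Q * (t : ℝ) ^ (-(η / 4))) / β ^ 2 ≤
      β * (c ^ 2 * (P * Q) / (Real.log t) ^ 2) / 2 := by
    have g := hT2 t (by omega)
    have g1 : 11264 * (Real.log t) ^ 2 ≤ c ^ 2 * (t : ℝ) ^ (η / 8) := by
      rw [div_mul_eq_mul_div, div_le_iff₀ (by positivity)] at g
      linarith
    have g2 : 1 ≤ 64 * (t : ℝ) ^ (6 * δ) * β ^ 3 := by
      have : (1 / β) ^ 3 ≤ (4 * (t : ℝ) ^ (2 * δ)) ^ 3 := by gcongr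
      have e : (4 * (t : ℝ) ^ (2 * δ)) ^ 3 = 64 * (t : ℝ) ^ (6 * δ) := by
        rw [mul_pow, ← Real.rpow_natCast ((t : ℝ) ^ (2 * δ)), ← Real.rpow_mul ht0.le]
        norm_num
        ring_nf
      rw [e, one_div, inv_pow, inv_le_iff_one_le_mul₀ (by positivity)] at this
      linarith
    rw [div_le_iff₀ (by positivity)]
    have h6 : 6 * δ = η / 8 := by rw [hδ]; ring
    rw [h6] at g2
    have g3 : (t : ℝ) ^ (-(η / 4)) * (t : ℝ) ^ (η / 8) * (t : ℝ) ^ (η / 8) = 1 := by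
      rw [← Real.rpow_add ht0, ← Real.rpow_add ht0]
      have : -(η / 4) + η / 8 + η / 8 = 0 := by ring
      rw [this, Real.rpow_zero]
    have e2 : β * (c ^ 2 * (P * Q) / (Real.log t) ^ 2) / 2 * β ^ 2 =
        (P * Q) * (c ^ 2 * β ^ 3) / (2 * (Real.log t) ^ 2) := by field_simp
    rw [e2, le_div_iff₀ (by positivity)]
    calc 8 * (11 * P * Q * (t : ℝ) ^ (-(η / 4))) * (2 * (Real.log t) ^ 2)
        = (P * Q) * ((t : ℝ) ^ (-(η / 4)) * (176 * (Real.log t) ^ 2)) := by ring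
      _ ≤ (P * Q) * ((t : ℝ) ^ (-(η / 4)) * (c ^ 2 * (t : ℝ) ^ (η / 8) / 64)) := by
          gcongr
          linarith
      _ = (P * Q) * ((t : ℝ) ^ (-(η / 4)) * (c ^ 2 * (t : ℝ) ^ (η / 8) / 64)) * 1 := by ring
      _ ≤ (P * Q) * ((t : ℝ) ^ (-(η / 4)) * (c ^ 2 * (t : ℝ) ^ (η / 8) / 64)) *
          (64 * (t : ℝ) ^ (η / 8) * β ^ 3) := by gcongr
      _ = (P * Q) * (c ^ 2 * β ^ 3) *
          ((t : ℝ) ^ (-(η / 4)) * (t : ℝ) ^ (η / 8) * (t : ℝ) ^ (η / 8)) := by ring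
      _ = (P * Q) * (c ^ 2 * β ^ 3) := by rw [g3, mul_one]
  rw [le_div_iff₀ (by norm_num)]
  have h7 : β * (c ^ 2 * (P * Q) / (Real.log t) ^ 2) ≤ β * ((B ×ˢ C).card : ℝ) := by gcongr
  have h8 : c ^ 2 * t / (10240 * (Real.log t) ^ 2) * 80 =
      β * (c ^ 2 * (P * Q) / (Real.log t) ^ 2) / 2 := by
    rw [hβ]
    field_simp
    norm_num
  linarith

end EG
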