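import Mathlib
import Pool.Agent.Helper79.EG.Block
import Pool.Agent.Helper42.EG.F
import Pool.Agent.Helper42.EG.P
import Pool.Agent.Helper47.EG.S

/-!
# Distinct smooth components: the lower bound for `n ≤ t ^ A`
-/

set_option autoImplicit false

open N298f9e75

namespace EG

open Finset

/-- A good pair has a multiple in the interval. -/
lemma exists_multiple {n t p q : ℕ} {β : ℝ} (ht : 1 ≤ t) (hp : 1 ≤ p) (hq : 1 ≤ q)
    (hβ : β * (p * q) ≤ t / 4)
    (h : |((n : ℝ) + t / 2) / ((p : ℝ) * q) - round (((n : ℝ) + t / 2) / ((p : ℝ) * q))| ≤ β) :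
    ∃ m ∈ Icc (n + 1) (n + t), p * q ∣ m := by
  have hp0 : (0 : ℝ) < p := by exact_mod_cast hp
  have hq0 : (0 : ℝ) < q := by exact_mod_cast hq
  have ht0 : (1 : ℝ) ≤ t := by exact_mod_cast ht
  have hpq : (0 : ℝ) < (p : ℝ) * q := by positivity
  set k : ℤ := round (((n : ℝ) + t / 2) / ((p : ℝ) * q)) with hk
  have h1 := abs_le.mp h
  have e1 : (((n : ℝ) + t / 2) / ((p : ℝ) * q)) * (p * q) = n + t / 2 := by field_simp
  have h2 : (k : ℝ) * (p * q) ≤ n + t / 2 + t / 4 := by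
    have : (k : ℝ) * (p * q) ≤ (((n : ℝ) + t / 2) / ((p : ℝ) * q) + β) * (p * q) := by
      gcongr
      linarith
    rw [add_mul, e1] at this
    linarith
  have h3 : n + t / 2 - t / 4 ≤ (k : ℝ) * (p * q) := by
    have : (((n : ℝ) + t / 2) / ((p : ℝ) * q) - β) * (p * q) ≤ (k : ℝ) * (p * q) := by
      gcongr
      linarith
    rw [sub_mul, e1] at this
    linarith
  have hkpos : 0 < k := by
    by_contra hcon
    push Not at hcon
    have : (k : ℝ) ≤ 0 := by exact_mod_cast hcon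
    have h4 : (k : ℝ) * (p * q) ≤ 0 := mul_nonpos_of_nonpos_of_nonneg this hpq.le
    have h5 : (0 : ℝ) ≤ n := Nat.cast_nonneg _
    linarith
  obtain ⟨j, hj⟩ : ∃ j : ℕ, (j : ℤ) = k := ⟨k.toNat, Int.toNat_of_nonneg hkpos.le⟩
  have hjr : (k : ℝ) = j := by rw [← hj]; simp
  rw [hjr] at h2 h3
  refine ⟨j * (p * q), ?_, Dvd.intro_left j rfl⟩
  rw [mem_Icc]
  constructor
  · have : (n : ℝ) < ((j * (p * q) : ℕ) : ℝ) := by
      push_cast
      linarith
    have h6 : n < j * (p * q) := by exact_mod_cast this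
    omega
  · have : ((j * (p * q) : ℕ) : ℝ) ≤ ((n + t : ℕ) : ℝ) := by
      push_cast
      linarith
    exact_mod_cast this

/-- From pairs of primes to values of the component. -/
lemma pairs_le {A n t : ℕ} (ht : 2 ≤ t) (hnA : n ≤ t ^ A) (hA : 1 ≤ A) (G : Finset (ℕ × ℕ))
    (hG : ∀ u ∈ G, u.1.Prime ∧ u.2.Prime ∧ u.1 < u.2 ∧ u.2 < t ∧ t ≤ u.1 ^ 2 ∧
      ∃ m ∈ Icc (n + 1) (n + t), u.1 * u.2 ∣ m) :
    G.card ≤ (2 * A + 2) ^ 2 * f n t := by
  classical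
  set Ms : Finset ℕ := (Icc (n + 1) (n + t)).filter (fun m => ∃ u ∈ G, u.1 * u.2 ∣ m) with hMs
  have hnt : n + t ≤ t ^ (A + 1) := by
    have h1 : t ≤ t ^ A := by
      calc t = t ^ 1 := (pow_one _).symm
        _ ≤ t ^ A := Nat.pow_le_pow_right (by omega) hA
    have h2 : t ^ (A + 1) = t ^ A * t := pow_succ _ _
    rw [h2]
    nlinarith
  have hsub : G ⊆ Ms.biUnion (fun m => (m.primeFactors.filter (fun p => t ≤ p ^ 2)) ×ˢ
      (m.primeFactors.filter (fun p => t ≤ p ^ 2))) := by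
    intro u hu
    obtain ⟨h1, h2, h3, h4, h5, m, hm, hdvd⟩ := hG u hu
    rw [Finset.mem_biUnion]
    refine ⟨m, ?_, ?_⟩
    · rw [hMs, Finset.mem_filter]
      exact ⟨hm, u, hu, hdvd⟩
    · have hm0 : m ≠ 0 := by
        rw [mem_Icc] at hm
        omega
      rw [Finset.mem_product]
      simp only [Finset.mem_filter, Nat.mem_primeFactors]
      refine ⟨⟨⟨h1, (Dvd.intro _ rfl).trans hdvd, hm0⟩, h5⟩,
        ⟨h2, (Dvd.intro_left _ rfl).trans hdvd, hm0⟩, ?_⟩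
      calc t ≤ u.1 ^ 2 := h5
        _ ≤ u.2 ^ 2 := Nat.pow_le_pow_left h3.le 2
  have h1 : G.card ≤ ∑ m ∈ Ms, (2 * A + 2) ^ 2 := by
    refine (Finset.card_le_card hsub).trans (Finset.card_biUnion_le.trans (Finset.sum_le_sum ?_))
    intro m hm
    rw [hMs, Finset.mem_filter, mem_Icc] at hm
    have h2 := card_large_primes (A := A) (t := t) (m := m) ht (by omega) (by omega)
    rw [Finset.card_product, sq]
    exact Nat.mul_le_mul h2 h2
  rw [Finset.sum_const, smul_eq_mul, mul_comm] at h1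
  refine h1.trans (Nat.mul_le_mul_left _ ?_)
  apply card_le_f n t Ms (Finset.filter_subset _ _)
  intro m hm
  rw [hMs, Finset.mem_filter] at hm
  obtain ⟨hm, u, hu, hdvd⟩ := hm
  obtain ⟨h1, h2, h3, h4, h5, _⟩ := hG u hu
  have hm0 : m ≠ 0 := by
    rw [mem_Icc] at hm
    omega
  have h6 := mul_le_smooth h1 h2 h3.ne (h3.trans h4) h4 hm0 ((Dvd.intro _ rfl).trans hdvd)
    ((Dvd.intro_left _ rfl).trans hdvd)
  refine le_trans ?_ h6
  calc t ≤ u.1 ^ 2 := h5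
    _ = u.1 * u.1 := sq _
    _ ≤ u.1 * u.2 := Nat.mul_le_mul_left _ h3.le

lemma block_unique {i j p : ℕ} (hi : p ∈ Ioc (4 ^ i) (4 ^ (i + 1)))
    (hj : p ∈ Ioc (4 ^ j) (4 ^ (j + 1))) : i = j := by
  rw [mem_Ioc] at hi hj
  have h1 : 4 ^ i < 4 ^ (j + 1) := by omega
  have h2 : 4 ^ j < 4 ^ (i + 1) := by omega
  have h3 := (Nat.pow_lt_pow_iff_right (by norm_num : 1 < 4)).mp h1
  have h4 := (Nat.pow_lt_pow_iff_right (by norm_num : 1 < 4)).mp h2
  omega

/-- The main case. -/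
theorem large_case {A : ℕ} (hA : 1 ≤ A) : ∃ c : ℝ, 0 < c ∧ ∃ T : ℕ, ∀ t : ℕ, T ≤ t → ∀ n : ℕ,
    t ^ 3 < n ^ 2 → n ≤ t ^ A → c * t ≤ f n t := by
  classical
  obtain ⟨η, hη⟩ : ∃ η : ℝ, η = 1 / 4 * (1 / 2 : ℝ) ^ (4 * A + 4) := ⟨_, rfl⟩
  obtain ⟨δ, hδ⟩ : ∃ δ : ℝ, δ = η / 48 := ⟨_, rfl⟩
  have hη0 : 0 < η := by rw [hη]; positivity
  have hη1 : η ≤ 1 / 64 := by
    rw [hη]
    have : (1 / 2 : ℝ) ^ (4 * A + 4) ≤ (1 / 2 : ℝ) ^ 4 :=
      pow_le_pow_of_le_one (by norm_num) (by norm_num) (by omega)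
    norm_num at this ⊢
    linarith
  have hδ0 : 0 < δ := by rw [hδ]; positivity
  have hδ1 : δ ≤ 1 / 1000 := by rw [hδ]; linarith
  obtain ⟨c₁, hc₁, i₀, hi₀, hprime⟩ := primes_block
  obtain ⟨T1, hT1, hcount⟩ := block_count hA hη hδ hc₁
  refine ⟨c₁ ^ 2 * δ ^ 2 / (10240 * 128 * (2 * A + 2) ^ 2), by positivity, ?_⟩
  -- `t` large
  obtain ⟨T2, hT2⟩ : ∃ T2 : ℕ, ∀ t : ℕ, T2 ≤ t → max (2 * (i₀ : ℝ)) (8 / δ) ≤ Real.log t / Real.log 4 := by
    have h1 : Filter.Tendsto (fun t : ℕ => Real.log t / Real.log 4) Filter.atTop Filter.atTop :=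
      (Real.tendsto_log_atTop.comp tendsto_natCast_atTop_atTop).atTop_div_const
        (Real.log_pos (by norm_num))
    exact Filter.eventually_atTop.mp (h1.eventually_ge_atTop _)
  refine ⟨max (max T1 T2) 4, ?_⟩
  intro t ht n hn hnA
  have ht4 : 4 ≤ t := by omega
  have ht1 : (1 : ℝ) < t := by
    have : (4 : ℝ) ≤ t := by exact_mod_cast ht4
    linarith
  have ht0 : (0 : ℝ) < t := by linarith
  have hlog4 : 0 < Real.log 4 := Real.log_pos (by norm_num)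
  have hlog4' : Real.log 4 ^ 2 ≤ 2 := by
    have h1 : Real.log 4 = 2 * Real.log 2 := by
      rw [show (4 : ℝ) = 2 ^ 2 by norm_num, Real.log_pow]; push_cast; ring
    have h2 := Real.log_two_lt_d9
    have h3 := Real.log_two_gt_d9
    rw [h1]
    nlinarith
  have hlog41 : 1 ≤ Real.log 4 := by
    have h1 : Real.log 4 = 2 * Real.log 2 := by
      rw [show (4 : ℝ) = 2 ^ 2 by norm_num, Real.log_pow]; push_cast; ring
    have h3 := Real.log_two_gt_d9
    rw [h1]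
    linarith
  have hlogt : 0 < Real.log t := Real.log_pos ht1
  set L : ℝ := Real.log t / Real.log 4 with hL
  have hL0 : 0 < L := by positivity
  have hLt : L * Real.log 4 = Real.log t := by rw [hL]; field_simp
  have hLi : 2 * (i₀ : ℝ) ≤ L := (le_max_left _ _).trans (hT2 t (by omega))
  have hLδ : 8 / δ ≤ L := (le_max_right _ _).trans (hT2 t (by omega))
  have hLδ' : 8 ≤ δ * L := by
    rw [div_le_iff₀ hδ0] at hLδ
    linarith
  have h4L : (4 : ℝ) ^ L = t := by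
    rw [hL, Real.rpow_def_of_pos (by norm_num), mul_div_cancel₀ _ hlog4.ne', Real.exp_log ht0]
  set a : ℕ := ⌈L / 2⌉₊ with ha
  set m : ℕ := ⌊δ * L / 4⌋₊ with hm
  have haL : L / 2 ≤ a := Nat.le_ceil _
  have haL2 : (a : ℝ) < L / 2 + 1 := Nat.ceil_lt_add_one (by positivity)
  have hmL : (m : ℝ) ≤ δ * L / 4 := Nat.floor_le (by positivity)
  have hmL2 : δ * L / 8 ≤ m := by
    have := Nat.lt_floor_add_one (δ * L / 4)
    rw [← hm] at this
    linarith
  -- properties of the indices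
  have hidx : ∀ i : ℕ, a ≤ i → i < a + 2 * m → (t : ℝ) ^ (1 / 2 : ℝ) ≤ ((4 ^ i : ℕ) : ℝ) ∧
      4 * ((4 ^ i : ℕ) : ℝ) ≤ (t : ℝ) ^ (1 / 2 + δ) ∧ i₀ ≤ i ∧ (i : ℝ) ≤ Real.log t := by
    intro i h1 h2
    have h1' : (a : ℝ) ≤ i := by exact_mod_cast h1
    have h2' : (i : ℝ) + 1 ≤ a + 2 * m := by
      have : i + 1 ≤ a + 2 * m := by omega
      exact_mod_cast this
    have h3 : (i : ℝ) + 1 ≤ (1 / 2 + δ) * L := by nlinarith
    refine ⟨?_, ?_, ?_, ?_⟩
    · push_cast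
      rw [← h4L, ← Real.rpow_mul (by norm_num), ← Real.rpow_natCast]
      apply Real.rpow_le_rpow_of_exponent_le (by norm_num)
      linarith
    · push_cast
      rw [← h4L, ← Real.rpow_mul (by norm_num)]
      have e : (4 : ℝ) * 4 ^ i = (4 : ℝ) ^ ((i : ℝ) + 1) := by
        rw [Real.rpow_add (by norm_num), Real.rpow_natCast, Real.rpow_one]
        ring
      rw [e]
      apply Real.rpow_le_rpow_of_exponent_le (by norm_num)
      linarith
    · have : (i₀ : ℝ) ≤ i := by linarith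
      exact_mod_cast this
    · rw [← hLt]
      have : (i : ℝ) ≤ L := by nlinarith
      nlinarith
  -- the good pairs
  let Pr : ℕ → Finset ℕ := fun i => (Ioc (4 ^ i) (4 ^ (i + 1))).filter Nat.Prime
  have hPr : ∀ i, Pr i ⊆ Ioc (4 ^ i) (4 * 4 ^ i) := by
    intro i
    have : 4 ^ (i + 1) = 4 * 4 ^ i := by rw [pow_succ]; ring
    rw [← this]
    exact Finset.filter_subset _ _
  let Gd : ℕ × ℕ → Finset (ℕ × ℕ) := fun v => (Pr v.1 ×ˢ Pr v.2).filter
    (fun u => |((n : ℝ) + t / 2) / ((u.1 : ℝ) * u.2) -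
          round (((n : ℝ) + t / 2) / ((u.1 : ℝ) * u.2))| ≤
            t / (64 * ((4 ^ v.1 : ℕ) : ℝ) * ((4 ^ v.2 : ℕ) : ℝ)))
  let I : Finset (ℕ × ℕ) := Ico a (a + m) ×ˢ Ico (a + m) (a + 2 * m)
  have hIcard : (I.card : ℝ) = m ^ 2 := by
    have : I.card = m * m := by
      change (Ico a (a + m) ×ˢ Ico (a + m) (a + 2 * m)).card = m * m
      rw [Finset.card_product, Nat.card_Ico, Nat.card_Ico]
      have e1 : a + m - a = m := by omega
      have e2 : a + 2 * m - (a + m) = m := by omega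
      rw [e1, e2]
    rw [this]
    push_cast
    ring
  have hGcard : ∀ v ∈ I, c₁ ^ 2 * t / (10240 * (Real.log t) ^ 2) ≤ ((Gd v).card : ℝ) := by
    intro v hv
    have hv' : v.1 ∈ Ico a (a + m) ∧ v.2 ∈ Ico (a + m) (a + 2 * m) := Finset.mem_product.mp hv
    rw [mem_Ico, mem_Ico] at hv'
    obtain ⟨p1, p2, p3, p4⟩ := hidx v.1 (by omega) (by omega)
    obtain ⟨q1, q2, q3, q4⟩ := hidx v.2 (by omega) (by omega)
    have hcard : ∀ i : ℕ, i₀ ≤ i → (i : ℝ) ≤ Real.log t →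
        c₁ * ((4 ^ i : ℕ) : ℝ) / Real.log t ≤ ((Pr i).card : ℝ) := by
      intro i hi hi'
      refine le_trans ?_ (hprime i hi)
      have hi1 : (0 : ℝ) < i := by
        have : 0 < i := by omega
        exact_mod_cast this
      push_cast
      gcongr
    exact hcount t (by omega) n hn hnA (4 ^ v.1) (4 ^ v.2) p1 p2 q1 q2 (Pr v.1) (Pr v.2)
      (hPr v.1) (hPr v.2) (hcard v.1 p3 p4) (hcard v.2 q3 q4)
  have hdisj : ∀ v ∈ I, ∀ w ∈ I, v ≠ w → Disjoint (Gd v) (Gd w) := by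
    intro v _ w _ hvw
    rw [Finset.disjoint_left]
    intro u hu hu'
    apply hvw
    have h1 := (Finset.mem_product.mp (Finset.mem_filter.mp hu).1)
    have h2 := (Finset.mem_product.mp (Finset.mem_filter.mp hu').1)
    exact Prod.ext (block_unique (Finset.mem_filter.mp h1.1).1 (Finset.mem_filter.mp h2.1).1)
      (block_unique (Finset.mem_filter.mp h1.2).1 (Finset.mem_filter.mp h2.2).1)
  set G : Finset (ℕ × ℕ) := I.biUnion Gd with hG
  have hGc : (m : ℝ) ^ 2 * (c₁ ^ 2 * t / (10240 * (Real.log t) ^ 2)) ≤ (G.card : ℝ) := by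
    rw [hG, Finset.card_biUnion hdisj]
    push_cast
    rw [← hIcard, ← nsmul_eq_mul]
    exact Finset.card_nsmul_le_sum _ _ _ hGcard
  have hpairs := pairs_le (A := A) (n := n) (t := t) (by omega) hnA hA G (by
    intro u hu
    rw [hG, Finset.mem_biUnion] at hu
    obtain ⟨v, hv, hu⟩ := hu
    have hv' : v.1 ∈ Ico a (a + m) ∧ v.2 ∈ Ico (a + m) (a + 2 * m) := Finset.mem_product.mp hv
    rw [mem_Ico, mem_Ico] at hv'
    obtain ⟨p1, p2, p3, p4⟩ := hidx v.1 (by omega) (by omega)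
    obtain ⟨q1, q2, q3, q4⟩ := hidx v.2 (by omega) (by omega)
    obtain ⟨hu1, hu2⟩ := Finset.mem_filter.mp hu
    have hu1' := Finset.mem_product.mp hu1
    have hpp := hPr v.1 hu1'.1
    have hqq := hPr v.2 hu1'.2
    have hprime1 := (Finset.mem_filter.mp hu1'.1).2
    have hprime2 := (Finset.mem_filter.mp hu1'.2).2
    rw [mem_Ioc] at hpp hqq
    have hlt : u.1 < u.2 := by
      have h1 : 4 * 4 ^ v.1 ≤ 4 ^ v.2 := by
        calc 4 * 4 ^ v.1 = 4 ^ (v.1 + 1) := by rw [pow_succ]; ring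
          _ ≤ 4 ^ v.2 := Nat.pow_le_pow_right (by norm_num) (by omega)
      omega
    have hu2t : u.2 < t := by
      have h1 : (u.2 : ℝ) ≤ (t : ℝ) ^ (1 / 2 + δ) := by
        refine le_trans ?_ q2
        exact_mod_cast hqq.2
      have h2 : (t : ℝ) ^ (1 / 2 + δ) < (t : ℝ) ^ (1 : ℝ) :=
        Real.rpow_lt_rpow_of_exponent_lt ht1 (by linarith)
      rw [Real.rpow_one] at h2
      exact_mod_cast h1.trans_lt h2
    have hsq : t ≤ u.1 ^ 2 := by
      have h1 : (t : ℝ) ^ (1 / 2 : ℝ) ≤ u.1 := by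
        refine p1.trans ?_
        exact_mod_cast hpp.1.le
      have h2 : ((t : ℝ) ^ (1 / 2 : ℝ)) ^ 2 ≤ (u.1 : ℝ) ^ 2 := by gcongr
      have e : ((t : ℝ) ^ (1 / 2 : ℝ)) ^ 2 = t := by
        rw [← Real.rpow_natCast, ← Real.rpow_mul ht0.le]
        norm_num
      rw [e] at h2
      exact_mod_cast h2
    refine ⟨hprime1, hprime2, hlt, hu2t, hsq, ?_⟩
    refine exists_multiple (by omega) hprime1.one_le hprime2.one_le ?_ hu2
    have hp4 : (u.1 : ℝ) ≤ 4 * ((4 ^ v.1 : ℕ) : ℝ) := by exact_mod_cast hpp.2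
    have hq4 : (u.2 : ℝ) ≤ 4 * ((4 ^ v.2 : ℕ) : ℝ) := by exact_mod_cast hqq.2
    have hx1 : (0 : ℝ) < ((4 ^ v.1 : ℕ) : ℝ) := by positivity
    have hx2 : (0 : ℝ) < ((4 ^ v.2 : ℕ) : ℝ) := by positivity
    calc (t : ℝ) / (64 * ((4 ^ v.1 : ℕ) : ℝ) * ((4 ^ v.2 : ℕ) : ℝ)) * (u.1 * u.2)
        ≤ (t : ℝ) / (64 * ((4 ^ v.1 : ℕ) : ℝ) * ((4 ^ v.2 : ℕ) : ℝ)) *
          ((4 * ((4 ^ v.1 : ℕ) : ℝ)) * (4 * ((4 ^ v.2 : ℕ) : ℝ))) := by gcongr
      _ = t / 4 := by
          field_simp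
          norm_num)
  have hpairs' : (G.card : ℝ) ≤ (2 * A + 2) ^ 2 * f n t := by exact_mod_cast hpairs
  have h5 : δ ^ 2 / 128 * (Real.log t) ^ 2 ≤ (m : ℝ) ^ 2 := by
    calc δ ^ 2 / 128 * (Real.log t) ^ 2 = δ ^ 2 / 128 * L ^ 2 * (Real.log 4) ^ 2 := by
          rw [← hLt]; ring
      _ ≤ δ ^ 2 / 128 * L ^ 2 * 2 := by gcongr
      _ = (δ * L / 8) ^ 2 := by ring
      _ ≤ (m : ℝ) ^ 2 := by gcongr
  have h6 : c₁ ^ 2 * δ ^ 2 * t / (10240 * 128) ≤ (G.card : ℝ) := by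
    refine le_trans ?_ hGc
    calc c₁ ^ 2 * δ ^ 2 * t / (10240 * 128)
        = (δ ^ 2 / 128 * (Real.log t) ^ 2) * (c₁ ^ 2 * t / (10240 * (Real.log t) ^ 2)) := by
          field_simp
      _ ≤ (m : ℝ) ^ 2 * (c₁ ^ 2 * t / (10240 * (Real.log t) ^ 2)) := by gcongr
  have h7 : c₁ ^ 2 * δ ^ 2 * t / (10240 * 128) ≤ (2 * A + 2) ^ 2 * f n t := h6.trans hpairs'
  calc c₁ ^ 2 * δ ^ 2 / (10240 * 128 * (2 * A + 2) ^ 2) * t
      = (c₁ ^ 2 * δ ^ 2 * t / (10240 * 128)) / (2 * A + 2) ^ 2 := by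
        rw [div_mul_eq_mul_div, div_div]
    _ ≤ (f n t : ℝ) := by
        rw [div_le_iff₀ (by positivity)]
        linarith

/-- The lower bound for `n ≤ t ^ A`. -/
theorem main (A : ℕ) : ∃ c : ℝ, 0 < c ∧ ∀ n t : ℕ, 1 ≤ t → n ≤ t ^ A →
    c * (t : ℝ) ≤ (f n t : ℝ) := by
  obtain ⟨c, hc, T, hT⟩ := large_case (A := A + 1) (by omega)
  obtain ⟨T', hT'⟩ := small_case
  have hcT : (0 : ℝ) < max T T' + 1 := by positivity
  refine ⟨min (min c (1 / 8)) (1 / (max T T' + 1)), by positivity, ?_⟩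
  intro n t ht hn
  have ht0 : (0 : ℝ) < t := by exact_mod_cast ht
  by_cases hlarge : max T T' ≤ t
  · by_cases hnt : n ^ 2 ≤ t ^ 3
    · have h1 := hT' n t (by omega) hnt
      have h2 : (t : ℝ) ≤ 8 * f n t := by exact_mod_cast h1
      calc min (min c (1 / 8)) (1 / ((max T T' : ℕ) + 1)) * (t : ℝ) ≤ 1 / 8 * t := by
            gcongr
            exact (min_le_left _ _).trans (min_le_right _ _)
        _ ≤ f n t := by linarith
    · have h1 := hT t (by omega) n (by omega) (hn.trans (Nat.pow_le_pow_right (by omega) (by omega)))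
      refine le_trans ?_ h1
      gcongr
      exact (min_le_left _ _).trans (min_le_left _ _)
  · have h1 : 1 ≤ f n t := by
      unfold f
      rw [Nat.one_le_iff_ne_zero, Finset.card_ne_zero]
      exact ⟨_, Finset.mem_image_of_mem _ (Finset.mem_Icc.mpr ⟨le_rfl, by omega⟩)⟩
    have h2 : (1 : ℝ) ≤ f n t := by exact_mod_cast h1
    refine le_trans ?_ h2
    calc min (min c (1 / 8)) (1 / ((max T T' : ℕ) + 1)) * (t : ℝ)
        ≤ 1 / ((max T T' : ℕ) + 1) * (t : ℝ) := by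
          gcongr
          exact min_le_right _ _
      _ ≤ 1 := by
          rw [one_div, inv_mul_le_iff₀ (by positivity), mul_one]
          have : t ≤ max T T' + 1 := by omega
          exact_mod_cast this

end EG
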