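import Mathlib

/-!
# Divisibility of shifted integers by two moduli: counts over an interval
-/

set_option autoImplicit false

namespace EG.V

open Finset

/-- indicator of `d ∣ m` -/
noncomputable def ind (d m : ℕ) : ℝ := if d ∣ m then 1 else 0

lemma ind_nonneg (d m : ℕ) : 0 ≤ ind d m := by
  unfold ind; split_ifs <;> norm_num

lemma ind_le_one (d m : ℕ) : ind d m ≤ 1 := by
  unfold ind; split_ifs <;> norm_num

lemma card_modEq (N M r : ℕ) (hM : 0 < M) :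
    |(((Ioc 0 N).filter (fun n => n ≡ r [MOD M])).card : ℝ) - (N : ℝ) / M| ≤ 1 := by
  have h := Nat.Ioc_filter_modEq_card 0 N hM r
  have hM0 : (0 : ℝ) < M := by exact_mod_cast hM
  have h1 : ((((Ioc 0 N).filter (fun n => n ≡ r [MOD M])).card : ℤ) : ℝ) =
      ((max (⌊((N : ℚ) - r) / M⌋ - ⌊(((0 : ℕ) : ℚ) - r) / M⌋) 0 : ℤ) : ℝ) := by
    rw [h]
  set u : ℚ := ((N : ℚ) - r) / M with hu
  set v : ℚ := (((0 : ℕ) : ℚ) - r) / M with hv
  have h2 : u - v = N / M := by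
    rw [hu, hv]
    push_cast
    ring
  have hMq : (0 : ℚ) < M := by exact_mod_cast hM
  have h3 : v ≤ u := by
    have : 0 ≤ u - v := by rw [h2]; positivity
    linarith
  have h4 : ⌊v⌋ ≤ ⌊u⌋ := Int.floor_le_floor h3
  have h5 : max (⌊u⌋ - ⌊v⌋) 0 = ⌊u⌋ - ⌊v⌋ := max_eq_left (by omega)
  rw [h5] at h1
  have e1 := Int.floor_le u
  have e2 := Int.lt_floor_add_one u
  have e3 := Int.floor_le v
  have e4 := Int.lt_floor_add_one v
  have h6 : |(((⌊u⌋ - ⌊v⌋ : ℤ) : ℚ)) - (N : ℚ) / M| ≤ 1 := by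
    rw [← h2, abs_le]
    push_cast
    constructor <;> linarith
  have h7 : |(((⌊u⌋ - ⌊v⌋ : ℤ) : ℝ)) - (N : ℝ) / M| ≤ 1 := by
    have := h6
    have h8 : ((|(((⌊u⌋ - ⌊v⌋ : ℤ) : ℚ)) - (N : ℚ) / M| : ℚ) : ℝ) ≤ ((1 : ℚ) : ℝ) := by
      exact_mod_cast this
    rw [Rat.cast_abs] at h8
    push_cast at h8 ⊢
    exact h8
  have h9 : (((Ioc 0 N).filter (fun n => n ≡ r [MOD M])).card : ℝ) = ((⌊u⌋ - ⌊v⌋ : ℤ) : ℝ) := by
    rw [← h1]
    simp
  rw [h9]
  exact h7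

lemma dvd_add_iff (d j n : ℕ) (hd : 0 < d) : d ∣ n + j ↔ n ≡ (d - 1) * j [MOD d] := by
  have h1 : (d - 1) * j + j = d * j := by
    obtain ⟨e, rfl⟩ : ∃ e, d = e + 1 := ⟨d - 1, by omega⟩
    simp
    ring
  constructor
  · intro h
    have h2 : n + j ≡ (d - 1) * j + j [MOD d] := by
      rw [h1]
      exact ((Nat.modEq_zero_iff_dvd).mpr h).trans ((Nat.modEq_zero_iff_dvd).mpr (Dvd.intro j rfl)).symm
    exact Nat.ModEq.add_right_cancel' j h2
  · intro h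
    have h2 : n + j ≡ (d - 1) * j + j [MOD d] := h.add_right j
    rw [h1] at h2
    exact (Nat.modEq_zero_iff_dvd).mp (h2.trans ((Nat.modEq_zero_iff_dvd).mpr (Dvd.intro j rfl)))

lemma sum_ind (N d j : ℕ) (hd : 0 < d) :
    |∑ n ∈ Ioc 0 N, ind d (n + j) - (N : ℝ) / d| ≤ 1 := by
  have h1 : ∑ n ∈ Ioc 0 N, ind d (n + j) =
      (((Ioc 0 N).filter (fun n => n ≡ (d - 1) * j [MOD d])).card : ℝ) := by
    unfold ind
    rw [Finset.sum_boole]
    congr 2
    apply Finset.filter_congr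
    intro n _
    exact dvd_add_iff d j n hd
  rw [h1]
  exact card_modEq N d _ hd

lemma sum_ind_ind (N d d' j j' : ℕ) : ∑ n ∈ Ioc 0 N, ind d (n + j) * ind d' (n + j') =
    (((Ioc 0 N).filter (fun n => d ∣ n + j ∧ d' ∣ n + j')).card : ℝ) := by
  unfold ind
  rw [← Finset.sum_boole]
  apply Finset.sum_congr rfl
  intro n _
  by_cases h1 : d ∣ n + j <;> by_cases h2 : d' ∣ n + j' <;> simp [h1, h2]

lemma sum_ind_coprime (N d d' j j' : ℕ) (hd : 0 < d) (hd' : 0 < d') (hc : d.Coprime d') :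
    |∑ n ∈ Ioc 0 N, ind d (n + j) * ind d' (n + j') - (N : ℝ) / (d * d')| ≤ 1 := by
  rw [sum_ind_ind]
  obtain ⟨r, hr1, hr2⟩ := Nat.chineseRemainder hc ((d - 1) * j) ((d' - 1) * j')
  have h1 : (Ioc 0 N).filter (fun n => d ∣ n + j ∧ d' ∣ n + j') =
      (Ioc 0 N).filter (fun n => n ≡ r [MOD (d * d')]) := by
    apply Finset.filter_congr
    intro n _
    rw [dvd_add_iff d j n hd, dvd_add_iff d' j' n hd', ← Nat.modEq_and_modEq_iff_modEq_mul hc]
    constructor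
    · rintro ⟨a, b⟩
      exact ⟨a.trans hr1.symm, b.trans hr2.symm⟩
    · rintro ⟨a, b⟩
      exact ⟨a.trans hr1, b.trans hr2⟩
  rw [h1]
  have := card_modEq N (d * d') r (Nat.mul_pos hd hd')
  push_cast at this
  exact this

lemma sum_ind_lcm (N d d' j j' : ℕ) (hd : 0 < d) (hd' : 0 < d') :
    ∑ n ∈ Ioc 0 N, ind d (n + j) * ind d' (n + j') ≤ (N : ℝ) / (d.lcm d' : ℕ) + 1 := by
  rw [sum_ind_ind]
  rcases ((Ioc 0 N).filter (fun n => d ∣ n + j ∧ d' ∣ n + j')).eq_empty_or_nonempty with h | ⟨r, hr⟩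
  · rw [h]
    simp
    positivity
  · rw [Finset.mem_filter] at hr
    have hl : 0 < d.lcm d' := Nat.lcm_pos hd hd'
    have h1 : (Ioc 0 N).filter (fun n => d ∣ n + j ∧ d' ∣ n + j') ⊆
        (Ioc 0 N).filter (fun n => n ≡ r [MOD (d.lcm d')]) := by
      intro n hn
      rw [Finset.mem_filter] at hn ⊢
      refine ⟨hn.1, ?_⟩
      have h2 : n ≡ r [MOD d] :=
        ((dvd_add_iff d j n hd).mp hn.2.1).trans ((dvd_add_iff d j r hd).mp hr.2.1).symm
      have h3 : n ≡ r [MOD d'] :=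
        ((dvd_add_iff d' j' n hd').mp hn.2.2).trans ((dvd_add_iff d' j' r hd').mp hr.2.2).symm
      rw [Nat.modEq_iff_dvd] at h2 h3 ⊢
      have h4 : ((d.lcm d' : ℕ) : ℤ) = lcm (d : ℤ) (d' : ℤ) := by
        rfl
      rw [h4]
      exact lcm_dvd h2 h3
    have h5 := Finset.card_le_card h1
    have h6 := abs_le.mp (card_modEq N (d.lcm d') r hl)
    have h7 : (((Ioc 0 N).filter (fun n => d ∣ n + j ∧ d' ∣ n + j')).card : ℝ) ≤
        (((Ioc 0 N).filter (fun n => n ≡ r [MOD (d.lcm d')])).card : ℝ) := by exact_mod_cast h5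
    linarith [h6.2]

/-- The number of multiples of `d` in `(n, n + T]`. -/
noncomputable def mult (T d n : ℕ) : ℝ := ∑ j ∈ Ioc 0 T, ind d (n + j)

/-- Correlations for coprime moduli. -/
theorem corr_coprime (N T d d' : ℕ) (hd : 0 < d) (hd' : 0 < d') (hc : d.Coprime d') :
    |∑ n ∈ Ioc 0 N, (mult T d n - (T : ℝ) / d) * (mult T d' n - (T : ℝ) / d')| ≤ 4 * (T : ℝ) ^ 2 := by
  have hd0 : (1 : ℝ) ≤ d := by exact_mod_cast hd
  have hd0' : (1 : ℝ) ≤ d' := by exact_mod_cast hd'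
  have e1 : ∀ (e n : ℕ), mult T e n - (T : ℝ) / e = ∑ j ∈ Ioc 0 T, (ind e (n + j) - 1 / e) := by
    intro e n
    unfold mult
    rw [Finset.sum_sub_distrib, Finset.sum_const, Nat.card_Ioc, nsmul_eq_mul]
    simp
    ring
  have e2 : ∑ n ∈ Ioc 0 N, (mult T d n - (T : ℝ) / d) * (mult T d' n - (T : ℝ) / d') =
      ∑ j ∈ Ioc 0 T, ∑ j' ∈ Ioc 0 T, ∑ n ∈ Ioc 0 N,
        (ind d (n + j) - 1 / d) * (ind d' (n + j') - 1 / d') := by
    rw [Finset.sum_congr rfl (fun n _ => by rw [e1 d n, e1 d' n, Finset.sum_mul_sum])]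
    rw [Finset.sum_comm]
    apply Finset.sum_congr rfl
    intro j _
    rw [Finset.sum_comm]
  rw [e2]
  have h1 : ∀ j j' : ℕ, |∑ n ∈ Ioc 0 N, (ind d (n + j) - 1 / d) * (ind d' (n + j') - 1 / d')| ≤ 4 := by
    intro j j'
    have e3 : ∑ n ∈ Ioc 0 N, (ind d (n + j) - 1 / d) * (ind d' (n + j') - 1 / d') =
        (∑ n ∈ Ioc 0 N, ind d (n + j) * ind d' (n + j') - (N : ℝ) / (d * d')) -
        (1 / d') * (∑ n ∈ Ioc 0 N, ind d (n + j) - (N : ℝ) / d) -
        (1 / d) * (∑ n ∈ Ioc 0 N, ind d' (n + j') - (N : ℝ) / d') := by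
      simp only [sub_mul, mul_sub, Finset.sum_sub_distrib, Finset.sum_const, Nat.card_Ioc,
        nsmul_eq_mul, ← Finset.mul_sum, ← Finset.sum_mul]
      field_simp
      simp
      ring
    rw [e3]
    have a1 := abs_le.mp (sum_ind_coprime N d d' j j' hd hd' hc)
    have a2 : |(1 / (d' : ℝ)) * (∑ n ∈ Ioc 0 N, ind d (n + j) - (N : ℝ) / d)| ≤ 1 := by
      rw [abs_mul]
      have b1 : |1 / (d' : ℝ)| ≤ 1 := by
        rw [abs_of_nonneg (by positivity), div_le_one (by linarith)]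
        exact hd0'
      exact mul_le_one₀ b1 (abs_nonneg _) (sum_ind N d j hd)
    have a3 : |(1 / (d : ℝ)) * (∑ n ∈ Ioc 0 N, ind d' (n + j') - (N : ℝ) / d')| ≤ 1 := by
      rw [abs_mul]
      have b1 : |1 / (d : ℝ)| ≤ 1 := by
        rw [abs_of_nonneg (by positivity), div_le_one (by linarith)]
        exact hd0
      exact mul_le_one₀ b1 (abs_nonneg _) (sum_ind N d' j' hd')
    have a2' := abs_le.mp a2
    have a3' := abs_le.mp a3
    rw [abs_le]
    constructor <;> linarith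
  calc |∑ j ∈ Ioc 0 T, ∑ j' ∈ Ioc 0 T, ∑ n ∈ Ioc 0 N,
        (ind d (n + j) - 1 / d) * (ind d' (n + j') - 1 / d')|
      ≤ ∑ j ∈ Ioc 0 T, ∑ j' ∈ Ioc 0 T, |∑ n ∈ Ioc 0 N,
        (ind d (n + j) - 1 / d) * (ind d' (n + j') - 1 / d')| := by
        refine (Finset.abs_sum_le_sum_abs _ _).trans (Finset.sum_le_sum fun j _ => ?_)
        exact Finset.abs_sum_le_sum_abs _ _
    _ ≤ ∑ j ∈ Ioc 0 T, ∑ j' ∈ Ioc 0 T, (4 : ℝ) :=
        Finset.sum_le_sum fun j _ => Finset.sum_le_sum fun j' _ => h1 j j'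
    _ = 4 * (T : ℝ) ^ 2 := by
        simp only [Finset.sum_const, Nat.card_Ioc, nsmul_eq_mul, Nat.sub_zero]
        ring

lemma sum_mult (N T d : ℕ) (hd : 0 < d) :
    ∑ n ∈ Ioc 0 N, mult T d n ≤ T * ((N : ℝ) / d + 1) := by
  unfold mult
  rw [Finset.sum_comm]
  calc ∑ j ∈ Ioc 0 T, ∑ n ∈ Ioc 0 N, ind d (n + j) ≤ ∑ j ∈ Ioc 0 T, ((N : ℝ) / d + 1) := by
        apply Finset.sum_le_sum
        intro j _
        linarith [(abs_le.mp (sum_ind N d j hd)).2]
    _ = T * ((N : ℝ) / d + 1) := by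
        rw [Finset.sum_const, Nat.card_Ioc, nsmul_eq_mul, Nat.sub_zero]

/-- Correlations for moduli with a common large prime factor. -/
theorem corr_common (N T d d' p : ℕ) (hd : 0 < d) (hd' : 0 < d') (hp : 0 < p) (hpd : p ∣ d)
    (hpd' : p ∣ d') (hT : 1 ≤ T) (hTp : T ≤ p ^ 2) :
    |∑ n ∈ Ioc 0 N, (mult T d n - (T : ℝ) / d) * (mult T d' n - (T : ℝ) / d')| ≤
      5 * ((T : ℝ) * √T) * N / (d.lcm d' : ℕ) + 4 * (T : ℝ) ^ 2 := by
  have hT0 : (1 : ℝ) ≤ T := by exact_mod_cast hT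
  have hs : √(T : ℝ) ^ 2 = T := Real.sq_sqrt (by positivity)
  have hs1 : 1 ≤ √(T : ℝ) := by rw [Real.one_le_sqrt]; exact hT0
  have hp0 : (0 : ℝ) < p := by exact_mod_cast hp
  have hsp : √(T : ℝ) ≤ p := by
    rw [Real.sqrt_le_left hp0.le]
    exact_mod_cast hTp
  have hd0 : (1 : ℝ) ≤ d := by exact_mod_cast hd
  have hd0' : (1 : ℝ) ≤ d' := by exact_mod_cast hd'
  have hl : 0 < d.lcm d' := Nat.lcm_pos hd hd'
  set l : ℝ := ((d.lcm d' : ℕ) : ℝ) with hldef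
  have hl0 : 0 < l := by rw [hldef]; exact_mod_cast hl
  have hl1 : 1 ≤ l := by rw [hldef]; exact_mod_cast hl
  have hN0 : (0 : ℝ) ≤ N := Nat.cast_nonneg _
  -- the product of the moduli
  have hdd : l * √T ≤ d * d' := by
    have h1 : d.gcd d' * d.lcm d' = d * d' := Nat.gcd_mul_lcm d d'
    have h2 : p ≤ d.gcd d' := Nat.le_of_dvd (Nat.gcd_pos_of_pos_left _ hd) (Nat.dvd_gcd hpd hpd')
    have h3 : ((d.gcd d' : ℕ) : ℝ) * l = d * d' := by
      rw [hldef]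
      exact_mod_cast h1
    have h4 : (p : ℝ) ≤ (d.gcd d' : ℕ) := by exact_mod_cast h2
    rw [← h3]
    nlinarith
  -- the main count
  have hmain : ∑ n ∈ Ioc 0 N, mult T d n * mult T d' n ≤ 2 * ((T : ℝ) * √T) * (N / l + 1) := by
    have e1 : ∑ n ∈ Ioc 0 N, mult T d n * mult T d' n =
        ∑ j ∈ Ioc 0 T, ∑ j' ∈ Ioc 0 T, ∑ n ∈ Ioc 0 N, ind d (n + j) * ind d' (n + j') := by
      unfold mult
      rw [Finset.sum_congr rfl (fun n _ => by rw [Finset.sum_mul_sum])]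
      rw [Finset.sum_comm]
      apply Finset.sum_congr rfl
      intro j _
      rw [Finset.sum_comm]
    rw [e1]
    have h1 : ∀ j ∈ Ioc 0 T, ∑ j' ∈ Ioc 0 T, ∑ n ∈ Ioc 0 N, ind d (n + j) * ind d' (n + j') ≤
        2 * √T * (N / l + 1) := by
      intro j _
      have h2 : ∀ j' ∈ Ioc 0 T, ∑ n ∈ Ioc 0 N, ind d (n + j) * ind d' (n + j') ≤
          if j' ≡ j [MOD p] then (N / l + 1) else 0 := by
        intro j' _
        split_ifs with hmod
        · exact sum_ind_lcm N d d' j j' hd hd'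
        · rw [sum_ind_ind, Finset.filter_false_of_mem]
          · simp
          · rintro n _ ⟨h3, h4⟩
            apply hmod
            have h5 : n + j ≡ 0 [MOD p] := (Nat.modEq_zero_iff_dvd).mpr (hpd.trans h3)
            have h6 : n + j' ≡ 0 [MOD p] := (Nat.modEq_zero_iff_dvd).mpr (hpd'.trans h4)
            exact Nat.ModEq.add_left_cancel' n (h6.trans h5.symm)
      refine (Finset.sum_le_sum h2).trans ?_
      rw [← Finset.sum_filter, Finset.sum_const, nsmul_eq_mul]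
      have h7 := (abs_le.mp (card_modEq T p j hp)).2
      have h8 : (T : ℝ) / p ≤ √T := by
        rw [div_le_iff₀ hp0]
        nlinarith
      have h9 : (((Ioc 0 T).filter (fun j' => j' ≡ j [MOD p])).card : ℝ) ≤ 2 * √T := by linarith
      gcongr
    calc ∑ j ∈ Ioc 0 T, ∑ j' ∈ Ioc 0 T, ∑ n ∈ Ioc 0 N, ind d (n + j) * ind d' (n + j')
        ≤ ∑ j ∈ Ioc 0 T, 2 * √T * (N / l + 1) := Finset.sum_le_sum h1
      _ = 2 * ((T : ℝ) * √T) * (N / l + 1) := by
          rw [Finset.sum_const, Nat.card_Ioc, nsmul_eq_mul, Nat.sub_zero]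
          ring
  have hm0 : ∀ e n : ℕ, 0 ≤ mult T e n := fun e n => Finset.sum_nonneg (fun _ _ => ind_nonneg _ _)
  have hTT : (T : ℝ) ^ 2 / (d * d') ≤ T * √T / l := by
    rw [div_le_div_iff₀ (by positivity) hl0]
    calc (T : ℝ) ^ 2 * l = T * √T * (l * √T) := by
          calc (T : ℝ) ^ 2 * l = T * l * T := by ring
            _ = T * l * (√T ^ 2) := by rw [hs]
            _ = T * √T * (l * √T) := by ring
      _ ≤ T * √T * (d * d') := by gcongr
  have hb : ∀ e e' : ℕ, 0 < e → 0 < e' → ((e : ℝ) * e' = d * d') →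
      (T : ℝ) / e * ∑ n ∈ Ioc 0 N, mult T e' n ≤ N * (T * √T / l) + T ^ 2 := by
    intro e e' he he' hee
    have he0 : (1 : ℝ) ≤ e := by exact_mod_cast he
    have he0' : (1 : ℝ) ≤ e' := by exact_mod_cast he'
    calc (T : ℝ) / e * ∑ n ∈ Ioc 0 N, mult T e' n ≤ (T : ℝ) / e * (T * ((N : ℝ) / e' + 1)) := by
          gcongr
          exact sum_mult N T e' he'
      _ = N * (T ^ 2 / (e * e')) + T ^ 2 / e := by field_simp
      _ ≤ N * (T * √T / l) + T ^ 2 := by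
          rw [hee]
          gcongr
          exact div_le_self (by positivity) he0
  have habs : |∑ n ∈ Ioc 0 N, (mult T d n - (T : ℝ) / d) * (mult T d' n - (T : ℝ) / d')| ≤
      ∑ n ∈ Ioc 0 N, mult T d n * mult T d' n + (T : ℝ) / d * ∑ n ∈ Ioc 0 N, mult T d' n +
        (T : ℝ) / d' * ∑ n ∈ Ioc 0 N, mult T d n + N * ((T : ℝ) ^ 2 / (d * d')) := by
    refine (Finset.abs_sum_le_sum_abs _ _).trans ?_
    have e5 : ∑ n ∈ Ioc 0 N, mult T d n * mult T d' n + (T : ℝ) / d * ∑ n ∈ Ioc 0 N, mult T d' n +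
        (T : ℝ) / d' * ∑ n ∈ Ioc 0 N, mult T d n + N * ((T : ℝ) ^ 2 / (d * d')) =
        ∑ n ∈ Ioc 0 N, (mult T d n + (T : ℝ) / d) * (mult T d' n + (T : ℝ) / d') := by
      simp only [add_mul, mul_add, Finset.sum_add_distrib, Finset.sum_const, Nat.card_Ioc,
        nsmul_eq_mul, ← Finset.mul_sum, ← Finset.sum_mul, Nat.sub_zero]
      field_simp
      ring
    rw [e5]
    apply Finset.sum_le_sum
    intro n _
    rw [abs_mul]
    have b : ∀ e : ℕ, |mult T e n - (T : ℝ) / e| ≤ mult T e n + (T : ℝ) / e := by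
      intro e
      have c1 := hm0 e n
      have c2 : (0 : ℝ) ≤ (T : ℝ) / e := by positivity
      rw [abs_le]
      constructor <;> linarith
    exact mul_le_mul (b d) (b d') (abs_nonneg _) (add_nonneg (hm0 d n) (by positivity))
  have h10 := hb d d' hd hd' rfl
  have h11 := hb d' d hd' hd (by ring)
  have h12 : N * ((T : ℝ) ^ 2 / (d * d')) ≤ N * (T * √T / l) := by gcongr
  have h13 : (T : ℝ) * √T ≤ T ^ 2 := by
    have : √(T : ℝ) ≤ T := by nlinarith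
    nlinarith
  have h14 : 2 * ((T : ℝ) * √T) * (N / l + 1) = 2 * (N * (T * √T / l)) + 2 * (T * √T) := by ring
  have h15 : 5 * ((T : ℝ) * √T) * N / l = 5 * (N * (T * √T / l)) := by ring
  rw [h15]
  rw [h14] at hmain
  linarith

end EG.V
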