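import Mathlib
import Pool.Agent.Helper79.EG.Var1

/-!
# The variance of the number of multiples in short intervals
-/

set_option autoImplicit false

namespace EG.V

open Finset

lemma sum_union_prod (P : Finset ℕ) (w : ℕ → ℝ) :
    ∑ D ∈ P.powerset, ∑ D' ∈ P.powerset, ∏ p ∈ D ∪ D', w p = ∏ p ∈ P, (1 + 3 * w p) := by
  have h1 : ∀ D ∈ P.powerset, ∑ D' ∈ P.powerset, ∏ p ∈ D ∪ D', w p =
      (∏ p ∈ D, 2 * w p) * ∏ p ∈ P \ D, (1 + w p) := by
    intro D hD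
    rw [Finset.mem_powerset] at hD
    have h2 : ∀ D' ∈ P.powerset, ∏ p ∈ D ∪ D', w p =
        (∏ p ∈ D', w p) * ∏ p ∈ P \ D', (if p ∈ D then w p else 1) := by
      intro D' hD'
      rw [Finset.mem_powerset] at hD'
      rw [Finset.prod_ite, Finset.prod_const_one, mul_one]
      have e : D ∪ D' = D' ∪ (P \ D').filter (fun p => p ∈ D) := by
        ext x
        simp only [Finset.mem_union, Finset.mem_filter, Finset.mem_sdiff]
        constructor
        · rintro (h | h)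
          · by_cases hx : x ∈ D'
            · exact Or.inl hx
            · exact Or.inr ⟨⟨hD h, hx⟩, h⟩
          · exact Or.inl h
        · rintro (h | h)
          · exact Or.inr h
          · exact Or.inl h.2
      rw [e, Finset.prod_union]
      rw [Finset.disjoint_left]
      intro x hx hx'
      simp only [Finset.mem_filter, Finset.mem_sdiff] at hx'
      exact hx'.1.2 hx
    rw [Finset.sum_congr rfl h2, ← Finset.prod_add]
    rw [← Finset.prod_sdiff hD, mul_comm]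
    congr 1
    · apply Finset.prod_congr rfl
      intro p hp
      rw [if_pos hp]
      ring
    · apply Finset.prod_congr rfl
      intro p hp
      rw [if_neg (Finset.mem_sdiff.mp hp).2]
      ring
  rw [Finset.sum_congr rfl h1, ← Finset.prod_add]
  apply Finset.prod_congr rfl
  intro p _
  ring

lemma sum_union_le (P : Finset ℕ) (𝒟 : Finset (Finset ℕ)) (h𝒟 : 𝒟 ⊆ P.powerset) :
    ∑ D ∈ 𝒟, ∑ D' ∈ 𝒟, ∏ p ∈ D ∪ D', (1 / (p : ℝ)) ≤ Real.exp (3 * ∑ p ∈ P, 1 / (p : ℝ)) := by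
  have hnn : ∀ s : Finset ℕ, 0 ≤ ∏ p ∈ s, (1 / (p : ℝ)) :=
    fun s => Finset.prod_nonneg (fun _ _ => by positivity)
  calc ∑ D ∈ 𝒟, ∑ D' ∈ 𝒟, ∏ p ∈ D ∪ D', (1 / (p : ℝ))
      ≤ ∑ D ∈ P.powerset, ∑ D' ∈ P.powerset, ∏ p ∈ D ∪ D', (1 / (p : ℝ)) := by
        refine (Finset.sum_le_sum_of_subset_of_nonneg h𝒟 (fun D _ _ =>
          Finset.sum_nonneg (fun D' _ => hnn _))).trans ?_
        apply Finset.sum_le_sum
        intro D _
        exact Finset.sum_le_sum_of_subset_of_nonneg h𝒟 (fun D' _ _ => hnn _)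
    _ = ∏ p ∈ P, (1 + 3 * (1 / (p : ℝ))) := sum_union_prod P _
    _ ≤ ∏ p ∈ P, Real.exp (3 * (1 / (p : ℝ))) := by
        apply Finset.prod_le_prod
        · intro p _
          positivity
        · intro p _
          linarith [Real.add_one_le_exp (3 * (1 / (p : ℝ)))]
    _ = Real.exp (3 * ∑ p ∈ P, 1 / (p : ℝ)) := by
        rw [← Real.exp_sum, Finset.mul_sum]

/-- The variance bound. -/
theorem variance {P : Finset ℕ} {T : ℕ} (hP : ∀ p ∈ P, p.Prime) (hT : 1 ≤ T)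
    (hTP : ∀ p ∈ P, T ≤ p ^ 2) (𝒟 : Finset (Finset ℕ)) (h𝒟 : 𝒟 ⊆ P.powerset)
    (c : Finset ℕ → ℝ) (hc : ∀ D ∈ 𝒟, |c D| ≤ 2) (N : ℕ) :
    ∑ n ∈ Ioc 0 N, (∑ D ∈ 𝒟, c D * (mult T (∏ p ∈ D, p) n - (T : ℝ) / (∏ p ∈ D, p : ℕ))) ^ 2 ≤
      20 * ((T : ℝ) * √T) * N * Real.exp (3 * ∑ p ∈ P, 1 / (p : ℝ)) +
        16 * (T : ℝ) ^ 2 * (𝒟.card : ℝ) ^ 2 := by
  have hpos : ∀ D ∈ 𝒟, 0 < ∏ p ∈ D, p := by
    intro D hD
    apply Finset.prod_pos
    intro p hp
    exact (hP p (Finset.mem_powerset.mp (h𝒟 hD) hp)).pos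
  have e1 : ∑ n ∈ Ioc 0 N, (∑ D ∈ 𝒟, c D * (mult T (∏ p ∈ D, p) n - (T : ℝ) / (∏ p ∈ D, p : ℕ))) ^ 2 =
      ∑ D ∈ 𝒟, ∑ D' ∈ 𝒟, c D * c D' * ∑ n ∈ Ioc 0 N,
        (mult T (∏ p ∈ D, p) n - (T : ℝ) / (∏ p ∈ D, p : ℕ)) *
          (mult T (∏ p ∈ D', p) n - (T : ℝ) / (∏ p ∈ D', p : ℕ)) := by
    rw [Finset.sum_congr rfl (fun n _ => by rw [sq, Finset.sum_mul_sum])]
    simp only [Finset.mul_sum]
    rw [Finset.sum_comm]
    apply Finset.sum_congr rfl
    intro D _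
    rw [Finset.sum_comm]
    apply Finset.sum_congr rfl
    intro D' _
    apply Finset.sum_congr rfl
    intro n _
    ring
  rw [e1]
  have h1 : ∀ D ∈ 𝒟, ∀ D' ∈ 𝒟, c D * c D' * ∑ n ∈ Ioc 0 N,
        (mult T (∏ p ∈ D, p) n - (T : ℝ) / (∏ p ∈ D, p : ℕ)) *
          (mult T (∏ p ∈ D', p) n - (T : ℝ) / (∏ p ∈ D', p : ℕ)) ≤
      20 * ((T : ℝ) * √T) * N * ∏ p ∈ D ∪ D', (1 / (p : ℝ)) + 16 * (T : ℝ) ^ 2 := by
    intro D hD D' hD'
    have hDP := Finset.mem_powerset.mp (h𝒟 hD)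
    have hDP' := Finset.mem_powerset.mp (h𝒟 hD')
    set S := ∑ n ∈ Ioc 0 N, (mult T (∏ p ∈ D, p) n - (T : ℝ) / (∏ p ∈ D, p : ℕ)) *
          (mult T (∏ p ∈ D', p) n - (T : ℝ) / (∏ p ∈ D', p : ℕ)) with hS
    have hnn : 0 ≤ ∏ p ∈ D ∪ D', (1 / (p : ℝ)) := Finset.prod_nonneg (fun _ _ => by positivity)
    have hSb : |S| ≤ 5 * ((T : ℝ) * √T) * N * ∏ p ∈ D ∪ D', (1 / (p : ℝ)) + 4 * (T : ℝ) ^ 2 := by
      by_cases hdis : Disjoint D D'
      · have hcop : (∏ p ∈ D, p).Coprime (∏ p ∈ D', p) := by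
          apply Nat.Coprime.prod_left
          intro p hp
          apply Nat.Coprime.prod_right
          intro q hq
          rw [Nat.coprime_primes (hP p (hDP hp)) (hP q (hDP' hq))]
          rintro rfl
          exact (Finset.disjoint_left.mp hdis hp) hq
        have := corr_coprime N T _ _ (hpos D hD) (hpos D' hD') hcop
        have h0 : 0 ≤ 5 * ((T : ℝ) * √T) * N * ∏ p ∈ D ∪ D', (1 / (p : ℝ)) := by positivity
        linarith
      · rw [Finset.not_disjoint_iff] at hdis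
        obtain ⟨p, hp, hp'⟩ := hdis
        have h2 := corr_common N T _ _ p (hpos D hD) (hpos D' hD') (hP p (hDP hp)).pos
          (Finset.dvd_prod_of_mem (fun p => p) hp) (Finset.dvd_prod_of_mem (fun p => p) hp') hT
          (hTP p (hDP hp))
        refine h2.trans ?_
        have h3 : ∏ q ∈ D ∪ D', q ∣ (∏ q ∈ D, q).lcm (∏ q ∈ D', q) := by
          apply Finset.prod_primes_dvd
          · intro q hq
            rw [Finset.mem_union] at hq
            rcases hq with hq | hq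
            · exact (hP q (hDP hq)).prime
            · exact (hP q (hDP' hq)).prime
          · intro q hq
            rw [Finset.mem_union] at hq
            rcases hq with hq | hq
            · exact (Finset.dvd_prod_of_mem (fun p => p) hq).trans (Nat.dvd_lcm_left _ _)
            · exact (Finset.dvd_prod_of_mem (fun p => p) hq).trans (Nat.dvd_lcm_right _ _)
        have h4 := Nat.le_of_dvd (Nat.lcm_pos (hpos D hD) (hpos D' hD')) h3
        have h5 : (0 : ℝ) < ((∏ q ∈ D ∪ D', q : ℕ) : ℝ) := by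
          have : 0 < ∏ q ∈ D ∪ D', q := by
            apply Finset.prod_pos
            intro q hq
            rw [Finset.mem_union] at hq
            rcases hq with hq | hq
            · exact (hP q (hDP hq)).pos
            · exact (hP q (hDP' hq)).pos
          exact_mod_cast this
        have h6 : ∏ p ∈ D ∪ D', (1 / (p : ℝ)) = 1 / ((∏ q ∈ D ∪ D', q : ℕ) : ℝ) := by
          push_cast
          rw [Finset.prod_div_distrib, Finset.prod_const_one]
        rw [h6]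
        have h7 : ((∏ q ∈ D ∪ D', q : ℕ) : ℝ) ≤
            (((∏ q ∈ D, q).lcm (∏ q ∈ D', q) : ℕ) : ℝ) := by exact_mod_cast h4
        have h8 : 5 * ((T : ℝ) * √T) * N / (((∏ q ∈ D, q).lcm (∏ q ∈ D', q) : ℕ) : ℝ) ≤
            5 * ((T : ℝ) * √T) * N * (1 / ((∏ q ∈ D ∪ D', q : ℕ) : ℝ)) := by
          rw [div_eq_mul_one_div]
          gcongr
        linarith
    have hcc : |c D * c D'| ≤ 4 := by
      rw [abs_mul]
      calc |c D| * |c D'| ≤ 2 * 2 := mul_le_mul (hc D hD) (hc D' hD') (abs_nonneg _) (by norm_num)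
        _ = 4 := by norm_num
    calc c D * c D' * S ≤ |c D * c D' * S| := le_abs_self _
      _ = |c D * c D'| * |S| := abs_mul _ _
      _ ≤ 4 * (5 * ((T : ℝ) * √T) * N * ∏ p ∈ D ∪ D', (1 / (p : ℝ)) + 4 * (T : ℝ) ^ 2) :=
          mul_le_mul hcc hSb (abs_nonneg _) (by norm_num)
      _ = _ := by ring
  calc ∑ D ∈ 𝒟, ∑ D' ∈ 𝒟, c D * c D' * ∑ n ∈ Ioc 0 N,
        (mult T (∏ p ∈ D, p) n - (T : ℝ) / (∏ p ∈ D, p : ℕ)) *
          (mult T (∏ p ∈ D', p) n - (T : ℝ) / (∏ p ∈ D', p : ℕ))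
      ≤ ∑ D ∈ 𝒟, ∑ D' ∈ 𝒟, (20 * ((T : ℝ) * √T) * N * ∏ p ∈ D ∪ D', (1 / (p : ℝ)) +
          16 * (T : ℝ) ^ 2) :=
        Finset.sum_le_sum fun D hD => Finset.sum_le_sum fun D' hD' => h1 D hD D' hD'
    _ = 20 * ((T : ℝ) * √T) * N * (∑ D ∈ 𝒟, ∑ D' ∈ 𝒟, ∏ p ∈ D ∪ D', (1 / (p : ℝ))) +
          16 * (T : ℝ) ^ 2 * (𝒟.card : ℝ) ^ 2 := by
        simp only [Finset.sum_add_distrib, ← Finset.mul_sum, Finset.sum_const, nsmul_eq_mul]
        ring
    _ ≤ _ := by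
        have := sum_union_le P 𝒟 h𝒟
        gcongr

end EG.V
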