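import Mathlib
import Pool.Agent.Helper79.EG.Var2
import Pool.Agent.Helper42.EG.F
import Pool.Agent.Helper42.EG.P
import Pool.Agent.Helper79.EG.Weyl

/-!
# Short intervals with few elements having two large prime factors are rare
-/

set_option autoImplicit false

open N298f9e75

namespace EG.V

open Finset

lemma bonf (ν : ℕ) : ((ν.choose 2 : ℕ) : ℝ) - 2 * ((ν.choose 3 : ℕ) : ℝ) ≤ if 2 ≤ ν then 1 else 0 := by
  rcases Nat.lt_or_ge ν 4 with h | h
  · interval_cases ν <;> norm_num [Nat.choose]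
  · rw [if_pos (by omega)]
    have h1 : ν.choose 2 ≤ 2 * ν.choose 3 := by
      have h2 := Nat.choose_succ_right_eq ν 2
      have h3 : 2 ≤ ν - 2 := by omega
      nlinarith
    have h2 : ((ν.choose 2 : ℕ) : ℝ) ≤ 2 * ((ν.choose 3 : ℕ) : ℝ) := by exact_mod_cast h1
    linarith

/-- The families of pairs and triples with their signs. -/
def fam (P : Finset ℕ) : Finset (Finset ℕ) := powersetCard 2 P ∪ powersetCard 3 P

noncomputable def co (D : Finset ℕ) : ℝ := if D.card = 2 then 1 else -2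

lemma fam_sub (P : Finset ℕ) : fam P ⊆ P.powerset := by
  intro D hD
  unfold fam at hD
  rw [mem_union, mem_powersetCard, mem_powersetCard] at hD
  rw [mem_powerset]
  rcases hD with h | h <;> exact h.1

lemma co_le (D : Finset ℕ) : |co D| ≤ 2 := by
  unfold co
  split_ifs <;> norm_num

lemma sum_fam (P : Finset ℕ) (F : Finset ℕ → ℝ) :
    ∑ D ∈ fam P, co D * F D = ∑ D ∈ powersetCard 2 P, F D - 2 * ∑ D ∈ powersetCard 3 P, F D := by
  unfold fam
  rw [Finset.sum_union, Finset.mul_sum, sub_eq_add_neg, ← Finset.sum_neg_distrib]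
  · congr 1
    · apply Finset.sum_congr rfl
      intro D hD
      rw [mem_powersetCard] at hD
      simp [co, hD.2]
    · apply Finset.sum_congr rfl
      intro D hD
      rw [mem_powersetCard] at hD
      simp [co, hD.2]
  · rw [Finset.disjoint_left]
    intro D h1 h2
    rw [mem_powersetCard] at h1 h2
    omega

lemma card_fam (P : Finset ℕ) {T : ℕ} (hP : P ⊆ range T) (hT : 1 ≤ T) :
    ((fam P).card : ℝ) ≤ 2 * (T : ℝ) ^ 3 := by
  have h1 : P.card ≤ T := by
    have := Finset.card_le_card hP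
    rwa [card_range] at this
  have h2 : (fam P).card ≤ T ^ 2 + T ^ 3 := by
    unfold fam
    refine (Finset.card_union_le _ _).trans ?_
    rw [card_powersetCard, card_powersetCard]
    exact Nat.add_le_add ((Nat.choose_le_pow _ _).trans (Nat.pow_le_pow_left h1 2))
      ((Nat.choose_le_pow _ _).trans (Nat.pow_le_pow_left h1 3))
  have h3 : T ^ 2 ≤ T ^ 3 := Nat.pow_le_pow_right hT (by norm_num)
  have h4 : (fam P).card ≤ 2 * T ^ 3 := by omega
  exact_mod_cast h4

/-- The lower bound of `f` by the signed count. -/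
lemma f_ge {P : Finset ℕ} {T : ℕ} (hP : ∀ p ∈ P, p.Prime) (hTP : ∀ p ∈ P, T ≤ p ^ 2)
    (hPT : P ⊆ range T) (n : ℕ) :
    ∑ D ∈ fam P, co D * mult T (∏ p ∈ D, p) n ≤ (f n T : ℝ) := by
  classical
  have h0 : ∑ D ∈ fam P, co D * mult T (∏ p ∈ D, p) n =
      ∑ j ∈ Ioc 0 T, ∑ D ∈ fam P, co D * ind (∏ p ∈ D, p) (n + j) := by
    unfold mult
    simp only [Finset.mul_sum]
    rw [Finset.sum_comm]
  have hk : ∀ (m k : ℕ), ∑ D ∈ powersetCard k P, ind (∏ p ∈ D, p) m =
      (((P.filter (fun p => p ∣ m)).card.choose k : ℕ) : ℝ) := by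
    intro m k
    rw [← card_powersetCard]
    unfold ind
    rw [Finset.sum_boole]
    congr 2
    ext D
    simp only [mem_filter, mem_powersetCard]
    constructor
    · rintro ⟨⟨h1, h2⟩, h3⟩
      refine ⟨fun p hp => ?_, h2⟩
      rw [mem_filter]
      exact ⟨h1 hp, (Finset.dvd_prod_of_mem (fun p => p) hp).trans h3⟩
    · rintro ⟨h1, h2⟩
      refine ⟨⟨fun p hp => (mem_filter.mp (h1 hp)).1, h2⟩, ?_⟩
      apply Finset.prod_primes_dvd
      · intro p hp
        exact (hP p (mem_filter.mp (h1 hp)).1).prime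
      · intro p hp
        exact (mem_filter.mp (h1 hp)).2
  have h1 : ∀ m : ℕ, ∑ D ∈ fam P, co D * ind (∏ p ∈ D, p) m ≤
      if 2 ≤ (P.filter (fun p => p ∣ m)).card then 1 else 0 := by
    intro m
    rw [sum_fam, hk, hk]
    exact bonf _
  rw [h0]
  refine (Finset.sum_le_sum (fun j _ => h1 (n + j))).trans ?_
  rw [Finset.sum_boole]
  have h2 : ((Ioc 0 T).filter (fun j => 2 ≤ (P.filter (fun p => p ∣ n + j)).card)).card =
      (((Ioc 0 T).filter (fun j => 2 ≤ (P.filter (fun p => p ∣ n + j)).card)).image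
        (fun j => n + j)).card := by
    rw [Finset.card_image_of_injective]
    intro a b h
    simpa using h
  rw [h2]
  have h3 := card_le_f n T (((Ioc 0 T).filter (fun j => 2 ≤ (P.filter (fun p => p ∣ n + j)).card)).image
        (fun j => n + j)) (by
      intro m hm
      rw [mem_image] at hm
      obtain ⟨j, hj, rfl⟩ := hm
      rw [mem_filter, mem_Ioc] at hj
      rw [mem_Icc]
      omega) (by
      intro m hm
      rw [mem_image] at hm
      obtain ⟨j, hj, rfl⟩ := hm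
      rw [mem_filter, mem_Ioc] at hj
      obtain ⟨p, hp, q, hq, hpq⟩ := Finset.one_lt_card.mp (show 1 < (P.filter (fun p => p ∣ n + j)).card by
        omega)
      rw [mem_filter] at hp hq
      have h4 := mul_le_smooth (hP p hp.1) (hP q hq.1) hpq (mem_range.mp (hPT hp.1))
        (mem_range.mp (hPT hq.1)) (show n + j ≠ 0 by omega) hp.2 hq.2
      refine le_trans ?_ h4
      have h5 := hTP p hp.1
      have h6 := hTP q hq.1
      by_contra hcon
      push Not at hcon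
      have h7 : (p * q) ^ 2 < T ^ 2 := Nat.pow_lt_pow_left hcon (by norm_num)
      have h8 : T ^ 2 ≤ (p * q) ^ 2 := by
        rw [mul_pow, sq T]
        exact Nat.mul_le_mul h5 h6
      omega)
  exact_mod_cast h3

/-- Few intervals are bad. -/
theorem bad_count {P : Finset ℕ} {T : ℕ} {κ : ℝ} (hκ : 0 < κ) (hP : ∀ p ∈ P, p.Prime) (hT : 1 ≤ T)
    (hTP : ∀ p ∈ P, T ≤ p ^ 2) (hPT : P ⊆ range T) (hlam : ∑ p ∈ P, 1 / (p : ℝ) ≤ 1)
    (hmu : κ ≤ ∑ D ∈ powersetCard 2 P, ∏ p ∈ D, (1 / (p : ℝ)) -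
      2 * ∑ D ∈ powersetCard 3 P, ∏ p ∈ D, (1 / (p : ℝ))) (N : ℕ) (hN : T ^ 8 ≤ N) :
    (((Ioc 0 N).filter (fun n => (f n T : ℝ) < κ / 2 * T)).card : ℝ) ≤ 2000 / κ ^ 2 * N / √T := by
  classical
  have hT0 : (1 : ℝ) ≤ T := by exact_mod_cast hT
  have hs0 : 1 ≤ √(T : ℝ) := by rw [Real.one_le_sqrt]; exact hT0
  have hs2 : √(T : ℝ) ^ 2 = T := Real.sq_sqrt (by linarith)
  set μ : ℝ := ∑ D ∈ fam P, co D * ((T : ℝ) / (∏ p ∈ D, p : ℕ)) with hμ
  have hμ1 : κ * T ≤ μ := by
    rw [hμ, sum_fam]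
    have e : ∀ k, ∑ D ∈ powersetCard k P, (T : ℝ) / (∏ p ∈ D, p : ℕ) =
        T * ∑ D ∈ powersetCard k P, ∏ p ∈ D, (1 / (p : ℝ)) := by
      intro k
      rw [Finset.mul_sum]
      apply Finset.sum_congr rfl
      intro D _
      push_cast
      rw [Finset.prod_div_distrib, Finset.prod_const_one]
      ring
    rw [e, e]
    nlinarith
  have hV := variance hP hT hTP (fam P) (fam_sub P) co (fun D _ => co_le D) N
  have h1 : ∀ n, (∑ D ∈ fam P, co D * (mult T (∏ p ∈ D, p) n - (T : ℝ) / (∏ p ∈ D, p : ℕ))) =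
      ∑ D ∈ fam P, co D * mult T (∏ p ∈ D, p) n - μ := by
    intro n
    rw [hμ, ← Finset.sum_sub_distrib]
    apply Finset.sum_congr rfl
    intro D _
    ring
  simp only [h1] at hV
  set B := (Ioc 0 N).filter (fun n => (f n T : ℝ) < κ / 2 * T) with hB
  have h2 : (B.card : ℝ) * (κ / 2 * T) ^ 2 ≤
      ∑ n ∈ Ioc 0 N, (∑ D ∈ fam P, co D * mult T (∏ p ∈ D, p) n - μ) ^ 2 := by
    calc (B.card : ℝ) * (κ / 2 * T) ^ 2 = ∑ n ∈ B, (κ / 2 * (T : ℝ)) ^ 2 := by
          rw [Finset.sum_const, nsmul_eq_mul]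
      _ ≤ ∑ n ∈ B, (∑ D ∈ fam P, co D * mult T (∏ p ∈ D, p) n - μ) ^ 2 := by
          apply Finset.sum_le_sum
          intro n hn
          rw [hB, mem_filter] at hn
          have h3 := f_ge hP hTP hPT n
          have h4 : κ / 2 * T ≤ μ - ∑ D ∈ fam P, co D * mult T (∏ p ∈ D, p) n := by linarith [hn.2]
          have h5 : 0 ≤ κ / 2 * T := by positivity
          nlinarith
      _ ≤ ∑ n ∈ Ioc 0 N, (∑ D ∈ fam P, co D * mult T (∏ p ∈ D, p) n - μ) ^ 2 :=
          Finset.sum_le_sum_of_subset_of_nonneg (Finset.filter_subset _ _) (fun _ _ _ => sq_nonneg _)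
  have hexp : Real.exp (3 * ∑ p ∈ P, 1 / (p : ℝ)) ≤ 21 := by
    calc Real.exp (3 * ∑ p ∈ P, 1 / (p : ℝ)) ≤ Real.exp 3 := by
          apply Real.exp_le_exp.mpr
          linarith
      _ = Real.exp 1 ^ 3 := by rw [← Real.exp_nat_mul]; norm_num
      _ ≤ 2.7182818286 ^ 3 := by
          gcongr
          exact Real.exp_one_lt_d9.le
      _ ≤ 21 := by norm_num
  have hcard := card_fam P hPT hT
  have hNT : (T : ℝ) ^ 8 ≤ N := by exact_mod_cast hN
  have hN0 : (0 : ℝ) ≤ N := Nat.cast_nonneg _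
  have hV2 : 20 * ((T : ℝ) * √T) * N * Real.exp (3 * ∑ p ∈ P, 1 / (p : ℝ)) +
        16 * (T : ℝ) ^ 2 * ((fam P).card : ℝ) ^ 2 ≤ 484 * ((T : ℝ) * √T) * N := by
    calc 20 * ((T : ℝ) * √T) * N * Real.exp (3 * ∑ p ∈ P, 1 / (p : ℝ)) +
        16 * (T : ℝ) ^ 2 * ((fam P).card : ℝ) ^ 2
        ≤ 20 * ((T : ℝ) * √T) * N * 21 + 16 * (T : ℝ) ^ 2 * (2 * (T : ℝ) ^ 3) ^ 2 := by gcongr
      _ = 420 * ((T : ℝ) * √T) * N + 64 * 1 * (T : ℝ) ^ 8 := by ring
      _ ≤ 420 * ((T : ℝ) * √T) * N + 64 * (T * √T) * N := by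
          gcongr
          exact one_le_mul_of_one_le_of_one_le hT0 hs0
      _ = 484 * ((T : ℝ) * √T) * N := by ring
  have h3 : (B.card : ℝ) * (κ / 2 * T) ^ 2 ≤ 484 * ((T : ℝ) * √T) * N := h2.trans (hV.trans hV2)
  rw [le_div_iff₀ (by linarith), div_mul_eq_mul_div, le_div_iff₀ (by positivity)]
  have h4 : (B.card : ℝ) * √T * κ ^ 2 * (T * √T) ≤ 2000 * N * (T * √T) := by
    calc (B.card : ℝ) * √T * κ ^ 2 * (T * √T) = 4 * (B.card * (κ / 2 * T) ^ 2) := by
          have : (B.card : ℝ) * √T * κ ^ 2 * (T * √T) = B.card * κ ^ 2 * T * √T ^ 2 := by ring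
          rw [this, hs2]
          ring
      _ ≤ 4 * (484 * ((T : ℝ) * √T) * N) := by gcongr
      _ = 1936 * N * (T * √T) := by ring
      _ ≤ 2000 * N * (T * √T) := by gcongr; norm_num
  exact le_of_mul_le_mul_right h4 (by positivity)

/-! ### The sets of primes -/

lemma esymm_succ_le (w : ℕ → ℝ) (hw : ∀ p, 0 ≤ w p) (P : Finset ℕ) : ∀ k : ℕ,
    ∑ D ∈ powersetCard (k + 1) P, ∏ p ∈ D, w p ≤
      (∑ p ∈ P, w p) * ∑ D ∈ powersetCard k P, ∏ p ∈ D, w p := by
  classical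
  induction P using Finset.induction_on with
  | empty =>
    intro k
    rw [Finset.powersetCard_eq_empty.mpr (by simp)]
    simp
  | insert a P ha ih =>
    intro k
    have hsum : ∀ m, ∑ D ∈ powersetCard (m + 1) (insert a P), ∏ p ∈ D, w p =
        ∑ D ∈ powersetCard (m + 1) P, ∏ p ∈ D, w p + w a * ∑ D ∈ powersetCard m P, ∏ p ∈ D, w p := by
      intro m
      rw [Finset.powersetCard_succ_insert ha, Finset.sum_union, Finset.sum_image, Finset.mul_sum]
      · congr 1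
        apply Finset.sum_congr rfl
        intro D hD
        rw [mem_powersetCard] at hD
        rw [Finset.prod_insert (fun h => ha (hD.1 h))]
      · intro D hD D' hD' h
        rw [mem_coe, mem_powersetCard] at hD hD'
        have h1 : (insert a D).erase a = (insert a D').erase a := by rw [h]
        rwa [Finset.erase_insert (fun h => ha (hD.1 h)),
          Finset.erase_insert (fun h => ha (hD'.1 h))] at h1
      · rw [Finset.disjoint_left]
        intro D h1 h2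
        rw [mem_powersetCard] at h1
        rw [mem_image] at h2
        obtain ⟨D', _, rfl⟩ := h2
        exact ha (h1.1 (mem_insert_self _ _))
    have hnn : ∀ (m : ℕ) (Q : Finset ℕ), 0 ≤ ∑ D ∈ powersetCard m Q, ∏ p ∈ D, w p :=
      fun m Q => Finset.sum_nonneg (fun _ _ => Finset.prod_nonneg (fun p _ => hw p))
    have hmono : ∑ D ∈ powersetCard k P, ∏ p ∈ D, w p ≤
        ∑ D ∈ powersetCard k (insert a P), ∏ p ∈ D, w p :=
      Finset.sum_le_sum_of_subset_of_nonneg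
        (Finset.powersetCard_mono (Finset.subset_insert a P))
        (fun _ _ _ => Finset.prod_nonneg (fun p _ => hw p))
    rw [hsum, Finset.sum_insert ha]
    have h1 := ih k
    have h2 : 0 ≤ ∑ p ∈ P, w p := Finset.sum_nonneg (fun p _ => hw p)
    have h3 := hw a
    calc ∑ D ∈ powersetCard (k + 1) P, ∏ p ∈ D, w p + w a * ∑ D ∈ powersetCard k P, ∏ p ∈ D, w p
        ≤ (∑ p ∈ P, w p) * ∑ D ∈ powersetCard k P, ∏ p ∈ D, w p +
          w a * ∑ D ∈ powersetCard k P, ∏ p ∈ D, w p := by linarith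
      _ = (w a + ∑ p ∈ P, w p) * ∑ D ∈ powersetCard k P, ∏ p ∈ D, w p := by ring
      _ ≤ (w a + ∑ p ∈ P, w p) * ∑ D ∈ powersetCard k (insert a P), ∏ p ∈ D, w p := by
          gcongr

lemma esymm_three (w : ℕ → ℝ) (hw : ∀ p, 0 ≤ w p) (P : Finset ℕ) :
    ∑ D ∈ powersetCard 3 P, ∏ p ∈ D, w p ≤ (∑ p ∈ P, w p) ^ 3 := by
  have h1 := esymm_succ_le w hw P 0
  have h2 := esymm_succ_le w hw P 1
  have h3 := esymm_succ_le w hw P 2
  have hs : 0 ≤ ∑ p ∈ P, w p := Finset.sum_nonneg (fun p _ => hw p)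
  simp only [Finset.powersetCard_zero, Finset.sum_singleton, Finset.prod_empty, mul_one,
    zero_add] at h1
  calc ∑ D ∈ powersetCard 3 P, ∏ p ∈ D, w p
      ≤ (∑ p ∈ P, w p) * ∑ D ∈ powersetCard 2 P, ∏ p ∈ D, w p := h3
    _ ≤ (∑ p ∈ P, w p) * ((∑ p ∈ P, w p) * ∑ D ∈ powersetCard 1 P, ∏ p ∈ D, w p) := by gcongr
    _ ≤ (∑ p ∈ P, w p) * ((∑ p ∈ P, w p) * (∑ p ∈ P, w p)) := by gcongr
    _ = (∑ p ∈ P, w p) ^ 3 := by ring

lemma esymm_two (w : ℕ → ℝ) (hw : ∀ p, 0 ≤ w p) (P₁ P₂ : Finset ℕ) (hd : Disjoint P₁ P₂) :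
    (∑ p ∈ P₁, w p) * ∑ p ∈ P₂, w p ≤ ∑ D ∈ powersetCard 2 (P₁ ∪ P₂), ∏ p ∈ D, w p := by
  classical
  have hinj : Set.InjOn (fun u : ℕ × ℕ => ({u.1, u.2} : Finset ℕ)) ((P₁ ×ˢ P₂ : Finset (ℕ × ℕ)) : Set (ℕ × ℕ)) := by
    rintro ⟨p, q⟩ h ⟨p', q'⟩ h' he
    rw [mem_coe, mem_product] at h h'
    simp only at h h' he
    have hpq : ∀ x ∈ P₁, ∀ y ∈ P₂, x ≠ y := by
      rintro x hx y hy rfl
      exact (Finset.disjoint_left.mp hd hx) hy
    have h1 : p ∈ ({p', q'} : Finset ℕ) := by rw [← he]; simp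
    have h2 : q ∈ ({p', q'} : Finset ℕ) := by rw [← he]; simp
    rw [mem_insert, mem_singleton] at h1 h2
    have h3 : p = p' := h1.resolve_right (hpq p h.1 q' h'.2)
    have h4 : q = q' := h2.resolve_left (fun h5 => hpq p' h'.1 q h.2 h5.symm)
    rw [h3, h4]
  calc (∑ p ∈ P₁, w p) * ∑ p ∈ P₂, w p = ∑ u ∈ P₁ ×ˢ P₂, w u.1 * w u.2 := by
        rw [Finset.sum_mul_sum, Finset.sum_product]
    _ = ∑ u ∈ P₁ ×ˢ P₂, ∏ p ∈ ({u.1, u.2} : Finset ℕ), w p := by
        apply Finset.sum_congr rfl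
        intro u hu
        rw [mem_product] at hu
        rw [Finset.prod_pair]
        intro h
        rw [h] at hu
        exact (Finset.disjoint_left.mp hd hu.1) hu.2
    _ = ∑ D ∈ (P₁ ×ˢ P₂).image (fun u : ℕ × ℕ => ({u.1, u.2} : Finset ℕ)), ∏ p ∈ D, w p := by
        rw [Finset.sum_image hinj]
    _ ≤ ∑ D ∈ powersetCard 2 (P₁ ∪ P₂), ∏ p ∈ D, w p := by
        apply Finset.sum_le_sum_of_subset_of_nonneg
        · intro D hD
          rw [mem_image] at hD
          obtain ⟨u, hu, rfl⟩ := hD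
          rw [mem_product] at hu
          rw [mem_powersetCard]
          constructor
          · intro x hx
            rw [mem_insert, mem_singleton] at hx
            rw [mem_union]
            rcases hx with rfl | rfl
            · exact Or.inl hu.1
            · exact Or.inr hu.2
          · rw [Finset.card_pair]
            intro h
            rw [h] at hu
            exact (Finset.disjoint_left.mp hd hu.1) hu.2
        · intro D _ _
          exact Finset.prod_nonneg (fun p _ => hw p)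

lemma exists_subset_sum (w : ℕ → ℝ) {κ : ℝ} (hκ : 0 ≤ κ) (S : Finset ℕ) :
    (∀ p ∈ S, w p ≤ κ / 2) → κ / 2 ≤ ∑ p ∈ S, w p →
      ∃ S' ⊆ S, κ / 2 ≤ ∑ p ∈ S', w p ∧ ∑ p ∈ S', w p ≤ κ := by
  classical
  induction S using Finset.induction_on with
  | empty =>
    intro _ h
    refine ⟨∅, le_rfl, h, ?_⟩
    simp only [Finset.sum_empty] at h ⊢
    linarith
  | insert a S ha ih =>
    intro h1 h2
    by_cases h3 : ∑ p ∈ insert a S, w p ≤ κ
    · exact ⟨insert a S, le_rfl, h2, h3⟩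
    · push Not at h3
      rw [Finset.sum_insert ha] at h3
      have h4 := h1 a (mem_insert_self _ _)
      obtain ⟨S', h5, h6⟩ := ih (fun p hp => h1 p (mem_insert_of_mem hp)) (by linarith)
      exact ⟨S', h5.trans (subset_insert _ _), h6⟩

end EG.V
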