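import Mathlib
import Pool.Agent.Helper79.EG.Var3
import Pool.Agent.Helper79.EG.Main

/-!
# The lower bound for almost all `n`
-/

set_option autoImplicit false

open N298f9e75

namespace EG.V

open Finset

/-- Two disjoint sets of primes in `[√T, T)` with given sums of reciprocals. -/
lemma prime_sets : ∃ κ : ℝ, 0 < κ ∧ κ ≤ 1 / 128 ∧ ∃ T₀ : ℕ, 1 ≤ T₀ ∧ ∀ T : ℕ, T₀ ≤ T →
    ∃ P₁ P₂ : Finset ℕ, Disjoint P₁ P₂ ∧ (∀ p ∈ P₁ ∪ P₂, p.Prime) ∧ (∀ p ∈ P₁ ∪ P₂, T ≤ p ^ 2) ∧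
      P₁ ∪ P₂ ⊆ range T ∧ κ / 2 ≤ ∑ p ∈ P₁, 1 / (p : ℝ) ∧ ∑ p ∈ P₁, 1 / (p : ℝ) ≤ κ ∧
      κ / 2 ≤ ∑ p ∈ P₂, 1 / (p : ℝ) ∧ ∑ p ∈ P₂, 1 / (p : ℝ) ≤ κ := by
  classical
  obtain ⟨c₁, hc₁, i₀, hi₀, hprime⟩ := primes_block
  obtain ⟨κ, hκ⟩ : ∃ κ : ℝ, κ = min (1 / 128) (c₁ / 32) := ⟨_, rfl⟩
  have hκ0 : 0 < κ := by rw [hκ]; positivity
  have hκ1 : κ ≤ 1 / 128 := by rw [hκ]; exact min_le_left _ _
  have hκ2 : κ ≤ c₁ / 32 := by rw [hκ]; exact min_le_right _ _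
  refine ⟨κ, hκ0, hκ1, ?_⟩
  obtain ⟨T1, hT1⟩ : ∃ T1 : ℕ, ∀ t : ℕ, T1 ≤ t → max (2 * (i₀ : ℝ)) 16 ≤ Real.log t / Real.log 4 := by
    have h1 : Filter.Tendsto (fun t : ℕ => Real.log t / Real.log 4) Filter.atTop Filter.atTop :=
      (Real.tendsto_log_atTop.comp tendsto_natCast_atTop_atTop).atTop_div_const
        (Real.log_pos (by norm_num))
    exact Filter.eventually_atTop.mp (h1.eventually_ge_atTop _)
  obtain ⟨T2, hT2⟩ := exists_large (e := 1 / 2) (by norm_num) (2 / κ)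
  refine ⟨max (max T1 T2) 4, by omega, ?_⟩
  intro t ht
  have ht4 : 4 ≤ t := by omega
  have ht1 : (1 : ℝ) < t := by
    have : (4 : ℝ) ≤ t := by exact_mod_cast ht4
    linarith
  have ht0 : (0 : ℝ) < t := by linarith
  have hlog4 : 0 < Real.log 4 := Real.log_pos (by norm_num)
  have hlogt : 0 < Real.log t := Real.log_pos ht1
  set L : ℝ := Real.log t / Real.log 4 with hL
  have hL0 : 0 < L := by positivity
  have hLi : 2 * (i₀ : ℝ) ≤ L := (le_max_left _ _).trans (hT1 t (by omega))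
  have hL16 : 16 ≤ L := (le_max_right _ _).trans (hT1 t (by omega))
  have h4L : (4 : ℝ) ^ L = t := by
    rw [hL, Real.rpow_def_of_pos (by norm_num), mul_div_cancel₀ _ hlog4.ne', Real.exp_log ht0]
  set a : ℕ := ⌈L / 2⌉₊ with ha
  set m : ℕ := ⌊L / 8⌋₊ with hm
  have haL : L / 2 ≤ a := Nat.le_ceil _
  have haL2 : (a : ℝ) < L / 2 + 1 := Nat.ceil_lt_add_one (by positivity)
  have hmL : (m : ℝ) ≤ L / 8 := Nat.floor_le (by positivity)
  have hmL2 : L / 16 ≤ m := by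
    have := Nat.lt_floor_add_one (L / 8)
    rw [← hm] at this
    linarith
  have hidx : ∀ i : ℕ, a ≤ i → i < a + 2 * m → (t : ℝ) ^ (1 / 2 : ℝ) ≤ ((4 ^ i : ℕ) : ℝ) ∧
      ((4 ^ (i + 1) : ℕ) : ℝ) < t ∧ i₀ ≤ i ∧ (i : ℝ) ≤ L := by
    intro i h1 h2
    have h1' : (a : ℝ) ≤ i := by exact_mod_cast h1
    have h2' : (i : ℝ) + 1 ≤ a + 2 * m := by
      have : i + 1 ≤ a + 2 * m := by omega
      exact_mod_cast this
    have h3 : (i : ℝ) + 1 < L := by linarith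
    refine ⟨?_, ?_, ?_, ?_⟩
    · push_cast
      rw [← h4L, ← Real.rpow_mul (by norm_num), ← Real.rpow_natCast]
      apply Real.rpow_le_rpow_of_exponent_le (by norm_num)
      linarith
    · push_cast
      rw [← h4L, ← Real.rpow_natCast]
      apply Real.rpow_lt_rpow_of_exponent_lt (by norm_num)
      push_cast
      exact h3
    · have : (i₀ : ℝ) ≤ i := by linarith
      exact_mod_cast this
    · linarith
  let Pr : ℕ → Finset ℕ := fun i => (Ioc (4 ^ i) (4 ^ (i + 1))).filter Nat.Prime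
  -- sums over blocks
  have hsum : ∀ b : ℕ, a ≤ b → b + m ≤ a + 2 * m →
      κ / 2 ≤ ∑ p ∈ (Ico b (b + m)).biUnion Pr, 1 / (p : ℝ) := by
    intro b hb1 hb2
    rw [Finset.sum_biUnion]
    · have h1 : ∀ i ∈ Ico b (b + m), c₁ / (4 * L) ≤ ∑ p ∈ Pr i, 1 / (p : ℝ) := by
        intro i hi
        rw [mem_Ico] at hi
        obtain ⟨p1, p2, p3, p4⟩ := hidx i (by omega) (by omega)
        have hi1 : (0 : ℝ) < i := by
          have : 0 < i := by omega
          exact_mod_cast this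
        have hpos : (0 : ℝ) < ((4 ^ (i + 1) : ℕ) : ℝ) := by positivity
        calc c₁ / (4 * L) ≤ c₁ / (4 * i) := by gcongr
          _ = (c₁ * 4 ^ i / i) * (1 / ((4 ^ (i + 1) : ℕ) : ℝ)) := by
              push_cast
              rw [pow_succ]
              field_simp
          _ ≤ ((Pr i).card : ℝ) * (1 / ((4 ^ (i + 1) : ℕ) : ℝ)) := by
              gcongr
              exact hprime i p3
          _ = ∑ p ∈ Pr i, (1 / ((4 ^ (i + 1) : ℕ) : ℝ)) := by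
              rw [Finset.sum_const, nsmul_eq_mul]
          _ ≤ ∑ p ∈ Pr i, 1 / (p : ℝ) := by
              apply Finset.sum_le_sum
              intro p hp
              have hp' := mem_filter.mp hp
              rw [mem_Ioc] at hp'
              have h2 : (0 : ℝ) < p := by exact_mod_cast hp'.2.pos
              have h3 : (p : ℝ) ≤ ((4 ^ (i + 1) : ℕ) : ℝ) := by exact_mod_cast hp'.1.2
              exact one_div_le_one_div_of_le h2 h3
      calc κ / 2 ≤ c₁ / 64 := by linarith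
        _ = (L / 16) * (c₁ / (4 * L)) := by field_simp; norm_num
        _ ≤ m * (c₁ / (4 * L)) := by gcongr
        _ = ∑ i ∈ Ico b (b + m), c₁ / (4 * L) := by
            rw [Finset.sum_const, nsmul_eq_mul, Nat.card_Ico]
            simp
        _ ≤ ∑ i ∈ Ico b (b + m), ∑ p ∈ Pr i, 1 / (p : ℝ) := Finset.sum_le_sum h1
    · intro i _ j _ hij
      rw [Function.onFun, Finset.disjoint_left]
      intro p hp hp'
      exact hij (block_unique (mem_filter.mp hp).1 (mem_filter.mp hp').1)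
  -- properties of the primes
  have hprop : ∀ b : ℕ, a ≤ b → b + m ≤ a + 2 * m → ∀ p ∈ (Ico b (b + m)).biUnion Pr,
      p.Prime ∧ t ≤ p ^ 2 ∧ p < t ∧ 1 / (p : ℝ) ≤ κ / 2 := by
    intro b hb1 hb2 p hp
    rw [mem_biUnion] at hp
    obtain ⟨i, hi, hp⟩ := hp
    rw [mem_Ico] at hi
    obtain ⟨p1, p2, p3, p4⟩ := hidx i (by omega) (by omega)
    have hp' := mem_filter.mp hp
    rw [mem_Ioc] at hp'
    have h1 : (t : ℝ) ^ (1 / 2 : ℝ) ≤ p := by
      refine p1.trans ?_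
      exact_mod_cast hp'.1.1.le
    have hp0 : (0 : ℝ) < p := by exact_mod_cast hp'.2.pos
    refine ⟨hp'.2, ?_, ?_, ?_⟩
    · have h2 : ((t : ℝ) ^ (1 / 2 : ℝ)) ^ 2 ≤ (p : ℝ) ^ 2 := by gcongr
      have e : ((t : ℝ) ^ (1 / 2 : ℝ)) ^ 2 = t := by
        rw [← Real.rpow_natCast, ← Real.rpow_mul ht0.le]
        norm_num
      rw [e] at h2
      exact_mod_cast h2
    · have h2 : (p : ℝ) ≤ ((4 ^ (i + 1) : ℕ) : ℝ) := by exact_mod_cast hp'.1.2
      exact_mod_cast h2.trans_lt p2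
    · have h2 := (hT2 t (by omega)).trans h1
      rw [div_le_iff₀ hp0]
      rw [div_le_iff₀ hκ0] at h2
      linarith
  obtain ⟨P₁, hP₁, hP₁a, hP₁b⟩ := exists_subset_sum (fun p => 1 / (p : ℝ)) hκ0.le
    ((Ico a (a + m)).biUnion Pr) (fun p hp => (hprop a le_rfl (by omega) p hp).2.2.2)
    (hsum a le_rfl (by omega))
  obtain ⟨P₂, hP₂, hP₂a, hP₂b⟩ := exists_subset_sum (fun p => 1 / (p : ℝ)) hκ0.le
    ((Ico (a + m) (a + m + m)).biUnion Pr)
    (fun p hp => (hprop (a + m) (by omega) (by omega) p hp).2.2.2)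
    (hsum (a + m) (by omega) (by omega))
  have hall : ∀ p ∈ P₁ ∪ P₂, p.Prime ∧ t ≤ p ^ 2 ∧ p < t ∧ 1 / (p : ℝ) ≤ κ / 2 := by
    intro p hp
    rw [mem_union] at hp
    rcases hp with hp | hp
    · exact hprop a le_rfl (by omega) p (hP₁ hp)
    · exact hprop (a + m) (by omega) (by omega) p (hP₂ hp)
  refine ⟨P₁, P₂, ?_, fun p hp => (hall p hp).1, fun p hp => (hall p hp).2.1,
    fun p hp => mem_range.mpr (hall p hp).2.2.1, hP₁a, hP₁b, hP₂a, hP₂b⟩
  rw [Finset.disjoint_left]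
  intro p hp hp'
  have h1 := hP₁ hp
  have h2 := hP₂ hp'
  rw [mem_biUnion] at h1 h2
  obtain ⟨i, hi, hpi⟩ := h1
  obtain ⟨j, hj, hpj⟩ := h2
  have h3 := block_unique (mem_filter.mp hpi).1 (mem_filter.mp hpj).1
  rw [mem_Ico] at hi hj
  omega

/-- For fixed length, the bound holds for most `n`. -/
theorem almost_fixed : ∃ c C : ℝ, 0 < c ∧ 0 < C ∧ ∃ T₀ : ℕ, 1 ≤ T₀ ∧ ∀ T : ℕ, T₀ ≤ T → ∀ N : ℕ,
    T ^ 8 ≤ N → (((Ioc 0 N).filter (fun n => (f n T : ℝ) < c * T)).card : ℝ) ≤ C * N / √T := by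
  obtain ⟨κ, hκ0, hκ1, T₀, hT₀, h⟩ := prime_sets
  refine ⟨κ ^ 2 / 8 / 2, 2000 / (κ ^ 2 / 8) ^ 2, by positivity, by positivity, T₀, hT₀, ?_⟩
  intro T hT N hN
  obtain ⟨P₁, P₂, hd, h1, h2, h3, h4, h5, h6, h7⟩ := h T hT
  have hsum : ∑ p ∈ P₁ ∪ P₂, 1 / (p : ℝ) = ∑ p ∈ P₁, 1 / (p : ℝ) + ∑ p ∈ P₂, 1 / (p : ℝ) :=
    Finset.sum_union hd
  have h2' := esymm_two (fun p => 1 / (p : ℝ)) (fun p => by positivity) P₁ P₂ hd
  have h3' := esymm_three (fun p => 1 / (p : ℝ)) (fun p => by positivity) (P₁ ∪ P₂)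
  beta_reduce at h2' h3'
  have hs0 : 0 ≤ ∑ p ∈ P₁ ∪ P₂, 1 / (p : ℝ) := Finset.sum_nonneg (fun _ _ => by positivity)
  have hs2 : ∑ p ∈ P₁ ∪ P₂, 1 / (p : ℝ) ≤ 2 * κ := by rw [hsum]; linarith
  refine bad_count (P := P₁ ∪ P₂) (by positivity) h1 (by omega) h2 h3 (by linarith) ?_ N hN
  have h8 : (κ / 2) * (κ / 2) ≤ (∑ p ∈ P₁, 1 / (p : ℝ)) * ∑ p ∈ P₂, 1 / (p : ℝ) := by gcongr
  have h9 : (∑ p ∈ P₁ ∪ P₂, 1 / (p : ℝ)) ^ 3 ≤ (2 * κ) ^ 3 := by gcongr
  have h10 : κ ^ 3 ≤ κ ^ 2 * (1 / 128) := by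
    calc κ ^ 3 = κ ^ 2 * κ := by ring
      _ ≤ κ ^ 2 * (1 / 128) := by gcongr
  nlinarith

/-! ### Monotonicity in `t` -/

lemma smooth_smooth {T t m : ℕ} (hTt : T ≤ t) :
    smoothComponent T (smoothComponent t m) = smoothComponent T m := by
  unfold smoothComponent
  have h1 : (m.primeFactorsList.filter (· < t)).Perm
      (m.primeFactorsList.filter (· < t)).prod.primeFactorsList := by
    apply Nat.primeFactorsList_unique rfl
    intro p hp
    rw [List.mem_filter] at hp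
    exact Nat.prime_of_mem_primeFactorsList hp.1
  have h2 := (h1.filter (fun x => decide (x < T))).prod_eq
  rw [← h2, List.filter_filter]
  congr 1
  apply List.filter_congr
  intro x _
  by_cases h : x < T
  · have : x < t := by omega
    simp [h, this]
  · simp [h]

lemma f_mono {n T t : ℕ} (hTt : T ≤ t) : f n T ≤ f n t := by
  unfold f
  have h1 : (Icc (n + 1) (n + T)).image (smoothComponent T) ⊆
      ((Icc (n + 1) (n + t)).image (smoothComponent t)).image (smoothComponent T) := by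
    intro v hv
    rw [mem_image] at hv
    obtain ⟨m, hm, rfl⟩ := hv
    rw [mem_Icc] at hm
    rw [mem_image]
    refine ⟨smoothComponent t m, ?_, smooth_smooth hTt⟩
    rw [mem_image]
    exact ⟨m, mem_Icc.mpr (by omega), rfl⟩
  exact (Finset.card_le_card h1).trans Finset.card_image_le

open Classical in
/-- For almost all `n` the bound holds for all `t ≥ t₀`. -/
theorem almost : ∃ c C : ℝ, 0 < c ∧ 0 < C ∧ ∀ N t₀ : ℕ, 1 ≤ t₀ →
    (((Icc 1 N).filter (fun n => ∃ t : ℕ, t₀ ≤ t ∧ (f n t : ℝ) < c * t)).card : ℝ) ≤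
      C * N / √t₀ := by
  obtain ⟨c₂, C₂, hc₂, hC₂, T₀, hT₀, h2⟩ := almost_fixed
  obtain ⟨c₈, hc₈, h8⟩ := EG.main 8
  refine ⟨min c₂ c₈ / 2, 6 * C₂ + √(2 * T₀ : ℝ), by positivity, by positivity, ?_⟩
  intro N t₀ ht₀
  have ht₀' : (1 : ℝ) ≤ t₀ := by exact_mod_cast ht₀
  have hst : 0 < √(t₀ : ℝ) := Real.sqrt_pos.mpr (by linarith)
  have hN0 : (0 : ℝ) ≤ N := Nat.cast_nonneg _
  by_cases hsmall : t₀ ≤ 2 * T₀
  · have h1 : (((Icc 1 N).filter (fun n => ∃ t : ℕ, t₀ ≤ t ∧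
        (f n t : ℝ) < min c₂ c₈ / 2 * t)).card : ℝ) ≤ N := by
      have := Finset.card_filter_le (Icc 1 N) (fun n => ∃ t : ℕ, t₀ ≤ t ∧
        (f n t : ℝ) < min c₂ c₈ / 2 * t)
      rw [Nat.card_Icc] at this
      have h3 : ((Icc 1 N).filter (fun n => ∃ t : ℕ, t₀ ≤ t ∧
        (f n t : ℝ) < min c₂ c₈ / 2 * t)).card ≤ N := by omega
      exact_mod_cast h3
    refine h1.trans ?_
    rw [le_div_iff₀ hst]
    have h3 : √(t₀ : ℝ) ≤ √(2 * T₀ : ℝ) := by
      apply Real.sqrt_le_sqrt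
      exact_mod_cast hsmall
    have h4 : 0 ≤ 6 * C₂ * N := by positivity
    nlinarith
  · push Not at hsmall
    set j₀ := Nat.log 2 t₀ with hj₀
    have hj₀1 : 2 ^ j₀ ≤ t₀ := Nat.pow_log_le_self 2 (by omega)
    have hj₀2 : t₀ < 2 ^ (j₀ + 1) := Nat.lt_pow_succ_log_self (by norm_num) t₀
    have hsub : (Icc 1 N).filter (fun n => ∃ t : ℕ, t₀ ≤ t ∧
        (f n t : ℝ) < min c₂ c₈ / 2 * t) ⊆ (Ico j₀ (N + j₀)).biUnion (fun j =>
          if (2 ^ j) ^ 8 ≤ N then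
            (Ioc 0 N).filter (fun n => (f n (2 ^ j) : ℝ) < c₂ * ((2 ^ j : ℕ) : ℝ)) else ∅) := by
      intro n hn
      rw [mem_filter, mem_Icc] at hn
      obtain ⟨hn, t, ht, hft⟩ := hn
      rw [mem_biUnion]
      set j := Nat.log 2 t with hj
      have hj1 : 2 ^ j ≤ t := Nat.pow_log_le_self 2 (by omega)
      have hj2 : t < 2 ^ (j + 1) := Nat.lt_pow_succ_log_self (by norm_num) t
      have hjj : j₀ ≤ j := Nat.log_mono_right ht
      have h3 : (f n (2 ^ j) : ℝ) < min c₂ c₈ * ((2 ^ j : ℕ) : ℝ) := by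
        have h4 : (f n (2 ^ j) : ℝ) ≤ f n t := by exact_mod_cast f_mono hj1
        have h5 : (t : ℝ) ≤ 2 * ((2 ^ j : ℕ) : ℝ) := by
          have : t ≤ 2 * 2 ^ j := by rw [← pow_succ']; omega
          exact_mod_cast this
        have h6 : 0 < min c₂ c₈ := lt_min hc₂ hc₈
        calc (f n (2 ^ j) : ℝ) ≤ f n t := h4
          _ < min c₂ c₈ / 2 * t := hft
          _ ≤ min c₂ c₈ / 2 * (2 * ((2 ^ j : ℕ) : ℝ)) := by gcongr
          _ = min c₂ c₈ * ((2 ^ j : ℕ) : ℝ) := by ring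
      have h7 : (2 ^ j) ^ 8 < n := by
        by_contra hcon
        push Not at hcon
        have h9 := h8 n (2 ^ j) Nat.one_le_two_pow hcon
        have h10 : min c₂ c₈ * ((2 ^ j : ℕ) : ℝ) ≤ c₈ * ((2 ^ j : ℕ) : ℝ) := by
          gcongr
          exact min_le_right _ _
        linarith
      have h11 : (2 ^ j) ^ 8 ≤ N := by omega
      refine ⟨j, ?_, ?_⟩
      · rw [mem_Ico]
        refine ⟨hjj, ?_⟩
        have h12 : j < 2 ^ j := Nat.lt_two_pow_self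
        have h13 : 2 ^ j ≤ (2 ^ j) ^ 8 := Nat.le_self_pow (by norm_num) _
        omega
      · rw [if_pos h11, mem_filter, mem_Ioc]
        refine ⟨by omega, h3.trans_le ?_⟩
        gcongr
        exact min_le_left _ _
    have hbound : ∀ j ∈ Ico j₀ (N + j₀), (((if (2 ^ j) ^ 8 ≤ N then
            (Ioc 0 N).filter (fun n => (f n (2 ^ j) : ℝ) < c₂ * ((2 ^ j : ℕ) : ℝ)) else ∅) :
              Finset ℕ).card : ℝ) ≤ C₂ * N * (1 / √2) ^ j := by
      intro j hj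
      rw [mem_Ico] at hj
      split_ifs with hc
      · have hTj : T₀ ≤ 2 ^ j := by
          have h3 : 2 ^ j₀ ≤ 2 ^ j := Nat.pow_le_pow_right (by norm_num) hj.1
          have h4 : 2 ^ (j₀ + 1) = 2 * 2 ^ j₀ := pow_succ' 2 j₀
          omega
        refine (h2 (2 ^ j) hTj N hc).trans (le_of_eq ?_)
        have h5 : √(((2 ^ j : ℕ) : ℝ)) = √2 ^ j := by
          push_cast
          rw [Real.sqrt_eq_iff_mul_self_eq (by positivity) (by positivity), ← mul_pow,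
            Real.mul_self_sqrt (by norm_num)]
        rw [h5, one_div, inv_pow]
        ring
      · simp
        positivity
    have hr1 : (1 : ℝ) / √2 ≤ 3 / 4 := by
      rw [div_le_iff₀ (by positivity)]
      have : (4 / 3 : ℝ) ≤ √2 := by
        apply Real.le_sqrt_of_sq_le
        norm_num
      linarith
    have hr0 : (0 : ℝ) ≤ 1 / √2 := by positivity
    have hgeo : ∑ j ∈ Ico j₀ (N + j₀), ((1 : ℝ) / √2) ^ j ≤ 4 * (1 / √2) ^ j₀ := by
      refine (geom_sum_Ico_le_of_lt_one hr0 (by linarith)).trans ?_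
      rw [div_le_iff₀ (by linarith)]
      have h3 : (0 : ℝ) ≤ (1 / √2) ^ j₀ := by positivity
      nlinarith
    have hpow : ((1 : ℝ) / √2) ^ j₀ ≤ √2 / √t₀ := by
      have h3 : √(t₀ : ℝ) ≤ √2 ^ (j₀ + 1) := by
        rw [Real.sqrt_le_left (by positivity), ← pow_mul, mul_comm, pow_mul,
          Real.sq_sqrt (by norm_num)]
        exact_mod_cast hj₀2.le
      rw [one_div, inv_pow, inv_eq_one_div, div_le_div_iff₀ (by positivity) hst, one_mul,
        ← pow_succ']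
      exact h3
    have hs2 : 4 * √2 ≤ (6 : ℝ) := by
      have : √2 ≤ (3 / 2 : ℝ) := by
        rw [Real.sqrt_le_left (by norm_num)]
        norm_num
      linarith
    calc (((Icc 1 N).filter (fun n => ∃ t : ℕ, t₀ ≤ t ∧
        (f n t : ℝ) < min c₂ c₈ / 2 * t)).card : ℝ)
        ≤ (((Ico j₀ (N + j₀)).biUnion (fun j => if (2 ^ j) ^ 8 ≤ N then
            (Ioc 0 N).filter (fun n => (f n (2 ^ j) : ℝ) < c₂ * ((2 ^ j : ℕ) : ℝ)) else ∅)).card : ℝ) := by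
          exact_mod_cast Finset.card_le_card hsub
      _ ≤ ∑ j ∈ Ico j₀ (N + j₀), (((if (2 ^ j) ^ 8 ≤ N then
            (Ioc 0 N).filter (fun n => (f n (2 ^ j) : ℝ) < c₂ * ((2 ^ j : ℕ) : ℝ)) else ∅) :
              Finset ℕ).card : ℝ) := by
          exact_mod_cast Finset.card_biUnion_le
      _ ≤ ∑ j ∈ Ico j₀ (N + j₀), C₂ * N * (1 / √2) ^ j := Finset.sum_le_sum hbound
      _ = C₂ * N * ∑ j ∈ Ico j₀ (N + j₀), (1 / √2) ^ j := by rw [Finset.mul_sum]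
      _ ≤ C₂ * N * (4 * (√2 / √t₀)) := by
          gcongr
          linarith
      _ = (4 * √2) * C₂ * N / √t₀ := by ring
      _ ≤ (6 * C₂ + √(2 * T₀ : ℝ)) * N / √t₀ := by
          gcongr
          nlinarith [Real.sqrt_nonneg (2 * T₀ : ℝ)]

end EG.V
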